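import Pool.Agent.V11288.LZ.ParG

/-! Frobenius eigenvalues of curves from point counts. -/

set_option autoImplicit false

namespace Pool.Agent.V11288.LZ

open NumberField IsDedekindDomain Pool.Agent.V11288

variable {K : Type} [Field K] [NumberField K] {n N : ℕ}

/-- the eigenvalues of Frobenius on `H¹` of a curve, from point counts -/
theorem frob_of_curve {X : Set (MvPolynomial (Fin n) (𝓞 K))} {v : HeightOneSpectrum (𝓞 K)}
    {α : Fin N → ℂ} (h1 : ∀ j, ‖α j‖ = ((Ideal.absNorm v.asIdeal : ℕ) : ℝ) ^ (1 / 2 : ℝ))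
    (h2 : ∀ (κ : Type) [Field κ] [Finite κ] (φ : 𝓞 K →+* κ) (e : ℕ), RingHom.ker φ = v.asIdeal →
      Nat.card κ = (Ideal.absNorm v.asIdeal : ℕ) ^ e →
      (EV.cone X φ : ℂ) = (((Ideal.absNorm v.asIdeal : ℕ) : ℂ) ^ e - 1) *
        (((Ideal.absNorm v.asIdeal : ℕ) : ℂ) ^ e + 1 - ∑ j, α j ^ e)) :
    EV.IsFrobenius X 1 1 v α := by
  refine ⟨fun k => match k with
    | 0 => {1}
    | 1 => Finset.univ.val.map α
    | 2 => {((Ideal.absNorm v.asIdeal : ℕ) : ℂ)}
    | _ => 0, rfl, fun k z hz => ?_, fun κ _ _ φ e hφ hκ => ?_⟩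
  · match k, hz with
    | 0, hz =>
      simp only [Multiset.mem_singleton] at hz
      rw [hz]
      simp
    | 1, hz =>
      obtain ⟨j, -, rfl⟩ := Multiset.mem_map.1 hz
      rw [h1]
      norm_num
    | 2, hz =>
      simp only [Multiset.mem_singleton] at hz
      rw [hz, Complex.norm_natCast]
      norm_num
    | (k + 3), hz => exact absurd hz (Multiset.notMem_zero _)
  · refine (h2 κ φ e hφ hκ).trans ?_
    have h3 : (Finset.range (2 * 1 + 1) : Finset ℕ) = {0, 1, 2} := rfl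
    rw [h3]
    rw [Finset.sum_insert (by decide), Finset.sum_insert (by decide), Finset.sum_singleton]
    simp only [Multiset.map_singleton, Multiset.sum_singleton, Multiset.map_map]
    have h4 : (Multiset.map ((fun z : ℂ => z ^ e) ∘ α) Finset.univ.val).sum = ∑ j, α j ^ e := rfl
    rw [h4]
    show (((Ideal.absNorm v.asIdeal : ℕ) : ℂ) ^ e - 1) * _ =
      (((Ideal.absNorm v.asIdeal : ℕ) : ℂ) ^ e - 1) * _
    congr 1
    simp
    ring

end Pool.Agent.V11288.LZ
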