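import Pool.Agent.V11290.UL.Law
import Pool.Agent.V11290.UL.Lead
import Pool.Agent.TH942.RZ.Log

/-!
# Rotated Mittag-Leffler means of Dirichlet series with complex coefficients

The law of `V11290.UL.Law` (real coefficients) for complex coefficients.
-/

set_option autoImplicit false

namespace Pool.Agent.V11288.LZ

open Complex Filter Topology Set
open scoped ComplexConjugate
open Pool.Agent.W189.ML Pool.Agent.W189.LC Pool.Agent.W187.UR Pool.Agent.V11290.UL

/-- `Φ = exp (∑ c_i e^{-w lam_i})` for `Re w > 1/2`, meromorphic at the points of `[0, 1/2]` -/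
structure CD {ι : Type} (lam : ι → ℝ) (c : ι → ℂ) (Φ : ℂ → ℂ) : Prop where
  lam_pos : ∀ i, 0 ≤ lam i
  sum : ∀ σ : ℝ, 1 / 2 < σ → Summable fun i => ‖c i‖ * Real.exp (-(σ * lam i))
  mero : ∀ x ∈ Icc (0 : ℝ) (1 / 2), MeromorphicAt Φ (x : ℂ)
  eq : ∀ w : ℂ, 1 / 2 < w.re → Φ w = exp (∑' i, c i * exp (-(w * lam i)))

/-- the series with complex coefficients -/
noncomputable def cser {ι : Type} (lam : ι → ℝ) (c : ι → ℂ) (w : ℂ) : ℂ :=
  ∑' i, c i * exp (-(w * lam i))

/-- the rotated mean with complex coefficients -/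
noncomputable def gmean {ι : Type} (lam : ι → ℝ) (c : ι → ℂ) (γ T : ℝ) : ℂ :=
  ∑' i, c i * (exp ((γ * (lam i / T) : ℝ) * I) * (om (lam i / T) : ℂ))

/-- reflection in the real axis -/
noncomputable def refl (f : ℂ → ℂ) : ℂ → ℂ := fun w => conj (f (conj w))

theorem tendsto_conj_ne (x : ℝ) : Tendsto (fun w : ℂ => conj w) (𝓝[≠] (x : ℂ)) (𝓝[≠] (x : ℂ)) := by
  refine tendsto_nhdsWithin_iff.2 ⟨?_, ?_⟩
  · have h := (Complex.continuous_conj.tendsto (x : ℂ)).mono_left
      (nhdsWithin_le_nhds (s := {(x : ℂ)}ᶜ))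
    rwa [Complex.conj_ofReal] at h
  · filter_upwards [self_mem_nhdsWithin] with w hw h
    refine hw ?_
    have := congrArg conj (show conj w = (x : ℂ) from h)
    rw [Complex.conj_conj, Complex.conj_ofReal] at this
    exact this

theorem refl_analytic {f : ℂ → ℂ} {x : ℝ} (h : AnalyticAt ℂ f (x : ℂ)) :
    AnalyticAt ℂ (refl f) (x : ℂ) := by
  rw [Complex.analyticAt_iff_eventually_differentiableAt] at h ⊢
  have h1 : Tendsto (fun w : ℂ => conj w) (𝓝 (x : ℂ)) (𝓝 (x : ℂ)) := by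
    have := Complex.continuous_conj.tendsto (x : ℂ)
    rwa [Complex.conj_ofReal] at this
  filter_upwards [h1.eventually h] with w hw
  have h2 := DifferentiableAt.conj_conj hw
  rw [Complex.conj_conj] at h2
  exact h2

theorem refl_mero {f : ℂ → ℂ} {x : ℝ} (h : MeromorphicAt f (x : ℂ)) :
    MeromorphicAt (refl f) (x : ℂ) := by
  obtain ⟨n, hn⟩ := h
  refine ⟨n, ?_⟩
  have h1 := refl_analytic hn
  refine h1.congr (Eventually.of_forall fun w => ?_)
  simp [refl]

theorem refl_order {f : ℂ → ℂ} {x : ℝ} (h : MeromorphicAt f (x : ℂ)) {n : ℤ}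
    (hn : meromorphicOrderAt f (x : ℂ) = n) : meromorphicOrderAt (refl f) (x : ℂ) = n := by
  rw [meromorphicOrderAt_eq_int_iff (refl_mero h)]
  obtain ⟨g, hg, hg0, hfg⟩ := (meromorphicOrderAt_eq_int_iff h).1 hn
  refine ⟨refl g, refl_analytic hg, ?_, ?_⟩
  · unfold refl
    rw [Complex.conj_ofReal]
    simpa using hg0
  · filter_upwards [(tendsto_conj_ne x).eventually hfg] with w hw
    unfold refl
    rw [hw]
    simp

variable {ι : Type} {lam : ι → ℝ} {c : ι → ℂ} {Φ : ℂ → ℂ}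

theorem CD.term_le (D : CD lam c Φ) {σ : ℝ} {w : ℂ} (hw : σ ≤ w.re) (i : ι) :
    ‖c i * exp (-(w * lam i))‖ ≤ ‖c i‖ * Real.exp (-(σ * lam i)) := by
  rw [norm_mul, Complex.norm_exp]
  refine mul_le_mul_of_nonneg_left ?_ (norm_nonneg _)
  apply Real.exp_le_exp.2
  have : (-(w * lam i)).re = -(w.re * lam i) := by simp
  rw [this]
  nlinarith [D.lam_pos i]

theorem CD.csum (D : CD lam c Φ) {w : ℂ} (hw : 1 / 2 < w.re) :
    Summable fun i => c i * exp (-(w * lam i)) :=
  Summable.of_norm_bounded (D.sum w.re hw) fun i => D.term_le le_rfl i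

theorem CD.cser_diff (D : CD lam c Φ) {w : ℂ} (hw : 1 / 2 < w.re) :
    DifferentiableAt ℂ (cser lam c) w := by
  set σ : ℝ := (1 / 2 + w.re) / 2 with hσ
  have hσ1 : 1 / 2 < σ := by rw [hσ]; linarith
  have hσw : σ < w.re := by rw [hσ]; linarith
  have hopen : IsOpen {z : ℂ | σ < z.re} := isOpen_lt continuous_const Complex.continuous_re
  have h1 : DifferentiableOn ℂ (cser lam c) {z : ℂ | σ < z.re} := by
    unfold cser
    refine differentiableOn_tsum_of_summable_norm (D.sum σ hσ1) (fun i => ?_) hopen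
      (fun i z hz => ?_)
    · exact Differentiable.differentiableOn (by fun_prop)
    · exact D.term_le (le_of_lt hz) i
  exact (h1 w hσw).differentiableAt (hopen.mem_nhds hσw)

theorem CD.cser_analytic (D : CD lam c Φ) {w : ℂ} (hw : 1 / 2 < w.re) :
    AnalyticAt ℂ (cser lam c) w := by
  rw [Complex.analyticAt_iff_eventually_differentiableAt]
  have hopen : IsOpen {z : ℂ | 1 / 2 < z.re} := isOpen_lt continuous_const Complex.continuous_re
  filter_upwards [hopen.mem_nhds hw] with z hz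
  exact D.cser_diff hz

theorem CD.eq_near (D : CD lam c Φ) {w : ℂ} (hw : 1 / 2 < w.re) :
    Φ =ᶠ[𝓝 w] fun z => exp (cser lam c z) := by
  have hopen : IsOpen {z : ℂ | 1 / 2 < z.re} := isOpen_lt continuous_const Complex.continuous_re
  filter_upwards [hopen.mem_nhds hw] with z hz
  exact D.eq z hz

theorem CD.analytic (D : CD lam c Φ) {w : ℂ} (hw : 1 / 2 < w.re) : AnalyticAt ℂ Φ w :=
  (D.cser_analytic hw).cexp.congr (D.eq_near hw).symm

theorem CD.mero' (D : CD lam c Φ) {x : ℝ} (hx : 0 ≤ x) : MeromorphicAt Φ (x : ℂ) := by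
  rcases le_or_gt x (1 / 2) with h | h
  · exact D.mero x ⟨hx, h⟩
  · exact (D.analytic (by simpa using h)).meromorphicAt

theorem order_zero_of {f g : ℂ → ℂ} {w : ℂ} (hg : AnalyticAt ℂ g w)
    (h : f =ᶠ[𝓝 w] fun z => exp (g z)) : meromorphicOrderAt f w = 0 := by
  have h1 : AnalyticAt ℂ f w := hg.cexp.congr h.symm
  rw [h1.meromorphicOrderAt_eq]
  have h2 : analyticOrderAt f w = 0 := by
    rw [h1.analyticOrderAt_eq_zero, h.eq_of_nhds]
    exact exp_ne_zero _
  rw [h2]
  rfl

theorem CD.order_right (D : CD lam c Φ) {w : ℂ} (hw : 1 / 2 < w.re) :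
    meromorphicOrderAt Φ w = 0 := order_zero_of (D.cser_analytic hw) (D.eq_near hw)

theorem CD.order_ne_top (D : CD lam c Φ) {x : ℝ} (hx : 0 ≤ x) :
    meromorphicOrderAt Φ (x : ℂ) ≠ ⊤ := by
  set U : Set ℂ := (fun x : ℝ => (x : ℂ)) '' Ici 0 with hU
  have hm : MeromorphicOn Φ U := by
    rintro _ ⟨y, hy, rfl⟩
    exact D.mero' hy
  have hc : IsPreconnected U :=
    isPreconnected_Ici.image _ (Continuous.continuousOn (by fun_prop))
  refine hm.meromorphicOrderAt_ne_top_of_isPreconnected hc (x := ((2 : ℝ) : ℂ))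
    ⟨2, by norm_num, rfl⟩ ⟨x, hx, rfl⟩ ?_
  rw [D.order_right (by norm_num)]
  exact WithTop.zero_ne_top

/-- the real and imaginary parts of the coefficients -/
noncomputable def ra (c : ι → ℂ) (i : ι) : ℝ := (c i).re
noncomputable def ib (c : ι → ℂ) (i : ι) : ℝ := (c i).im

theorem CD.sum_re (D : CD lam c Φ) {σ : ℝ} (hσ : 1 / 2 < σ) :
    Summable fun i => |ra c i| * Real.exp (-(σ * lam i)) := by
  refine Summable.of_nonneg_of_le (fun i => by positivity) (fun i => ?_) (D.sum σ hσ)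
  gcongr
  exact Complex.abs_re_le_norm _

theorem CD.sum_im (D : CD lam c Φ) {σ : ℝ} (hσ : 1 / 2 < σ) :
    Summable fun i => |ib c i| * Real.exp (-(σ * lam i)) := by
  refine Summable.of_nonneg_of_le (fun i => by positivity) (fun i => ?_) (D.sum σ hσ)
  gcongr
  exact Complex.abs_im_le_norm _

theorem real_csum {a : ι → ℝ} {w : ℂ}
    (h : Summable fun i => |a i| * Real.exp (-(w.re * lam i))) :
    Summable fun i => (a i : ℂ) * exp (-(w * lam i)) := by
  refine Summable.of_norm_bounded h fun i => ?_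
  rw [norm_mul, Complex.norm_real, Real.norm_eq_abs, Complex.norm_exp]
  have : (-(w * lam i)).re = -(w.re * lam i) := by simp
  rw [this]

theorem CD.split (D : CD lam c Φ) {w : ℂ} (hw : 1 / 2 < w.re) :
    cser lam c w = ser lam (ra c) w + I * ser lam (ib c) w := by
  unfold cser ser
  rw [← tsum_mul_left, ← (real_csum (D.sum_re hw)).tsum_add ((real_csum (D.sum_im hw)).mul_left I)]
  refine tsum_congr fun i => ?_
  unfold ra ib
  conv_lhs => rw [← Complex.re_add_im (c i)]
  ring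

theorem ser_diff' {a : ι → ℝ} (hl : ∀ i, 0 ≤ lam i)
    (hs : ∀ σ : ℝ, 1 / 2 < σ → Summable fun i => |a i| * Real.exp (-(σ * lam i)))
    {w : ℂ} (hw : 1 / 2 < w.re) : DifferentiableAt ℂ (ser lam a) w := by
  set σ : ℝ := (1 / 2 + w.re) / 2 with hσ
  have hσ1 : 1 / 2 < σ := by rw [hσ]; linarith
  have hσw : σ < w.re := by rw [hσ]; linarith
  have hopen : IsOpen {z : ℂ | σ < z.re} := isOpen_lt continuous_const Complex.continuous_re
  have h1 : DifferentiableOn ℂ (ser lam a) {z : ℂ | σ < z.re} := by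
    unfold ser
    refine differentiableOn_tsum_of_summable_norm (hs σ hσ1) (fun i => ?_) hopen
      (fun i z hz => ?_)
    · exact Differentiable.differentiableOn (by fun_prop)
    · rw [norm_mul, Complex.norm_real, Real.norm_eq_abs, Complex.norm_exp]
      refine mul_le_mul_of_nonneg_left ?_ (abs_nonneg _)
      apply Real.exp_le_exp.2
      have : (-(z * lam i)).re = -(z.re * lam i) := by simp
      rw [this]
      have hz' : σ < z.re := hz
      nlinarith [hl i]
  exact (h1 w hσw).differentiableAt (hopen.mem_nhds hσw)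

theorem ser_conj (a : ι → ℝ) (w : ℂ) : conj (ser lam a (conj w)) = ser lam a w := by
  unfold ser
  rw [Complex.conj_tsum]
  refine tsum_congr fun i => ?_
  rw [map_mul, Complex.conj_ofReal, ← Complex.exp_conj]
  simp

theorem CD.om_le' (D : CD lam c Φ) {γ T : ℝ} (hT : 0 < T) (i : ι) :
    ‖exp ((γ * (lam i / T) : ℝ) * I) * (om (lam i / T) : ℂ)‖ ≤
      (Real.exp (Real.exp T) + 1) * Real.exp (-(1 * lam i)) := by
  have hu : 0 ≤ lam i / T := div_nonneg (D.lam_pos i) hT.le
  rw [norm_mul, Complex.norm_exp_ofReal_mul_I, one_mul, Complex.norm_real, Real.norm_eq_abs,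
    abs_of_nonneg (om_nonneg hu)]
  have h1 := om_le (a := T) hT.le hu
  have h2 : T * (lam i / T) = 1 * lam i := by field_simp
  rwa [h2] at h1

theorem CD.gmean_summable (D : CD lam c Φ) {γ T : ℝ} (hT : 0 < T) :
    Summable fun i => ‖c i * (exp ((γ * (lam i / T) : ℝ) * I) * (om (lam i / T) : ℂ))‖ := by
  have h0 := (D.sum 1 (by norm_num)).mul_left (Real.exp (Real.exp T) + 1)
  refine Summable.of_nonneg_of_le (fun i => norm_nonneg _) (fun i => ?_) h0
  rw [norm_mul]
  calc _ ≤ ‖c i‖ * ((Real.exp (Real.exp T) + 1) * Real.exp (-(1 * lam i))) := by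
        gcongr
        exact D.om_le' hT i
    _ = _ := by ring

theorem CD.gsplit (D : CD lam c Φ) {γ T : ℝ} (hT : 0 < T) :
    gmean lam c γ T = cmean lam (ra c) γ T + I * cmean lam (ib c) γ T := by
  have h0 : ∀ a : ι → ℝ, (∀ i, |a i| ≤ ‖c i‖) →
      Summable fun i => (a i : ℂ) * exp ((γ * (lam i / T) : ℝ) * I) * (om (lam i / T) : ℂ) := by
    intro a ha
    refine Summable.of_norm_bounded (D.gmean_summable (γ := γ) hT) fun i => ?_
    rw [mul_assoc, norm_mul, norm_mul (c i), Complex.norm_real, Real.norm_eq_abs]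
    gcongr
    exact ha i
  unfold gmean cmean
  rw [← tsum_mul_left, ← (h0 (ra c) fun i => Complex.abs_re_le_norm _).tsum_add
    ((h0 (ib c) fun i => Complex.abs_im_le_norm _).mul_left I)]
  refine tsum_congr fun i => ?_
  unfold ra ib
  conv_lhs => rw [← Complex.re_add_im (c i)]
  ring

/-- the quotient of the function by its reflection -/
noncomputable def quo (Φ : ℂ → ℂ) : ℂ → ℂ := fun w => Φ w / refl Φ w

theorem CD.quo_eq (D : CD lam c Φ) {w : ℂ} (hw : 1 / 2 < w.re) :
    quo Φ w = exp (2 * I * ser lam (ib c) w) := by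
  have hw' : 1 / 2 < (conj w).re := by simpa using hw
  have e1 : Φ w = exp (cser lam c w) := D.eq w hw
  have e2 : refl Φ w = exp (ser lam (ra c) w - I * ser lam (ib c) w) := by
    unfold refl
    rw [show Φ (conj w) = exp (cser lam c (conj w)) from D.eq _ hw', D.split hw', ← Complex.exp_conj,
      map_add, map_mul, ser_conj, ser_conj, Complex.conj_I]
    congr 1
    ring
  unfold quo
  rw [e1, e2, D.split hw, ← Complex.exp_sub]
  congr 1
  ring

theorem CD.quo_mero (D : CD lam c Φ) {x : ℝ} (hx : 0 ≤ x) : MeromorphicAt (quo Φ) (x : ℂ) :=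
  (D.mero' hx).div (refl_mero (D.mero' hx))

theorem CD.quo_order (D : CD lam c Φ) {x : ℝ} (hx : 0 ≤ x) :
    meromorphicOrderAt (quo Φ) (x : ℂ) = 0 := by
  obtain ⟨n, hn⟩ := WithTop.ne_top_iff_exists.1 (D.order_ne_top hx)
  have h1 := refl_order (D.mero' hx) hn.symm
  have h2 : quo Φ = Φ * (refl Φ)⁻¹ := by
    funext w
    simp [quo, div_eq_mul_inv]
  rw [h2, meromorphicOrderAt_mul (D.mero' hx) (refl_mero (D.mero' hx)).inv, meromorphicOrderAt_inv,
    h1, ← hn]
  have : (n : WithTop ℤ) + -(n : WithTop ℤ) = ((n + -n : ℤ) : WithTop ℤ) := rfl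
  rw [this, add_neg_cancel]
  rfl

/-- the nonnegative real axis -/
def RA : Set ℂ := (fun x : ℝ => (x : ℂ)) '' Ici 0

/-- the analytic quotient -/
noncomputable def qn (Φ : ℂ → ℂ) : ℂ → ℂ := toMeromorphicNFOn (quo Φ) RA

theorem CD.quo_on (D : CD lam c Φ) : MeromorphicOn (quo Φ) RA := by
  rintro _ ⟨x, hx, rfl⟩
  exact D.quo_mero hx

theorem CD.qn_near (D : CD lam c Φ) {x : ℝ} (hx : 0 ≤ x) : qn Φ =ᶠ[𝓝[≠] (x : ℂ)] quo Φ :=
  D.quo_on.toMeromorphicNFOn_eq_self_on_nhdsNE ⟨x, hx, rfl⟩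

theorem CD.qn_good (D : CD lam c Φ) {x : ℝ} (hx : 0 ≤ x) :
    AnalyticAt ℂ (qn Φ) (x : ℂ) ∧ qn Φ (x : ℂ) ≠ 0 := by
  have h1 : MeromorphicNFAt (qn Φ) (x : ℂ) := by
    have h2 := meromorphicNFOn_toMeromorphicNFOn (quo Φ) RA
    exact h2 ⟨x, hx, rfl⟩
  have h3 : meromorphicOrderAt (qn Φ) (x : ℂ) = 0 := by
    rw [meromorphicOrderAt_congr (D.qn_near hx), D.quo_order hx]
  exact ⟨h1.meromorphicOrderAt_nonneg_iff_analyticAt.1 h3.ge,
    h1.meromorphicOrderAt_eq_zero_iff.1 h3⟩

theorem CD.qn_right (D : CD lam c Φ) {w : ℂ} (hw : 1 / 2 < w.re) : qn Φ w = quo Φ w := by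
  by_cases h : w ∈ RA
  · obtain ⟨x, hx, rfl⟩ := h
    have hx0 : (0 : ℝ) ≤ x := hx
    have h1 := (D.qn_good hx0).1.continuousAt
    have hopen : IsOpen {z : ℂ | 1 / 2 < z.re} := isOpen_lt continuous_const Complex.continuous_re
    have h2 : ContinuousAt (quo Φ) (x : ℂ) := by
      have h3 : quo Φ =ᶠ[𝓝 (x : ℂ)] fun w => exp (2 * I * ser lam (ib c) w) := by
        filter_upwards [hopen.mem_nhds hw] with z hz
        exact D.quo_eq hz
      have h4 : ContinuousAt (ser lam (ib c)) (x : ℂ) :=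
        (ser_diff' D.lam_pos (fun σ hσ => D.sum_im hσ) hw).continuousAt
      have h7 : ContinuousAt (fun w => exp (2 * I * ser lam (ib c) w)) (x : ℂ) :=
        (continuousAt_const.mul h4).cexp
      exact h7.congr h3.symm
    have h8 := h1.tendsto.mono_left (nhdsWithin_le_nhds (s := {(x : ℂ)}ᶜ))
    have h9 := h2.tendsto.mono_left (nhdsWithin_le_nhds (s := {(x : ℂ)}ᶜ))
    exact tendsto_nhds_unique (h8.congr' (D.qn_near hx0)) h9
  · exact toMeromorphicNFOn_eq_self_on_compl D.quo_on h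

/-- a thin open rectangle around `[0, 3]` -/
def box (ε : ℝ) : Set ℂ := {w | -ε < w.re} ∩ {w | w.re < 3 + ε} ∩ {w | -ε < w.im} ∩ {w | w.im < ε}

theorem box_open (ε : ℝ) : IsOpen (box ε) :=
  (((isOpen_lt continuous_const Complex.continuous_re).inter
    (isOpen_lt Complex.continuous_re continuous_const)).inter
    (isOpen_lt continuous_const Complex.continuous_im)).inter
    (isOpen_lt Complex.continuous_im continuous_const)

theorem box_convex (ε : ℝ) : Convex ℝ (box ε) :=
  (((convex_halfSpace_re_gt _).inter (convex_halfSpace_re_lt _)).inter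
    (convex_halfSpace_im_gt _)).inter (convex_halfSpace_im_lt _)

theorem mem_box {ε x : ℝ} (hε : 0 < ε) (h0 : 0 ≤ x) (h3 : x ≤ 3) : (x : ℂ) ∈ box ε := by
  refine ⟨⟨⟨?_, ?_⟩, ?_⟩, ?_⟩ <;> simp <;> linarith

theorem CD.exists_box (D : CD lam c Φ) : ∃ ε : ℝ, 0 < ε ∧
    ∀ w ∈ box ε, AnalyticAt ℂ (qn Φ) w ∧ qn Φ w ≠ 0 := by
  set Kc : Set ℂ := (fun x : ℝ => (x : ℂ)) '' Icc 0 3 with hKc
  have hKcc : IsCompact Kc := isCompact_Icc.image (by fun_prop)
  set U : Set ℂ := {w | AnalyticAt ℂ (qn Φ) w ∧ qn Φ w ≠ 0} with hU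
  have hUo : IsOpen U := by
    rw [isOpen_iff_mem_nhds]
    rintro w ⟨hw1, hw2⟩
    filter_upwards [hw1.eventually_analyticAt, hw1.continuousAt.eventually_ne hw2] with v h3 h4
    exact ⟨h3, h4⟩
  have hKU : Kc ⊆ U := by
    rintro _ ⟨x, hx, rfl⟩
    exact D.qn_good hx.1
  obtain ⟨δ, hδ, hsub⟩ := hKcc.exists_cthickening_subset_open hUo hKU
  refine ⟨δ / 2, by linarith, fun w hw => hsub ?_⟩
  obtain ⟨⟨⟨h1, h2⟩, h3⟩, h4⟩ := hw
  simp only [Set.mem_ofPred_eq] at h1 h2 h3 h4
  set y : ℝ := max 0 (min w.re 3) with hy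
  have hy1 : |w.re - y| ≤ δ / 2 := by
    rw [abs_le]
    constructor
    · rcases max_cases (0 : ℝ) (min w.re 3) with h | h <;>
        rcases min_cases w.re (3 : ℝ) with h' | h' <;> rw [hy] <;> linarith [h.1, h'.1]
    · rcases max_cases (0 : ℝ) (min w.re 3) with h | h <;>
        rcases min_cases w.re (3 : ℝ) with h' | h' <;> rw [hy] <;> linarith [h.1, h'.1]
  refine Metric.mem_cthickening_of_dist_le w (y : ℂ) δ Kc
    ⟨y, ⟨le_max_left _ _, max_le (by norm_num) (min_le_right _ _)⟩, rfl⟩ ?_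
  rw [Complex.dist_eq]
  have h5 := Complex.norm_le_abs_re_add_abs_im (w - (y : ℂ))
  have h6 : |(w - (y : ℂ)).im| ≤ δ / 2 := by
    simp only [sub_im, ofReal_im, sub_zero]
    rw [abs_le]
    constructor <;> linarith
  have h7 : |(w - (y : ℂ)).re| ≤ δ / 2 := by simpa using hy1
  linarith

/-- the phase -/
theorem CD.exists_phase (D : CD lam c Φ) : ∃ (ε : ℝ) (θ : ℂ → ℂ), 0 < ε ∧
    (∀ w ∈ box ε, DifferentiableAt ℂ θ w) ∧ (∀ w ∈ box ε, exp (2 * I * θ w) = qn Φ w) ∧
    ∀ w : ℂ, 1 / 2 < w.re → θ w = ser lam (ib c) w := by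
  obtain ⟨ε, hε, hbox⟩ := D.exists_box
  have hd : DifferentiableOn ℂ (qn Φ) (box ε) :=
    fun w hw => (hbox w hw).1.differentiableAt.differentiableWithinAt
  obtain ⟨g, hg1, hg2⟩ := Pool.Agent.TH942.RZ.exists_log (box_open ε) (box_convex ε) hd
    fun w hw => (hbox w hw).2
  set W : Set ℂ := box ε ∩ {w | 1 / 2 < w.re} with hW
  have hWo : IsOpen W := (box_open ε).inter (isOpen_lt continuous_const Complex.continuous_re)
  have hWc : Convex ℝ W := (box_convex ε).inter (convex_halfSpace_re_gt _)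
  have hsd : ∀ w : ℂ, 1 / 2 < w.re → DifferentiableAt ℂ (fun w => 2 * I * ser lam (ib c) w) w :=
    fun w hw => (ser_diff' D.lam_pos (fun σ hσ => D.sum_im hσ) hw).const_mul _
  have h1W : ((1 : ℝ) : ℂ) ∈ W := ⟨mem_box hε (by norm_num) (by norm_num), by norm_num⟩
  set κ : ℂ := g ((1 : ℝ) : ℂ) - 2 * I * ser lam (ib c) ((1 : ℝ) : ℂ) with hκ
  have hexp : ∀ w ∈ W, exp (g w) = exp (2 * I * ser lam (ib c) w) := by
    intro w hw
    rw [hg2 w hw.1, D.qn_right hw.2, D.quo_eq hw.2]
  have hconst : ∀ w ∈ W, g w - 2 * I * ser lam (ib c) w = κ := by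
    intro w hw
    exact Pool.Agent.TH942.RZ.log_unique hWc (fun z hz => hg1 z hz.1)
      (fun z hz => (hsd z hz.2).hasDerivAt) hexp hWo hw h1W
  have hκ1 : exp κ = 1 := by
    rw [hκ, Complex.exp_sub, hexp _ h1W, div_self (exp_ne_zero _)]
  have h2I : (2 * I : ℂ) ≠ 0 := by simp
  set θ : ℂ → ℂ := fun w => if 1 / 2 < w.re then ser lam (ib c) w else (g w - κ) / (2 * I) with hθ
  have hθb : ∀ w ∈ box ε, θ w = (g w - κ) / (2 * I) := by
    intro w hw
    rw [hθ]
    simp only
    split_ifs with h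
    · have := hconst w ⟨hw, h⟩
      rw [eq_div_iff h2I]
      linear_combination -this
    · rfl
  refine ⟨ε, θ, hε, fun w hw => ?_, fun w hw => ?_, fun w hw => ?_⟩
  · have h1 : DifferentiableAt ℂ (fun w => (g w - κ) / (2 * I)) w :=
      ((hg1 w hw).differentiableAt.sub_const κ).div_const _
    refine h1.congr_of_eventuallyEq ?_
    filter_upwards [(box_open ε).mem_nhds hw] with z hz
    exact hθb z hz
  · rw [hθb w hw, mul_div_cancel₀ _ h2I, Complex.exp_sub, hκ1, div_one, hg2 w hw]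
  · rw [hθ]
    simp only
    rw [if_pos hw]

/-- the quotient is unimodular at `0` -/
theorem CD.qn_zero (D : CD lam c Φ) : ‖qn Φ 0‖ = 1 := by
  have h0 := D.qn_good (x := 0) le_rfl
  rw [Complex.ofReal_zero] at h0
  -- approach along the positive reals
  have ht : Tendsto (fun y : ℝ => (y : ℂ)) (𝓝[>] 0) (𝓝[≠] (0 : ℂ)) := by
    refine tendsto_nhdsWithin_iff.2 ⟨?_, ?_⟩
    · have h := (Complex.continuous_ofReal.tendsto (0 : ℝ)).mono_left
        (nhdsWithin_le_nhds (s := Ioi (0 : ℝ)))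
      rwa [Complex.ofReal_zero] at h
    · filter_upwards [self_mem_nhdsWithin] with y hy
      have hy' : (0 : ℝ) < y := hy
      simp only [mem_compl_iff, mem_singleton_iff]
      exact_mod_cast hy'.ne'
  have h1 : Tendsto (fun y : ℝ => ‖qn Φ (y : ℂ)‖) (𝓝[>] 0) (𝓝 ‖qn Φ 0‖) :=
    ((h0.1.continuousAt.tendsto.mono_left nhdsWithin_le_nhds).comp ht).norm
  have h2 : ∀ᶠ y : ℝ in 𝓝[>] 0, ‖qn Φ (y : ℂ)‖ = 1 := by
    have h3 := D.qn_near (x := 0) le_rfl
    rw [Complex.ofReal_zero] at h3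
    have h4 : ∀ᶠ w in 𝓝[≠] (0 : ℂ), Φ w ≠ 0 := by
      have h5 := D.order_ne_top (x := 0) le_rfl
      rw [Complex.ofReal_zero] at h5
      have h6 := D.mero' (x := 0) le_rfl
      rw [Complex.ofReal_zero] at h6
      exact (meromorphicOrderAt_ne_top_iff_eventually_ne_zero h6).1 h5
    filter_upwards [ht.eventually h3, ht.eventually h4] with y h5 h6
    rw [h5]
    unfold quo refl
    rw [Complex.conj_ofReal, norm_div, RCLike.norm_conj, div_self (norm_ne_zero_iff.2 h6)]
  exact tendsto_nhds_unique h1 (tendsto_const_nhds.congr' (h2.mono fun _ h => h.symm))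

/-- the real part of the coefficients: data for the real law -/
theorem CD.mdata_a (D : CD lam c Φ) {ε : ℝ} {θ : ℂ → ℂ} (hε : 0 < ε)
    (h1 : ∀ w ∈ box ε, DifferentiableAt ℂ θ w)
    (h3 : ∀ w : ℂ, 1 / 2 < w.re → θ w = ser lam (ib c) w) :
    MData lam (ra c) (fun w => Φ w * exp (-(I * θ w))) := by
  refine ⟨D.lam_pos, fun σ hσ => D.sum_re (by linarith), fun x hx => ?_, fun w hw => ?_⟩
  · have hb := mem_box hε hx.1 (by linarith [hx.2])
    have h4 : AnalyticAt ℂ θ (x : ℂ) := by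
      rw [Complex.analyticAt_iff_eventually_differentiableAt]
      filter_upwards [(box_open ε).mem_nhds hb] with z hz
      exact h1 z hz
    have h5 : AnalyticAt ℂ (fun w => exp (-(I * θ w))) (x : ℂ) :=
      ((analyticAt_const.mul h4).neg).cexp
    exact (D.mero' hx.1).mul h5.meromorphicAt
  · have hw' : 1 / 2 < w.re := by linarith
    rw [show Φ w = exp (cser lam c w) from D.eq w hw', h3 w hw', ← Complex.exp_add, D.split hw']
    congr 1
    ring

theorem CD.mdata_b (D : CD lam c Φ) {ε : ℝ} {θ : ℂ → ℂ} (hε : 0 < ε)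
    (h1 : ∀ w ∈ box ε, DifferentiableAt ℂ θ w)
    (h3 : ∀ w : ℂ, 1 / 2 < w.re → θ w = ser lam (ib c) w) :
    MData lam (ib c) (fun w => exp (θ w)) := by
  refine ⟨D.lam_pos, fun σ hσ => D.sum_im (by linarith), fun x hx => ?_, fun w hw => ?_⟩
  · have hb := mem_box hε hx.1 (by linarith [hx.2])
    have h4 : AnalyticAt ℂ θ (x : ℂ) := by
      rw [Complex.analyticAt_iff_eventually_differentiableAt]
      filter_upwards [(box_open ε).mem_nhds hb] with z hz
      exact h1 z hz
    exact h4.cexp.meromorphicAt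
  · rw [h3 w (by linarith)]

theorem ser_analytic' {a : ι → ℝ} (hl : ∀ i, 0 ≤ lam i)
    (hs : ∀ σ : ℝ, 1 / 2 < σ → Summable fun i => |a i| * Real.exp (-(σ * lam i)))
    {w : ℂ} (hw : 1 / 2 < w.re) : AnalyticAt ℂ (ser lam a) w := by
  rw [Complex.analyticAt_iff_eventually_differentiableAt]
  have hopen : IsOpen {z : ℂ | 1 / 2 < z.re} := isOpen_lt continuous_const Complex.continuous_re
  filter_upwards [hopen.mem_nhds hw] with z hz
  exact ser_diff' hl hs hz

/-- **The law with complex coefficients.** -/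
theorem CD.law [Countable ι] (D : CD lam c Φ) {γ : ℝ} (hγ : Real.pi / 2 < γ) :
    ∃ (m : ℤ) (r₀ : ℂ), meromorphicOrderAt Φ 0 = m ∧
      Tendsto (fun w => Φ w / w ^ m) (𝓝[≠] 0) (𝓝 (exp r₀)) ∧
      (fun T : ℝ => gmean lam c γ T + m * (Real.log T - Lam γ) - r₀) =O[atTop]
        (fun T : ℝ => 1 / T) := by
  obtain ⟨ε, θ, hε, h1, h2, h3⟩ := D.exists_phase
  have Da := D.mdata_a hε h1 h3
  have Db := D.mdata_b hε h1 h3
  have hopen : IsOpen {z : ℂ | 1 / 2 < z.re} := isOpen_lt continuous_const Complex.continuous_re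
  have hθa : ∀ x : ℝ, 0 ≤ x → AnalyticAt ℂ θ (x : ℂ) := by
    intro x hx
    rcases le_or_gt x (1 / 2) with h | h
    · rw [Complex.analyticAt_iff_eventually_differentiableAt]
      filter_upwards [(box_open ε).mem_nhds (mem_box hε hx (by linarith))] with z hz
      exact h1 z hz
    · have h4 := ser_analytic' D.lam_pos (fun σ hσ => D.sum_im hσ) (w := (x : ℂ)) (by simpa using h)
      refine h4.congr ?_
      filter_upwards [hopen.mem_nhds (show (1 / 2 : ℝ) < ((x : ℂ)).re by simpa using h)] with z hz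
      exact (h3 z hz).symm
  have hra : ∀ x : ℝ, 1 / 2 < x →
      meromorphicOrderAt (fun w => Φ w * exp (-(I * θ w))) (x : ℂ) = 0 := by
    intro x hx
    have hx' : (1 / 2 : ℝ) < ((x : ℂ)).re := by simpa using hx
    refine order_zero_of (g := fun w => cser lam c w + -(I * θ w)) ?_ ?_
    · exact (D.cser_analytic hx').add ((analyticAt_const.mul (hθa x (by linarith))).neg)
    · filter_upwards [D.eq_near hx'] with z hz
      rw [hz, ← Complex.exp_add]
  have hrb : ∀ x : ℝ, 0 ≤ x → meromorphicOrderAt (fun w => exp (θ w)) (x : ℂ) = 0 := fun x hx =>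
    order_zero_of (hθa x hx) (Eventually.of_forall fun _ => rfl)
  obtain ⟨m, l, hm, hl, hl0, hO, hlim⟩ := mdata_law Da hra hγ
  obtain ⟨m', l', hm', hl', hl0', hO', -⟩ := mdata_law Db (fun x hx => hrb x (by linarith)) hγ
  have hm'0 : m' = 0 := by
    have h4 := hrb 0 le_rfl
    rw [Complex.ofReal_zero] at h4
    rw [h4] at hm'
    exact (by exact_mod_cast hm'.symm)
  have hexc : exc (fun w => exp (θ w)) = 0 := by
    unfold exc
    refine finsum_mem_eq_zero_of_forall_eq_zero fun x hx => ?_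
    rw [hrb x hx.1.le]
    rfl
  have hθ0 : AnalyticAt ℂ θ 0 := by
    have := hθa 0 le_rfl
    rwa [Complex.ofReal_zero] at this
  -- the phase at `0` is real
  have hreal : (θ 0).im = 0 := by
    have h4 := D.qn_zero
    have h5 := h2 0 (by simpa using mem_box hε (le_refl (0 : ℝ)) (by norm_num))
    rw [← h5, Complex.norm_exp, Real.exp_eq_one_iff] at h4
    simp at h4
    exact h4
  have hl'1 : exp (θ 0) = (l' : ℂ) := by
    rw [← hl']
    have h4 : AnalyticAt ℂ (fun w => exp (θ w)) 0 := hθ0.cexp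
    rw [h4.meromorphicTrailingCoeffAt_of_ne_zero (exp_ne_zero _)]
  have hθl : ((Real.log |l'| : ℝ) : ℂ) = θ 0 := by
    have h4 : θ 0 = ((θ 0).re : ℂ) := by
      apply Complex.ext
      · simp
      · rw [hreal, Complex.ofReal_im]
    have h5 : |l'| = Real.exp (θ 0).re := by
      have h6 : ‖(l' : ℂ)‖ = Real.exp (θ 0).re := by
        rw [← hl'1, Complex.norm_exp]
      rwa [Complex.norm_real, Real.norm_eq_abs] at h6
    rw [h5, Real.log_exp, ← h4]
  set E : ℤ := exc (fun w => Φ w * exp (-(I * θ w))) with hE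
  set r₁ : ℂ := Real.log |l| - Real.pi * E * I with hr₁
  have hmer : MeromorphicAt (fun w => Φ w * exp (-(I * θ w))) 0 := by
    have := Da.mero 0 ⟨le_rfl, by norm_num⟩
    rwa [Complex.ofReal_zero] at this
  have hΦm : MeromorphicAt Φ 0 := by
    have := D.mero' (x := 0) le_rfl
    rwa [Complex.ofReal_zero] at this
  -- the real coefficient from both forms
  have hlr : exp r₁ = (l : ℂ) := by
    have h4 : Tendsto (fun T : ℝ => -cmean lam (ra c) γ T - (m * (Real.log T - Lam γ) -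
        Real.log |l| + Real.pi * E * I)) atTop (𝓝 0) := by
      refine hO.trans_tendsto ?_
      exact tendsto_const_nhds.div_atTop tendsto_id
    have h5 : Tendsto (fun T : ℝ => exp (-cmean lam (ra c) γ T - (m * (Real.log T - Lam γ) -
        Real.log |l| + Real.pi * E * I)) * exp (-(m * Lam γ) - r₁)) atTop
        (𝓝 (1 * exp (-(m * Lam γ) - r₁))) := by
      refine Tendsto.mul_const _ ?_
      have := (Complex.continuous_exp.tendsto 0).comp h4
      simpa [Function.comp_def] using this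
    have h6 := tendsto_nhds_unique (h5.congr' ?_) hlim
    · rw [one_mul, Complex.exp_sub] at h6
      have hlc : (l : ℂ) ≠ 0 := by exact_mod_cast hl0
      rw [div_eq_div_iff (exp_ne_zero _) hlc] at h6
      exact (mul_left_cancel₀ (exp_ne_zero _) h6).symm
    · filter_upwards [eventually_gt_atTop 0] with T hT
      have h7 : (T : ℂ) ^ m = Complex.exp (m * Real.log T) := by
        rw [Complex.exp_int_mul, ← Complex.ofReal_exp, Real.exp_log hT]
      rw [h7, ← Complex.exp_sub, ← Complex.exp_add]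
      congr 1
      rw [hr₁]
      ring
  refine ⟨m, r₁ + I * θ 0, ?_, ?_, ?_⟩
  · -- the order
    rw [← hm]
    have h4 : AnalyticAt ℂ (fun w => exp (-(I * θ w))) 0 := ((analyticAt_const.mul hθ0).neg).cexp
    have h5 : meromorphicOrderAt (fun w => exp (-(I * θ w))) 0 = 0 :=
      order_zero_of (g := fun w => -(I * θ w)) ((analyticAt_const.mul hθ0).neg)
        (Eventually.of_forall fun _ => rfl)
    have h6 : (fun w => Φ w * exp (-(I * θ w))) = Φ * fun w => exp (-(I * θ w)) := rfl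
    rw [h6, meromorphicOrderAt_mul hΦm h4.meromorphicAt, h5, add_zero]
  · -- the leading coefficient
    have h4 := (lead_iff hmer m (B := (l : ℂ)) (by exact_mod_cast hl0)).1 ⟨hm, hl⟩
    have h5 : Tendsto (fun w => exp (I * θ w)) (𝓝[≠] 0) (𝓝 (exp (I * θ 0))) :=
      ((analyticAt_const.mul hθ0).cexp.continuousAt.tendsto).mono_left nhdsWithin_le_nhds
    have h6 := h4.mul h5
    rw [← hlr, ← Complex.exp_add] at h6
    refine h6.congr fun w => ?_
    have h7 : exp (-(I * θ w)) * exp (I * θ w) = 1 := by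
      rw [← Complex.exp_add, neg_add_cancel, Complex.exp_zero]
    rw [sub_zero]
    calc Φ w * exp (-(I * θ w)) / w ^ m * exp (I * θ w) =
        Φ w / w ^ m * (exp (-(I * θ w)) * exp (I * θ w)) := by ring
      _ = _ := by rw [h7, mul_one]
  · have h4 := (hO.add (hO'.const_mul_left I)).neg_left
    refine h4.congr' ?_ (Eventually.of_forall fun _ => rfl)
    filter_upwards [eventually_gt_atTop 0] with T hT
    rw [D.gsplit hT, hm'0, hexc, hθl, hr₁]
    push_cast
    ring

end Pool.Agent.V11288.LZ
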