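import Pool.Agent.V11288.LZ.Part

/-! Differences of partial zeta functions. -/

set_option autoImplicit false

namespace Pool.Agent.V11288.LZ

open Complex Filter Topology Set NumberField IsDedekindDomain

variable {K : Type} [Field K] [NumberField K] {G : Type} [CommGroup G] [Finite G]
  {S : Set (HeightOneSpectrum (𝓞 K))} {cls : Ideal (𝓞 K) → G}

theorem dft_shift (a : G → ℂ) (R : G) (χ : G →* ℂˣ) :
    dft (fun g => a g - a (R * g)) χ = (1 - ((χ R⁻¹ : ℂˣ) : ℂ)) * dft a χ := by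
  have : Fintype G := Fintype.ofFinite _
  unfold dft
  simp only [finsum_eq_sum_of_fintype]
  have h1 : ∑ g : G, ((χ g : ℂˣ) : ℂ) * a (R * g) = ((χ R⁻¹ : ℂˣ) : ℂ) * ∑ g : G, ((χ g : ℂˣ) : ℂ) * a g := by
    rw [Finset.mul_sum]
    refine Fintype.sum_equiv (Equiv.mulLeft R) _ _ fun g => ?_
    simp only [Equiv.coe_mulLeft, map_mul, Units.val_mul, map_inv, Units.val_inv_eq_inv_val]
    have h2 : ((χ R : ℂˣ) : ℂ) ≠ 0 := Units.ne_zero _
    field_simp
  simp only [mul_sub, Finset.sum_sub_distrib]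
  rw [h1]
  ring

/-- **Differences of partial zeta functions.** -/
theorem diff_main (hc : ∀ 𝔞 𝔟, PrimeTo S 𝔞 → PrimeTo S 𝔟 → cls (𝔞 * 𝔟) = cls 𝔞 * cls 𝔟)
    {ζ : G → ℂ → ℂ} (s₀ : ℝ) (hm : ∀ g, ∀ x ∈ Icc s₀ 1, MeromorphicAt (ζ g) (x : ℂ))
    (hζ : ∀ g, ∀ s : ℂ, 1 < s.re → ζ g s = psum' S cls g s) {γ : ℝ} (hγ : Real.pi / 2 < γ)
    (r : ℤ) (R : G) (z : G → ℂ) :
    ((∀ g, Tendsto (fun s : ℂ => (ζ g s - ζ (R * g) s) / (s - s₀) ^ r) (𝓝[≠] (s₀ : ℂ)) (𝓝 (z g))) ↔
      ∀ g, Tendsto (fun X : ℝ => (Real.log X : ℂ) ^ r *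
        (dftinv (fun χ => exp (cW S cls s₀ χ γ X)) g -
          dftinv (fun χ => exp (cW S cls s₀ χ γ X)) (R * g))) atTop
        (𝓝 (exp (r * Pool.Agent.W187.UR.Lam γ) * z g))) ∧
    ((∀ g, Tendsto (fun s : ℂ => (ζ g s - ζ (R * g) s) / (s - s₀) ^ r) (𝓝[≠] (s₀ : ℂ)) (𝓝 (z g))) →
      ∀ g, (fun X : ℝ => (Real.log X : ℂ) ^ r *
        (dftinv (fun χ => exp (cW S cls s₀ χ γ X)) g -
          dftinv (fun χ => exp (cW S cls s₀ χ γ X)) (R * g)) -
        exp (r * Pool.Agent.W187.UR.Lam γ) * z g) =O[atTop] (fun X : ℝ => 1 / Real.log X)) := by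
  have : Fintype G := Fintype.ofFinite _
  have : Fintype (G →* ℂˣ) := Fintype.ofFinite _
  set L : (G →* ℂˣ) → ℂ → ℂ := fun χ s => dft (fun g => ζ g s) χ with hL
  set u : (G →* ℂˣ) → ℂ := fun χ => 1 - ((χ R⁻¹ : ℂˣ) : ℂ) with hu
  have hLm : ∀ χ, ∀ x ∈ Icc s₀ (1 + (0 : ℝ)), MeromorphicAt (L χ) (x : ℂ) := by
    intro χ x hx
    rw [add_zero] at hx
    have h1 : L χ = ∑ g : G, fun s => ((χ g : ℂˣ) : ℂ) * ζ g s := by
      funext s
      rw [hL]
      simp only [dft, finsum_eq_sum_of_fintype, Finset.sum_apply]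
    rw [h1]
    refine MeromorphicAt.sum fun g _ => ?_
    exact (MeromorphicAt.const _ _).mul (hm g x hx)
  have hLp : ∀ χ, ∀ s : ℂ, 1 + (0 : ℝ) < s.re → L χ s =
      ∏' v : {v : HeightOneSpectrum (𝓞 K) | v ∉ S},
        ((1 - (((Ideal.absNorm v.1.asIdeal : ℝ)) : ℂ) ^ (-s) • cmat S cls χ v).det)⁻¹ := by
    intro χ s hs
    rw [add_zero] at hs
    rw [← cprod hc χ hs, LI_eq hc χ hs]
    have h1 : (fun g => ζ g s) = fun g => psum' S cls g s := funext fun g => hζ g s hs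
    rw [hL]
    simp only [h1]
    rfl
  -- for every character
  have key : ∀ χ (B : ℂ), Tendsto (fun s : ℂ => u χ * L χ s / (s - s₀) ^ r) (𝓝[≠] (s₀ : ℂ)) (𝓝 B) ↔
      Tendsto (fun X : ℝ => (Real.log X : ℂ) ^ r * (u χ * exp (cW S cls s₀ χ γ X))) atTop
        (𝓝 (exp (r * Pool.Agent.W187.UR.Lam γ) * B)) := by
    intro χ B
    rcases eq_or_ne (u χ) 0 with h0 | h0
    · simp only [h0, zero_mul, zero_div, mul_zero]
      rw [tendsto_const_nhds_iff, tendsto_const_nhds_iff]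
      constructor
      · intro h
        rw [← h, mul_zero]
      · intro h
        rcases mul_eq_zero.1 h.symm with h1 | h1
        · exact absurd h1 (Complex.exp_ne_zero _)
        · exact h1.symm
    · have h1 := (eul_char (S := S) (cls := cls) χ).lead_iff s₀ (hLm χ) (hLp χ) hγ r (B / u χ)
      simp only [cW_eq] at h1
      constructor
      · intro h
        have h2 := h.const_mul (u χ)⁻¹
        have h3 : Tendsto (fun s : ℂ => L χ s / (s - s₀) ^ r) (𝓝[≠] (s₀ : ℂ)) (𝓝 (B / u χ)) := by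
          rw [div_eq_inv_mul]
          refine h2.congr fun s => ?_
          rw [mul_div_assoc, inv_mul_cancel_left₀ h0]
        have h4 := (h1.1 h3).const_mul (u χ)
        have h5 : u χ * (exp (r * Pool.Agent.W187.UR.Lam γ) * (B / u χ)) =
            exp (r * Pool.Agent.W187.UR.Lam γ) * B := by field_simp
        rw [h5] at h4
        exact h4.congr fun X => by ring
      · intro h
        have h2 := h.const_mul (u χ)⁻¹
        have h3 : Tendsto (fun X : ℝ => (Real.log X : ℂ) ^ r * exp (cW S cls s₀ χ γ X)) atTop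
            (𝓝 (exp (r * Pool.Agent.W187.UR.Lam γ) * (B / u χ))) := by
          have h5 : (u χ)⁻¹ * (exp (r * Pool.Agent.W187.UR.Lam γ) * B) =
              exp (r * Pool.Agent.W187.UR.Lam γ) * (B / u χ) := by field_simp
          rw [← h5]
          refine h2.congr fun X => ?_
          field_simp
        have h4 := (h1.2 h3).const_mul (u χ)
        rw [mul_div_cancel₀ _ h0] at h4
        exact h4.congr fun s => by rw [mul_div_assoc]
  have key2 : ∀ χ (B : ℂ), Tendsto (fun s : ℂ => u χ * L χ s / (s - s₀) ^ r) (𝓝[≠] (s₀ : ℂ)) (𝓝 B) →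
      (fun X : ℝ => (Real.log X : ℂ) ^ r * (u χ * exp (cW S cls s₀ χ γ X)) -
        exp (r * Pool.Agent.W187.UR.Lam γ) * B) =O[atTop] (fun X : ℝ => 1 / Real.log X) := by
    intro χ B hB
    rcases eq_or_ne (u χ) 0 with h0 | h0
    · have h1 : B = 0 := by
        simp only [h0, zero_mul, zero_div] at hB
        exact (tendsto_const_nhds_iff.1 hB).symm
      simp only [h0, h1, zero_mul, mul_zero, sub_zero]
      exact Asymptotics.isBigO_zero _ _
    · have h3 : Tendsto (fun s : ℂ => L χ s / (s - s₀) ^ r) (𝓝[≠] (s₀ : ℂ)) (𝓝 (B / u χ)) := by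
        rw [div_eq_inv_mul]
        refine (hB.const_mul (u χ)⁻¹).congr fun s => ?_
        rw [mul_div_assoc, inv_mul_cancel_left₀ h0]
      have h1 := (eul_char (S := S) (cls := cls) χ).lead_rate s₀ (hLm χ) (hLp χ) hγ h3
      simp only [cW_eq] at h1
      refine (h1.const_mul_left (u χ)).congr_left fun X => ?_
      field_simp
  have hdz : ∀ (s : ℂ) (χ : G →* ℂˣ), dft (fun g => ζ g s - ζ (R * g) s) χ = u χ * L χ s :=
    fun s χ => dft_shift (fun g => ζ g s) R χ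
  have hdX : ∀ (X : ℝ) (χ : G →* ℂˣ), dft (fun g => dftinv (fun χ => exp (cW S cls s₀ χ γ X)) g -
      dftinv (fun χ => exp (cW S cls s₀ χ γ X)) (R * g)) χ = u χ * exp (cW S cls s₀ χ γ X) := by
    intro X χ
    rw [dft_shift (fun g => dftinv (fun χ => exp (cW S cls s₀ χ γ X)) g) R χ]
    have := congrFun (dft_dftinv (G := G) fun χ => exp (cW S cls s₀ χ γ X)) χ
    rw [this]
  have toL : (∀ g, Tendsto (fun s : ℂ => (ζ g s - ζ (R * g) s) / (s - s₀) ^ r) (𝓝[≠] (s₀ : ℂ))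
      (𝓝 (z g))) → ∀ χ, Tendsto (fun s : ℂ => u χ * L χ s / (s - s₀) ^ r) (𝓝[≠] (s₀ : ℂ))
      (𝓝 (dft z χ)) := by
    intro h χ
    refine (dft_tendsto (f := fun s g => (ζ g s - ζ (R * g) s) / (s - s₀) ^ r) h χ).congr fun s => ?_
    have h1 : (fun g => (ζ g s - ζ (R * g) s) / (s - (s₀ : ℂ)) ^ r) =
        fun g => ((s - (s₀ : ℂ)) ^ r)⁻¹ * (ζ g s - ζ (R * g) s) := by
      funext g
      rw [div_eq_inv_mul]
    rw [h1, dft_mul, hdz, div_eq_inv_mul]
  refine ⟨⟨fun h g => ?_, fun h g => ?_⟩, fun h g => ?_⟩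
  · have h1 := dftinv_tendsto (fun χ => (key χ _).1 (toL h χ)) g
    rw [dftinv_mul, dftinv_dft] at h1
    refine h1.congr fun X => ?_
    rw [dftinv_mul]
    congr 1
    have h2 : (fun χ => u χ * exp (cW S cls s₀ χ γ X)) =
        dft (fun g => dftinv (fun χ => exp (cW S cls s₀ χ γ X)) g -
          dftinv (fun χ => exp (cW S cls s₀ χ γ X)) (R * g)) := funext fun χ => (hdX X χ).symm
    rw [h2, dftinv_dft]
  · have h1 : ∀ χ, Tendsto (fun s : ℂ => u χ * L χ s / (s - s₀) ^ r) (𝓝[≠] (s₀ : ℂ))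
        (𝓝 (dft z χ)) := by
      intro χ
      rw [key]
      have h2 := dft_tendsto h χ
      rw [dft_mul] at h2
      refine h2.congr fun X => ?_
      rw [dft_mul, hdX]
    have h2 := dftinv_tendsto h1 g
    rw [dftinv_dft] at h2
    refine h2.congr fun s => ?_
    have h3 : (fun χ => u χ * L χ s / (s - (s₀ : ℂ)) ^ r) =
        dft (fun g => ((s - (s₀ : ℂ)) ^ r)⁻¹ * (ζ g s - ζ (R * g) s)) := by
      funext χ
      rw [dft_mul, hdz, div_eq_inv_mul]
    rw [h3, dftinv_dft, div_eq_inv_mul]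
  · have h1 : ∀ X : ℝ, (Real.log X : ℂ) ^ r *
        (dftinv (fun χ => exp (cW S cls s₀ χ γ X)) g -
          dftinv (fun χ => exp (cW S cls s₀ χ γ X)) (R * g)) -
        exp (r * Pool.Agent.W187.UR.Lam γ) * z g =
        ∑ χ : G →* ℂˣ, (((χ g⁻¹ : ℂˣ) : ℂ) / Nat.card G) * ((Real.log X : ℂ) ^ r *
          (u χ * exp (cW S cls s₀ χ γ X)) - exp (r * Pool.Agent.W187.UR.Lam γ) * dft z χ) := by
      intro X
      have h2 : z g = dftinv (dft z) g := by rw [dftinv_dft]
      have h3 : dftinv (fun χ => exp (cW S cls s₀ χ γ X)) g -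
          dftinv (fun χ => exp (cW S cls s₀ χ γ X)) (R * g) =
          dftinv (fun χ => u χ * exp (cW S cls s₀ χ γ X)) g := by
        have h4 : (fun χ => u χ * exp (cW S cls s₀ χ γ X)) =
            dft (fun g => dftinv (fun χ => exp (cW S cls s₀ χ γ X)) g -
              dftinv (fun χ => exp (cW S cls s₀ χ γ X)) (R * g)) := funext fun χ => (hdX X χ).symm
        rw [h4, dftinv_dft]
      rw [h2, h3]
      simp only [dftinv, finsum_eq_sum_of_fintype]
      simp only [Finset.sum_div, Finset.mul_sum]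
      rw [← Finset.sum_sub_distrib]
      refine Finset.sum_congr rfl fun χ _ => ?_
      ring
    refine Asymptotics.IsBigO.congr_left ?_ fun X => (h1 X).symm
    refine Asymptotics.IsBigO.fun_sum fun χ _ => ?_
    exact (key2 χ _ (toL h χ)).const_mul_left _

end Pool.Agent.V11288.LZ
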