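import Pool.Agent.V11288.LZ.Fin
import Mathlib.GroupTheory.FiniteAbelian.Duality

/-! Limits of `L(s)/(s - s₀)^r`, zero allowed, with a rate; characters of finite abelian groups. -/

set_option autoImplicit false

namespace Pool.Agent.V11288.LZ

open Complex Filter Topology Set
open Pool.Agent.W189.ML Pool.Agent.W189.LC Pool.Agent.W187.UR Pool.Agent.V11290.UL
open Pool.Agent.V11288.QU

variable {P : Type} {n : ℕ} {e θ : ℝ} {q : P → ℝ} {A : P → Matrix (Fin n) (Fin n) ℂ}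

/-- the main asymptotic formula, exponentiated -/
theorem Eul.exp_eq [Countable P] (E : Eul e θ q A) {L : ℂ → ℂ} (s₀ : ℝ)
    (hL : ∀ x ∈ Icc s₀ (e + θ), MeromorphicAt L (x : ℂ))
    (hp : ∀ s : ℂ, e + θ < s.re → L s = ∏' v, ((1 - (q v : ℂ) ^ (-s) • A v).det)⁻¹) {γ : ℝ}
    (hγ : Real.pi / 2 < γ) :
    ∃ (m : ℤ) (r₀ : ℂ) (R : ℝ → ℂ), meromorphicOrderAt L (s₀ : ℂ) = m ∧
      Tendsto (fun s : ℂ => L s / (s - s₀) ^ m) (𝓝[≠] (s₀ : ℂ)) (𝓝 (exp r₀)) ∧
      R =O[atTop] (fun X : ℝ => 1 / Real.log X) ∧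
      ∀ᶠ X : ℝ in atTop, ∀ r : ℤ, (Real.log X : ℂ) ^ r * exp (tot q A s₀ γ X) =
        (Real.log X : ℂ) ^ (r - m) * (exp (m * Lam γ) * exp r₀ * exp (R X)) := by
  obtain ⟨-, ⟨m, r₀, h1, h2, h3⟩, -, -⟩ := E.final' s₀ hL hp hγ
  refine ⟨m, r₀, fun X => tot q A s₀ γ X + m * (Real.log (Real.log X) - Lam γ) - r₀, h1, h2, h3, ?_⟩
  filter_upwards [eventually_gt_atTop (Real.exp 1)] with X hX r
  have hl : 1 < Real.log X := by
    rw [Real.lt_log_iff_exp_lt ((Real.exp_pos 1).trans hX)]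
    exact hX
  have hl0 : (Real.log X : ℂ) ≠ 0 := by
    exact_mod_cast (by linarith : Real.log X ≠ 0)
  have h4 : exp ((m : ℂ) * Real.log (Real.log X)) = (Real.log X : ℂ) ^ m := by
    rw [Complex.exp_int_mul, ← Complex.ofReal_exp, Real.exp_log (by linarith)]
  have h5 : exp (m * Lam γ) * exp r₀ *
      exp (tot q A s₀ γ X + m * (Real.log (Real.log X) - Lam γ) - r₀) =
      exp ((m : ℂ) * Real.log (Real.log X)) * exp (tot q A s₀ γ X) := by
    rw [← Complex.exp_add, ← Complex.exp_add, ← Complex.exp_add]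
    congr 1
    ring
  rw [h5, h4, ← mul_assoc, ← zpow_add₀ hl0]
  congr 2
  ring

/-- a finite limit of `L(s)/(s - s₀)^r` -/
theorem limit_cases {L : ℂ → ℂ} {s₀ : ℝ} {m r : ℤ} {r₀ B : ℂ}
    (h2 : Tendsto (fun s : ℂ => L s / (s - s₀) ^ m) (𝓝[≠] (s₀ : ℂ)) (𝓝 (exp r₀)))
    (h : Tendsto (fun s : ℂ => L s / (s - s₀) ^ r) (𝓝[≠] (s₀ : ℂ)) (𝓝 B)) :
    (m = r ∧ B = exp r₀) ∨ (r < m ∧ B = 0) := by
  have hsub : Tendsto (fun s : ℂ => s - s₀) (𝓝[≠] (s₀ : ℂ)) (𝓝[≠] 0) := by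
    refine tendsto_nhdsWithin_iff.2 ⟨?_, ?_⟩
    · have : Tendsto (fun s : ℂ => s - s₀) (𝓝 (s₀ : ℂ)) (𝓝 ((s₀ : ℂ) - s₀)) :=
        (continuous_id.sub continuous_const).tendsto _
      rw [sub_self] at this
      exact this.mono_left nhdsWithin_le_nhds
    · filter_upwards [self_mem_nhdsWithin] with s hs
      exact sub_ne_zero.2 hs
  rcases lt_trichotomy m r with hmr | hmr | hmr
  · exfalso
    have h3 : Tendsto (fun s : ℂ => (s - s₀) ^ (r - m) * (L s / (s - s₀) ^ r)) (𝓝[≠] (s₀ : ℂ))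
        (𝓝 (0 * B)) := by
      refine Tendsto.mul ?_ h
      have h4 : Tendsto (fun z : ℂ => z ^ (r - m).toNat) (𝓝[≠] 0) (𝓝 0) := by
        have h5 : Tendsto (fun z : ℂ => z ^ (r - m).toNat) (𝓝 0) (𝓝 ((0 : ℂ) ^ (r - m).toNat)) :=
          (continuous_pow _).tendsto _
        rw [zero_pow (by omega)] at h5
        exact h5.mono_left nhdsWithin_le_nhds
      refine (h4.comp hsub).congr fun s => ?_
      simp only [Function.comp]
      rw [← zpow_natCast, Int.toNat_of_nonneg (by omega)]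
    rw [zero_mul] at h3
    have h4 : exp r₀ = 0 := by
      refine tendsto_nhds_unique h2 (h3.congr' ?_)
      filter_upwards [self_mem_nhdsWithin] with s hs
      have hs' : s - (s₀ : ℂ) ≠ 0 := sub_ne_zero.2 hs
      rw [mul_div_assoc', mul_comm, mul_div_assoc, ← zpow_sub₀ hs', div_eq_mul_inv, ← zpow_neg]
      congr 2
      ring
    exact Complex.exp_ne_zero _ h4
  · subst hmr
    exact Or.inl ⟨rfl, tendsto_nhds_unique h h2⟩
  · refine Or.inr ⟨hmr, ?_⟩
    have h3 : Tendsto (fun s : ℂ => (s - s₀) ^ (m - r) * (L s / (s - s₀) ^ m)) (𝓝[≠] (s₀ : ℂ))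
        (𝓝 (0 * exp r₀)) := by
      refine Tendsto.mul ?_ h2
      have h4 : Tendsto (fun z : ℂ => z ^ (m - r).toNat) (𝓝[≠] 0) (𝓝 0) := by
        have h5 : Tendsto (fun z : ℂ => z ^ (m - r).toNat) (𝓝 0) (𝓝 ((0 : ℂ) ^ (m - r).toNat)) :=
          (continuous_pow _).tendsto _
        rw [zero_pow (by omega)] at h5
        exact h5.mono_left nhdsWithin_le_nhds
      refine (h4.comp hsub).congr fun s => ?_
      simp only [Function.comp]
      rw [← zpow_natCast, Int.toNat_of_nonneg (by omega)]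
    rw [zero_mul] at h3
    refine tendsto_nhds_unique h (h3.congr' ?_)
    filter_upwards [self_mem_nhdsWithin] with s hs
    have hs' : s - (s₀ : ℂ) ≠ 0 := sub_ne_zero.2 hs
    rw [mul_div_assoc', mul_comm, mul_div_assoc, ← zpow_sub₀ hs', div_eq_mul_inv, ← zpow_neg]
    congr 2
    ring

/-- `L(s)/(s - s₀)^r → 0` if the order is larger than `r` -/
theorem limit_zero {L : ℂ → ℂ} {s₀ : ℝ} {m r : ℤ} {r₀ : ℂ}
    (h2 : Tendsto (fun s : ℂ => L s / (s - s₀) ^ m) (𝓝[≠] (s₀ : ℂ)) (𝓝 (exp r₀))) (hmr : r < m) :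
    Tendsto (fun s : ℂ => L s / (s - s₀) ^ r) (𝓝[≠] (s₀ : ℂ)) (𝓝 0) := by
  have hsub : Tendsto (fun s : ℂ => s - s₀) (𝓝[≠] (s₀ : ℂ)) (𝓝[≠] 0) := by
    refine tendsto_nhdsWithin_iff.2 ⟨?_, ?_⟩
    · have : Tendsto (fun s : ℂ => s - s₀) (𝓝 (s₀ : ℂ)) (𝓝 ((s₀ : ℂ) - s₀)) :=
        (continuous_id.sub continuous_const).tendsto _
      rw [sub_self] at this
      exact this.mono_left nhdsWithin_le_nhds
    · filter_upwards [self_mem_nhdsWithin] with s hs
      exact sub_ne_zero.2 hs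
  have h3 : Tendsto (fun s : ℂ => (s - s₀) ^ (m - r) * (L s / (s - s₀) ^ m)) (𝓝[≠] (s₀ : ℂ))
      (𝓝 (0 * exp r₀)) := by
    refine Tendsto.mul ?_ h2
    have h4 : Tendsto (fun z : ℂ => z ^ (m - r).toNat) (𝓝[≠] 0) (𝓝 0) := by
      have h5 : Tendsto (fun z : ℂ => z ^ (m - r).toNat) (𝓝 0) (𝓝 ((0 : ℂ) ^ (m - r).toNat)) :=
        (continuous_pow _).tendsto _
      rw [zero_pow (by omega)] at h5
      exact h5.mono_left nhdsWithin_le_nhds
    refine (h4.comp hsub).congr fun s => ?_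
    simp only [Function.comp]
    rw [← zpow_natCast, Int.toNat_of_nonneg (by omega)]
  rw [zero_mul] at h3
  refine h3.congr' ?_
  filter_upwards [self_mem_nhdsWithin] with s hs
  have hs' : s - (s₀ : ℂ) ≠ 0 := sub_ne_zero.2 hs
  rw [mul_div_assoc', mul_comm, mul_div_assoc, ← zpow_sub₀ hs', div_eq_mul_inv, ← zpow_neg]
  congr 2
  ring

/-- **rate of convergence of the leading terms** (`B = 0` allowed) -/
theorem Eul.lead_rate [Countable P] (E : Eul e θ q A) {L : ℂ → ℂ} (s₀ : ℝ)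
    (hL : ∀ x ∈ Icc s₀ (e + θ), MeromorphicAt L (x : ℂ))
    (hp : ∀ s : ℂ, e + θ < s.re → L s = ∏' v, ((1 - (q v : ℂ) ^ (-s) • A v).det)⁻¹) {γ : ℝ}
    (hγ : Real.pi / 2 < γ) {r : ℤ} {B : ℂ}
    (h : Tendsto (fun s : ℂ => L s / (s - s₀) ^ r) (𝓝[≠] (s₀ : ℂ)) (𝓝 B)) :
    (fun X : ℝ => (Real.log X : ℂ) ^ r * exp (tot q A s₀ γ X) - exp (r * Lam γ) * B) =O[atTop]
      (fun X : ℝ => 1 / Real.log X) := by
  obtain ⟨m, r₀, R, -, h2, h3, h4⟩ := E.exp_eq s₀ hL hp hγ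
  have hR0 : Tendsto R atTop (𝓝 0) :=
    h3.trans_tendsto (tendsto_const_nhds.div_atTop Real.tendsto_log_atTop)
  obtain ⟨C, hC⟩ := h3.bound
  rcases limit_cases h2 h with ⟨rfl, rfl⟩ | ⟨hmr, rfl⟩
  · refine Asymptotics.IsBigO.of_bound (‖exp (m * Lam γ) * exp r₀‖ * (2 * |C|)) ?_
    filter_upwards [hC, h4, (hR0.norm.eventually (eventually_le_nhds (b := (1 : ℝ)) (by simp))),
      eventually_gt_atTop 1] with X hX h5 h6 hX1
    have h7 : (Real.log X : ℂ) ^ m * exp (tot q A s₀ γ X) - exp (m * Lam γ) * exp r₀ =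
        (exp (m * Lam γ) * exp r₀) * (exp (R X) - 1) := by
      rw [h5, sub_self, zpow_zero]
      ring
    rw [h7, norm_mul]
    have h8 := Complex.norm_exp_sub_one_le h6
    have h9 : ‖R X‖ ≤ |C| * ‖1 / Real.log X‖ := by
      refine hX.trans ?_
      gcongr
      exact le_abs_self C
    calc ‖exp (m * Lam γ) * exp r₀‖ * ‖exp (R X) - 1‖
        ≤ ‖exp (m * Lam γ) * exp r₀‖ * (2 * (|C| * ‖1 / Real.log X‖)) := by
          gcongr
          exact h8.trans (by gcongr)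
      _ = _ := by ring
  · refine Asymptotics.IsBigO.of_bound (‖exp (m * Lam γ) * exp r₀‖ * Real.exp 1) ?_
    filter_upwards [h4, (hR0.norm.eventually (eventually_le_nhds (b := (1 : ℝ)) (by simp))),
      eventually_ge_atTop (Real.exp 1)] with X h5 h6 hX1
    have hl : 1 ≤ Real.log X := by
      rw [Real.le_log_iff_exp_le ((Real.exp_pos 1).trans_le hX1)]
      exact hX1
    rw [mul_zero, sub_zero, h5, norm_mul, norm_mul (exp (m * Lam γ) * exp r₀), norm_zpow,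
      Complex.norm_real, Real.norm_eq_abs, abs_of_nonneg (by linarith : 0 ≤ Real.log X),
      Real.norm_of_nonneg (by positivity : 0 ≤ 1 / Real.log X)]
    have h7 : (Real.log X) ^ (r - m) ≤ 1 / Real.log X := by
      rw [one_div, ← zpow_neg_one]
      exact zpow_le_zpow_right₀ hl (by omega)
    have h8 : ‖exp (R X)‖ ≤ Real.exp 1 := by
      rw [Complex.norm_exp]
      exact Real.exp_le_exp.2 ((Complex.re_le_norm _).trans h6)
    calc Real.log X ^ (r - m) * (‖exp (m * Lam γ) * exp r₀‖ * ‖exp (R X)‖)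
        ≤ (1 / Real.log X) * (‖exp (m * Lam γ) * exp r₀‖ * Real.exp 1) := by
          gcongr
      _ = _ := by ring

/-- **leading terms as limits** (`B = 0` allowed) -/
theorem Eul.lead_iff [Countable P] (E : Eul e θ q A) {L : ℂ → ℂ} (s₀ : ℝ)
    (hL : ∀ x ∈ Icc s₀ (e + θ), MeromorphicAt L (x : ℂ))
    (hp : ∀ s : ℂ, e + θ < s.re → L s = ∏' v, ((1 - (q v : ℂ) ^ (-s) • A v).det)⁻¹) {γ : ℝ}
    (hγ : Real.pi / 2 < γ) (r : ℤ) (B : ℂ) :
    Tendsto (fun s : ℂ => L s / (s - s₀) ^ r) (𝓝[≠] (s₀ : ℂ)) (𝓝 B) ↔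
      Tendsto (fun X : ℝ => (Real.log X : ℂ) ^ r * exp (tot q A s₀ γ X)) atTop
        (𝓝 (exp (r * Lam γ) * B)) := by
  constructor
  · intro h
    have h1 := (E.lead_rate s₀ hL hp hγ h).trans_tendsto
      (tendsto_const_nhds.div_atTop Real.tendsto_log_atTop)
    have h2 := h1.add_const (exp (r * Lam γ) * B)
    simpa using h2
  · intro h
    rcases eq_or_ne B 0 with rfl | hB
    · obtain ⟨m, r₀, R, -, h2, h3, h4⟩ := E.exp_eq s₀ hL hp hγ
      have hR0 : Tendsto R atTop (𝓝 0) :=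
        h3.trans_tendsto (tendsto_const_nhds.div_atTop Real.tendsto_log_atTop)
      refine limit_zero h2 ?_
      by_contra hmr
      rw [not_lt] at hmr
      rw [mul_zero] at h
      have h5 : Tendsto (fun X : ℝ => exp (m * Lam γ) * exp r₀ * exp (R X)) atTop
          (𝓝 (exp (m * Lam γ) * exp r₀ * exp 0)) :=
        tendsto_const_nhds.mul ((Complex.continuous_exp.tendsto 0).comp hR0)
      have h6 : Tendsto (fun X : ℝ => exp (m * Lam γ) * exp r₀ * exp (R X)) atTop (𝓝 0) := by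
        rw [tendsto_zero_iff_norm_tendsto_zero]
        refine squeeze_zero' (Eventually.of_forall fun _ => norm_nonneg _) ?_
          (tendsto_zero_iff_norm_tendsto_zero.1 h)
        filter_upwards [h4, eventually_ge_atTop (Real.exp 1)] with X h7 hX1
        have hl : 1 ≤ Real.log X := by
          rw [Real.le_log_iff_exp_le ((Real.exp_pos 1).trans_le hX1)]
          exact hX1
        rw [h7, norm_mul ((Real.log X : ℂ) ^ (r - m)), norm_zpow, Complex.norm_real,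
          Real.norm_eq_abs, abs_of_nonneg (by linarith : 0 ≤ Real.log X)]
        have h8 : 1 ≤ (Real.log X) ^ (r - m) := one_le_zpow₀ hl (by omega)
        exact le_mul_of_one_le_left (norm_nonneg _) h8
      have h7 := tendsto_nhds_unique h5 h6
      rw [Complex.exp_zero, mul_one] at h7
      exact (mul_ne_zero (Complex.exp_ne_zero _) (Complex.exp_ne_zero _)) h7
    · exact ((E.final' s₀ hL hp hγ).2.2.1 r B hB).2 h

section chars

variable {G : Type} [CommGroup G] [Finite G]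

instance : Finite (G →* ℂˣ) := by
  obtain ⟨e⟩ := CommGroup.monoidHom_mulEquiv_of_hasEnoughRootsOfUnity G ℂ
  exact Finite.of_equiv G e.symm.toEquiv

theorem card_chars : Nat.card (G →* ℂˣ) = Nat.card G :=
  CommGroup.card_monoidHom_of_hasEnoughRootsOfUnity G ℂ

open Classical in
/-- orthogonality -/
theorem sum_chars (g : G) : ∑ᶠ χ : G →* ℂˣ, ((χ g : ℂˣ) : ℂ) = if g = 1 then (Nat.card G : ℂ) else 0 := by
  have : Fintype (G →* ℂˣ) := Fintype.ofFinite _
  rw [finsum_eq_sum_of_fintype]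
  split_ifs with h
  · subst h
    simp only [map_one, Units.val_one, Finset.sum_const, Finset.card_univ, nsmul_eq_mul, mul_one]
    rw [← Nat.card_eq_fintype_card, card_chars]
  · obtain ⟨ψ, hψ⟩ := CommGroup.exists_apply_ne_one_of_hasEnoughRootsOfUnity G ℂ h
    have h1 : ∑ χ : G →* ℂˣ, ((χ g : ℂˣ) : ℂ) = (ψ g : ℂ) * ∑ χ : G →* ℂˣ, ((χ g : ℂˣ) : ℂ) := by
      rw [Finset.mul_sum]
      refine (Fintype.sum_equiv (Equiv.mulLeft ψ) _ _ fun χ => ?_).symm
      simp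
    have h2 : ((ψ g : ℂ) - 1) * ∑ χ : G →* ℂˣ, ((χ g : ℂˣ) : ℂ) = 0 := by
      rw [sub_mul, ← h1]
      ring
    rcases mul_eq_zero.1 h2 with h3 | h3
    · exact absurd (Units.ext (by simpa using sub_eq_zero.1 h3)) hψ
    · exact h3

end chars

end Pool.Agent.V11288.LZ
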