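import Pool.Agent.V11288.LZ.Gen
import Pool.Agent.V11288.QU.Sat

/-!
# Euler products given by matrices: the leading terms at all real points
-/

set_option autoImplicit false

namespace Pool.Agent.V11288.LZ

open Complex Filter Topology Set
open Pool.Agent.W189.ML Pool.Agent.W189.LC Pool.Agent.W187.UR Pool.Agent.V11290.UL
open Pool.Agent.V11288.QU

/-- a system of primes of dimension `e` with matrices `A v` (local Frobenius), eigenvalues at most
`q_v^θ` -/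
structure Eul {P : Type} {n : ℕ} (e θ : ℝ) (q : P → ℝ) (A : P → Matrix (Fin n) (Fin n) ℂ) : Prop where
  he : 1 ≤ e
  two_le : ∀ v, 2 ≤ q v
  sum : ∀ x : ℝ, e < x → Summable fun v => q v ^ (-x)
  bound : ∀ v, ∀ z ∈ (A v).charpoly.roots, ‖z‖ ≤ q v ^ θ

/-- the sum of the `k`-th powers of the eigenvalues -/
noncomputable def psum {n : ℕ} (M : Matrix (Fin n) (Fin n) ℂ) (k : ℕ) : ℂ :=
  (M.charpoly.roots.map fun z => z ^ k).sum

/-- the coefficients -/
noncomputable def cE {P : Type} {n : ℕ} (A : P → Matrix (Fin n) (Fin n) ℂ) (i : P × ℕ) : ℂ :=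
  psum (A i.1) (i.2 + 1) / ((i.2 : ℂ) + 1)

/-- the frequencies -/
noncomputable def lamE {P : Type} (q : P → ℝ) (i : P × ℕ) : ℝ := ((i.2 : ℝ) + 1) * Real.log (q i.1)

variable {P : Type} {n : ℕ} {e θ : ℝ} {q : P → ℝ} {A : P → Matrix (Fin n) (Fin n) ℂ}

theorem psum_enum (M : Matrix (Fin n) (Fin n) ℂ) (k : ℕ) : psum M k = ∑ j, App.enum M j ^ k :=
  App.enum_sum M fun z => z ^ k

theorem Eul.q_pos (E : Eul e θ q A) (v : P) : 0 < q v := by linarith [E.two_le v]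

theorem Eul.lam_nonneg (E : Eul e θ q A) (i : P × ℕ) : 0 ≤ lamE q i := by
  unfold lamE
  have := Real.log_nonneg (by linarith [E.two_le i.1] : 1 ≤ q i.1)
  positivity

theorem Eul.enum_le (E : Eul e θ q A) (v : P) (j : Fin n) : ‖App.enum (A v) j‖ ≤ q v ^ θ :=
  E.bound v _ (App.enum_mem _ _)

theorem Eul.exp_lam (E : Eul e θ q A) (s : ℂ) (i : P × ℕ) :
    exp (-(s * lamE q i)) = ((q i.1 : ℂ) ^ (-s)) ^ (i.2 + 1) := by
  have h0 := E.q_pos i.1
  have hc : (q i.1 : ℂ) ≠ 0 := by exact_mod_cast h0.ne'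
  rw [Complex.cpow_def_of_ne_zero hc, ← Complex.ofReal_log h0.le, ← Complex.exp_nat_mul]
  congr 1
  unfold lamE
  push_cast
  ring

theorem Eul.norm_q (E : Eul e θ q A) (s : ℂ) (v : P) : ‖(q v : ℂ) ^ (-s)‖ = q v ^ (-s.re) := by
  rw [Complex.norm_cpow_eq_rpow_re_of_pos (E.q_pos v), Complex.neg_re]

theorem Eul.cE_le (E : Eul e θ q A) (i : P × ℕ) : ‖cE A i‖ ≤ n * (q i.1 ^ θ) ^ (i.2 + 1) := by
  unfold cE
  have h4 : (0 : ℝ) ≤ i.2 := i.2.cast_nonneg
  have h5 : ‖((i.2 : ℂ) + 1)‖ = (i.2 : ℝ) + 1 := by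
    have : ((i.2 : ℂ) + 1) = (((i.2 : ℝ) + 1 : ℝ) : ℂ) := by push_cast; rfl
    rw [this, Complex.norm_real, Real.norm_of_nonneg (by positivity)]
  rw [norm_div, h5]
  refine (div_le_self (norm_nonneg _) (by linarith)).trans ?_
  rw [psum_enum]
  refine (norm_sum_le _ _).trans ?_
  calc ∑ j, ‖App.enum (A i.1) j ^ (i.2 + 1)‖ ≤ ∑ _j : Fin n, (q i.1 ^ θ) ^ (i.2 + 1) := by
        refine Finset.sum_le_sum fun j _ => ?_
        rw [norm_pow]
        exact pow_le_pow_left₀ (norm_nonneg _) (E.enum_le i.1 j) _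
    _ = _ := by rw [Finset.sum_const, Finset.card_univ, Fintype.card_fin, nsmul_eq_mul]

theorem Eul.summ (E : Eul e θ q A) {x : ℝ} (hx : e + θ < x) :
    Summable fun i : P × ℕ => ‖cE A i‖ * Real.exp (-(x * lamE q i)) := by
  have h1 : Summable fun v : P => (n : ℝ) * q v ^ (-(x - θ)) :=
    (E.sum _ (by linarith)).mul_left _
  have h2 : Summable fun k : ℕ => (1 / 2 : ℝ) ^ k := summable_geometric_two
  refine Summable.of_nonneg_of_le (fun i => by positivity) (fun i => ?_)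
    (h1.mul_of_nonneg h2 (fun v => by
      have := (Real.rpow_pos_of_pos (E.q_pos v) (-(x - θ))).le
      positivity) (fun k => by positivity))
  have h3 := E.two_le i.1
  have h0 := E.q_pos i.1
  have e0 : Real.exp (-(x * lamE q i)) = (q i.1 ^ (-x)) ^ (i.2 + 1) := by
    rw [← Real.rpow_natCast, ← Real.rpow_mul h0.le, Real.rpow_def_of_pos h0]
    congr 1
    unfold lamE
    push_cast
    ring
  have hp1 : (0 : ℝ) ≤ q i.1 ^ θ := (Real.rpow_pos_of_pos h0 _).le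
  have hp2 : (0 : ℝ) ≤ q i.1 ^ (-x) := (Real.rpow_pos_of_pos h0 _).le
  have hp3 : (0 : ℝ) ≤ q i.1 ^ (-(x - θ)) := (Real.rpow_pos_of_pos h0 _).le
  rw [e0]
  have e1 : (q i.1 ^ θ) ^ (i.2 + 1) * (q i.1 ^ (-x)) ^ (i.2 + 1) =
      q i.1 ^ (-(x - θ)) * (q i.1 ^ (-(x - θ))) ^ i.2 := by
    rw [← mul_pow, ← Real.rpow_add h0, pow_succ']
    congr 2
    · congr 1
      ring
    · congr 1
      ring
  have e2 : q i.1 ^ (-(x - θ)) ≤ 1 / 2 := by
    calc q i.1 ^ (-(x - θ)) ≤ q i.1 ^ (-(1 : ℝ)) :=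
          Real.rpow_le_rpow_of_exponent_le (by linarith) (by linarith [E.he])
      _ = (q i.1)⁻¹ := Real.rpow_neg_one _
      _ ≤ 1 / 2 := by
        rw [one_div]
        gcongr
  calc ‖cE A i‖ * (q i.1 ^ (-x)) ^ (i.2 + 1) ≤
        n * (q i.1 ^ θ) ^ (i.2 + 1) * (q i.1 ^ (-x)) ^ (i.2 + 1) := by
        gcongr
        exact E.cE_le i
    _ = n * (q i.1 ^ (-(x - θ)) * (q i.1 ^ (-(x - θ))) ^ i.2) := by
        rw [mul_assoc, e1]
    _ ≤ n * (q i.1 ^ (-(x - θ)) * (1 / 2) ^ i.2) := by gcongr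
    _ = _ := by ring

theorem Eul.csumm (E : Eul e θ q A) {s : ℂ} (hs : e + θ < s.re) :
    Summable fun i : P × ℕ => cE A i * exp (-(s * lamE q i)) := by
  refine Summable.of_norm_bounded (E.summ hs) fun i => ?_
  rw [norm_mul, Complex.norm_exp]
  have : (-(s * lamE q i)).re = -(s.re * lamE q i) := by simp
  rw [this]

/-- the Euler product -/
theorem Eul.hasProd (E : Eul e θ q A) {s : ℂ} (hs : e + θ < s.re) :
    HasProd (fun v : P => ((1 - (q v : ℂ) ^ (-s) • A v).det)⁻¹)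
      (exp (∑' i : P × ℕ, cE A i * exp (-(s * lamE q i)))) := by
  have h1 := (E.csumm hs).hasSum
  have hlt : ∀ (v : P) (j : Fin n), ‖App.enum (A v) j * (q v : ℂ) ^ (-s)‖ < 1 := by
    intro v j
    have h3 := E.two_le v
    have h0 := E.q_pos v
    rw [norm_mul, E.norm_q]
    calc ‖App.enum (A v) j‖ * q v ^ (-s.re) ≤ q v ^ θ * q v ^ (-s.re) := by
          gcongr
          exact E.enum_le v j
      _ = q v ^ (θ - s.re) := by
        rw [← Real.rpow_add h0]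
        congr 1
      _ < 1 := Real.rpow_lt_one_of_one_lt_of_neg (by linarith) (by linarith [E.he])
  have h2 : ∀ v : P, HasSum (fun k : ℕ => cE A (v, k) * exp (-(s * lamE q (v, k))))
      (∑ j, -Complex.log (1 - App.enum (A v) j * (q v : ℂ) ^ (-s))) := by
    intro v
    have h3 : ∀ j : Fin n, HasSum (fun k : ℕ => (App.enum (A v) j * (q v : ℂ) ^ (-s)) ^ (k + 1) /
        ((k + 1 : ℕ) : ℂ)) (-Complex.log (1 - App.enum (A v) j * (q v : ℂ) ^ (-s))) := by
      intro j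
      have h4 := (hasSum_nat_add_iff' 1).2 (Complex.hasSum_taylorSeries_neg_log (hlt v j))
      simpa only [Finset.range_one, Finset.sum_singleton, pow_zero, Nat.cast_zero, div_zero, sub_zero]
        using h4
    have h5 := hasSum_sum (s := Finset.univ) fun j _ => h3 j
    have e : (fun k : ℕ => cE A (v, k) * exp (-(s * lamE q (v, k)))) = fun k : ℕ =>
        ∑ j, (App.enum (A v) j * (q v : ℂ) ^ (-s)) ^ (k + 1) / ((k + 1 : ℕ) : ℂ) := by
      funext k
      rw [E.exp_lam]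
      unfold cE
      rw [psum_enum, ← Finset.sum_div, Finset.sum_congr rfl fun j _ => mul_pow _ _ _,
        ← Finset.sum_mul]
      push_cast
      ring
    rw [e]
    exact h5
  have h5 := (h1.prod_fiberwise h2).cexp
  have e : (fun v : P => ((1 - (q v : ℂ) ^ (-s) • A v).det)⁻¹) =
      exp ∘ fun v : P => ∑ j, -Complex.log (1 - App.enum (A v) j * (q v : ℂ) ^ (-s)) := by
    funext v
    have h3 := E.two_le v
    have hx : (q v : ℂ) ^ (-s) ≠ 0 := by
      rw [← norm_pos_iff, E.norm_q]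
      exact Real.rpow_pos_of_pos (E.q_pos v) _
    simp only [Function.comp_apply]
    rw [Sat.det_eq _ hx, Complex.exp_sum, ← Finset.prod_inv_distrib]
    refine Finset.prod_congr rfl fun j _ => ?_
    have hne : 1 - App.enum (A v) j * (q v : ℂ) ^ (-s) ≠ 0 := by
      intro h
      have h6 : App.enum (A v) j * (q v : ℂ) ^ (-s) = 1 := (sub_eq_zero.1 h).symm
      have h7 := hlt v j
      rw [h6, norm_one] at h7
      exact lt_irrefl _ h7
    rw [Complex.exp_neg, Complex.exp_log hne]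
  rw [e]
  exact h5

/-- the weighted sum over the prime powers -/
noncomputable def wE {P : Type} {n : ℕ} (q : P → ℝ) (A : P → Matrix (Fin n) (Fin n) ℂ) (s₀ γ X : ℝ) : ℂ :=
  ∑' i : P × ℕ, psum (A i.1) (i.2 + 1) / (((i.2 : ℂ) + 1) * ((q i.1 ^ s₀ : ℝ) : ℂ) ^ (i.2 + 1)) *
    (exp (γ * (((i.2 : ℂ) + 1) * Real.log (q i.1) / Real.log X) * I) /
      Real.Gamma (1 + ((i.2 : ℝ) + 1) * Real.log (q i.1) / Real.log X))

theorem Eul.term_eq (E : Eul e θ q A) (s₀ γ X : ℝ) (i : P × ℕ) :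
    psum (A i.1) (i.2 + 1) / (((i.2 : ℂ) + 1) * ((q i.1 ^ s₀ : ℝ) : ℂ) ^ (i.2 + 1)) *
    (exp (γ * (((i.2 : ℂ) + 1) * Real.log (q i.1) / Real.log X) * I) /
      Real.Gamma (1 + ((i.2 : ℝ) + 1) * Real.log (q i.1) / Real.log X)) =
    cE A i * exp (-(s₀ * lamE q i : ℝ)) *
      (exp ((γ * (lamE q i / Real.log X) : ℝ) * I) * (om (lamE q i / Real.log X) : ℂ)) := by
  have h0 := E.q_pos i.1
  have h1 : exp (-(s₀ * lamE q i : ℝ)) = (((q i.1 ^ s₀ : ℝ) : ℂ) ^ (i.2 + 1))⁻¹ := by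
    rw [Complex.exp_neg]
    congr 1
    rw [← Complex.ofReal_exp, ← Complex.ofReal_pow]
    congr 1
    rw [← Real.rpow_natCast, ← Real.rpow_mul h0.le, Real.rpow_def_of_pos h0]
    congr 1
    unfold lamE
    push_cast
    ring
  rw [h1]
  unfold cE om lamE
  push_cast
  rw [div_mul_eq_div_div, div_eq_mul_inv (psum (A i.1) (i.2 + 1) / ((i.2 : ℂ) + 1)),
    div_eq_mul_inv (exp (γ * (((i.2 : ℂ) + 1) * Real.log (q i.1) / Real.log X) * I))]

theorem Eul.wE_eq (E : Eul e θ q A) (s₀ γ X : ℝ) :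
    wE q A s₀ γ X = wmean (lamE q) (cE A) s₀ γ (Real.log X) := by
  unfold wE wmean
  exact tsum_congr (E.term_eq s₀ γ X)

/-- the data -/
theorem Eul.dir (E : Eul e θ q A) {L : ℂ → ℂ} {s₀ : ℝ} (hs : s₀ < e + θ)
    (hL : ∀ x ∈ Icc s₀ (e + θ), MeromorphicAt L (x : ℂ))
    (hp : ∀ s : ℂ, e + θ < s.re → L s = ∏' v, ((1 - (q v : ℂ) ^ (-s) • A v).det)⁻¹) :
    Dir (lamE q) (cE A) L s₀ (e + θ) := by
  refine ⟨hs, E.lam_nonneg, fun x hx => E.summ hx, hL, fun s hs' => ?_⟩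
  rw [hp s hs', (E.hasProd hs').tprod_eq]

end Pool.Agent.V11288.LZ
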