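import Pool.Agent.V11288.LZ.Tr
import Pool.Agent.V11288.QU.Ded

/-! Euler products: the final form of the theorems on leading terms. -/

set_option autoImplicit false

namespace Pool.Agent.V11288.LZ

open Complex Filter Topology Set
open Pool.Agent.W189.ML Pool.Agent.W189.LC Pool.Agent.W187.UR Pool.Agent.V11290.UL
open Pool.Agent.V11288.QU

/-- the weight `e^{iγu}/Γ(1 + u)` -/
noncomputable def wt (γ u : ℝ) : ℂ := exp ((γ * u : ℝ) * I) / (Real.Gamma (1 + u) : ℂ)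

variable {P : Type} {n : ℕ} {e θ : ℝ} {q : P → ℝ} {A : P → Matrix (Fin n) (Fin n) ℂ}

/-- the term of the weighted sum at `(v, k)`, `k = i.2 + 1` -/
noncomputable def tm (q : P → ℝ) (A : P → Matrix (Fin n) (Fin n) ℂ) (s₀ γ X : ℝ) (i : P × ℕ) : ℂ :=
  (A i.1 ^ (i.2 + 1)).trace / (((i.2 + 1 : ℕ) : ℂ) * ((q i.1 ^ s₀ : ℝ) : ℂ) ^ (i.2 + 1)) *
    wt γ (((i.2 + 1 : ℕ) : ℝ) * Real.log (q i.1) / Real.log X)

theorem Eul.tm_eq (E : Eul e θ q A) (s₀ γ X : ℝ) (i : P × ℕ) : tm q A s₀ γ X i =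
    cE A i * exp (-(s₀ * lamE q i : ℝ)) *
      (exp ((γ * (lamE q i / Real.log X) : ℝ) * I) * (om (lamE q i / Real.log X) : ℂ)) := by
  rw [← E.term_eq]
  unfold tm wt
  rw [trace_pow]
  push_cast
  rfl

theorem tendsto_log_iff {α : Type} {f : ℝ → α} {l : Filter α} :
    Tendsto (fun X : ℝ => f (Real.log X)) atTop l ↔ Tendsto f atTop l := by
  constructor
  · intro h
    refine (h.comp Real.tendsto_exp_atTop).congr fun T => ?_
    simp
  · intro h
    exact h.comp Real.tendsto_log_atTop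

/-- the sum of all terms -/
noncomputable def tot (q : P → ℝ) (A : P → Matrix (Fin n) (Fin n) ℂ) (s₀ γ X : ℝ) : ℂ :=
  ∑' i, tm q A s₀ γ X i

theorem Eul.tot_eq (E : Eul e θ q A) (s₀ γ X : ℝ) :
    tot q A s₀ γ X = wmean (lamE q) (cE A) s₀ γ (Real.log X) := by
  unfold tot wmean
  exact tsum_congr (E.tm_eq s₀ γ X)

/-- **The theorem for Euler products.** -/
theorem Eul.final [Countable P] (E : Eul e θ q A) {L : ℂ → ℂ} {s₀ : ℝ} (hs : s₀ < e + θ)
    (hL : ∀ x ∈ Icc s₀ (e + θ), MeromorphicAt L (x : ℂ))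
    (hp : ∀ s : ℂ, e + θ < s.re → L s = ∏' v, ((1 - (q v : ℂ) ^ (-s) • A v).det)⁻¹) {γ : ℝ}
    (hγ : Real.pi / 2 < γ) :
    (∀ X : ℝ, 1 < X → Summable fun i => ‖tm q A s₀ γ X i‖) ∧
    (∃ (m : ℤ) (r₀ : ℂ), meromorphicOrderAt L (s₀ : ℂ) = m ∧
      Tendsto (fun s : ℂ => L s / (s - s₀) ^ m) (𝓝[≠] (s₀ : ℂ)) (𝓝 (exp r₀)) ∧
      (fun X : ℝ => tot q A s₀ γ X + m * (Real.log (Real.log X) - Lam γ) - r₀) =O[atTop]
        (fun X : ℝ => 1 / Real.log X)) ∧
    (∀ (r : ℤ) (B : ℂ), B ≠ 0 →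
      (Tendsto (fun s : ℂ => L s / (s - s₀) ^ r) (𝓝[≠] (s₀ : ℂ)) (𝓝 B) ↔
        Tendsto (fun X : ℝ => (Real.log X : ℂ) ^ r * exp (tot q A s₀ γ X)) atTop
          (𝓝 (exp (r * Lam γ) * B)))) ∧
    ∀ B : ℂ, Tendsto L (𝓝[≠] (s₀ : ℂ)) (𝓝 B) ↔
      Tendsto (fun X : ℝ => exp (tot q A s₀ γ X)) atTop (𝓝 B) := by
  have D := E.dir hs hL hp
  refine ⟨fun X hX => ?_, ?_, fun r B hB => ?_, fun B => ?_⟩
  · refine (D.wsummable γ (Real.log_pos hX)).congr fun i => ?_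
    rw [E.tm_eq]
  · obtain ⟨m, r₀, h1, h2, h3⟩ := D.law hγ
    refine ⟨m, r₀, h1, h2, ?_⟩
    have h4 := h3.comp_tendsto Real.tendsto_log_atTop
    refine h4.congr' (Eventually.of_forall fun X => ?_) (Eventually.of_forall fun X => rfl)
    simp only [Function.comp]
    rw [E.tot_eq]
  · rw [D.iff hγ r hB, ← tendsto_log_iff]
    simp only [E.tot_eq]
  · rw [D.value hγ B, ← tendsto_log_iff]
    simp only [E.tot_eq]

open NumberField IsDedekindDomain in
/-- Euler products over a number field outside a set `S` of primes -/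
theorem eul_nf {K : Type} [Field K] [NumberField K] {S : Set (HeightOneSpectrum (𝓞 K))}
    {A : S → Matrix (Fin n) (Fin n) ℂ}
    (h : ∀ v : S, ∀ z ∈ (A v).charpoly.roots, ‖z‖ ≤ (Ideal.absNorm v.1.asIdeal : ℝ) ^ θ) :
    Eul 1 θ (fun v : S => (Ideal.absNorm v.1.asIdeal : ℝ)) A :=
  ⟨le_rfl, fun v => by exact_mod_cast Pool.Agent.H921R2.TatePole.two_le_nm v.1,
    fun _ hx => (Pool.Agent.H921R2.TatePole.nm_summable hx).comp_injective
      Subtype.val_injective, h⟩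

/-- Euler products over the rational numbers -/
theorem eul_q {S : Set Nat.Primes} {A : S → Matrix (Fin n) (Fin n) ℂ}
    (h : ∀ p : S, ∀ z ∈ (A p).charpoly.roots, ‖z‖ ≤ ((p.1 : ℕ) : ℝ) ^ θ) :
    Eul 1 θ (fun p : S => ((p.1 : ℕ) : ℝ)) A :=
  ⟨le_rfl, fun p => by exact_mod_cast p.1.2.two_le,
    fun _ hx => (Nat.Primes.summable_rpow.2 (by linarith)).comp_injective
      Subtype.val_injective, h⟩

/-- the series is analytic to the right of its abscissa -/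
theorem series_analytic {ι : Type} {lam : ι → ℝ} {c : ι → ℂ} {σ : ℝ} (hl : ∀ i, 0 ≤ lam i)
    (hsum : ∀ x : ℝ, σ < x → Summable fun i => ‖c i‖ * Real.exp (-(x * lam i))) {s : ℂ}
    (hs : σ < s.re) : AnalyticAt ℂ (fun s : ℂ => ∑' i, c i * exp (-(s * lam i))) s := by
  set y : ℝ := (σ + s.re) / 2 with hy
  have hy1 : σ < y := by rw [hy]; linarith
  have hys : y < s.re := by rw [hy]; linarith
  have hopen : IsOpen {z : ℂ | y < z.re} := isOpen_lt continuous_const Complex.continuous_re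
  have h1 : DifferentiableOn ℂ (fun s : ℂ => ∑' i, c i * exp (-(s * lam i))) {z : ℂ | y < z.re} := by
    refine differentiableOn_tsum_of_summable_norm (hsum y hy1) (fun i => ?_) hopen
      (fun i z hz => ?_)
    · exact Differentiable.differentiableOn (by fun_prop)
    · rw [norm_mul, Complex.norm_exp]
      refine mul_le_mul_of_nonneg_left ?_ (norm_nonneg _)
      apply Real.exp_le_exp.2
      have : (-(z * lam i)).re = -(z.re * lam i) := by simp
      rw [this]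
      have hz' : y < z.re := hz
      nlinarith [hl i]
  exact h1.analyticAt (hopen.mem_nhds hys)

/-- the data, at every real point -/
theorem Eul.dir' (E : Eul e θ q A) {L : ℂ → ℂ} (s₀ : ℝ)
    (hL : ∀ x ∈ Icc s₀ (e + θ), MeromorphicAt L (x : ℂ))
    (hp : ∀ s : ℂ, e + θ < s.re → L s = ∏' v, ((1 - (q v : ℂ) ^ (-s) • A v).det)⁻¹) :
    Dir (lamE q) (cE A) L s₀ (max (e + θ) (s₀ + 1)) := by
  have h1 : ∀ s : ℂ, e + θ < s.re → L s = exp (∑' i, cE A i * exp (-(s * lamE q i))) := by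
    intro s hs
    rw [hp s hs, (E.hasProd hs).tprod_eq]
  refine ⟨lt_of_lt_of_le (by linarith) (le_max_right _ _), E.lam_nonneg,
    fun x hx => E.summ ((le_max_left _ _).trans_lt hx), fun x hx => ?_,
    fun s hs => h1 s ((le_max_left _ _).trans_lt hs)⟩
  rcases le_or_gt x (e + θ) with h | h
  · exact hL x ⟨hx.1, h⟩
  · have h2 : AnalyticAt ℂ (fun s : ℂ => exp (∑' i, cE A i * exp (-(s * lamE q i)))) (x : ℂ) :=
      (series_analytic E.lam_nonneg (fun y hy => E.summ hy) (by simpa using h)).cexp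
    have hopen : IsOpen {z : ℂ | e + θ < z.re} := isOpen_lt continuous_const Complex.continuous_re
    refine (h2.congr ?_).meromorphicAt
    filter_upwards [hopen.mem_nhds (show e + θ < ((x : ℂ)).re by simpa using h)] with z hz
    exact (h1 z hz).symm

/-- **The theorem for Euler products, at every real point.** -/
theorem Eul.final' [Countable P] (E : Eul e θ q A) {L : ℂ → ℂ} (s₀ : ℝ)
    (hL : ∀ x ∈ Icc s₀ (e + θ), MeromorphicAt L (x : ℂ))
    (hp : ∀ s : ℂ, e + θ < s.re → L s = ∏' v, ((1 - (q v : ℂ) ^ (-s) • A v).det)⁻¹) {γ : ℝ}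
    (hγ : Real.pi / 2 < γ) :
    (∀ X : ℝ, 1 < X → Summable fun i => ‖tm q A s₀ γ X i‖) ∧
    (∃ (m : ℤ) (r₀ : ℂ), meromorphicOrderAt L (s₀ : ℂ) = m ∧
      Tendsto (fun s : ℂ => L s / (s - s₀) ^ m) (𝓝[≠] (s₀ : ℂ)) (𝓝 (exp r₀)) ∧
      (fun X : ℝ => tot q A s₀ γ X + m * (Real.log (Real.log X) - Lam γ) - r₀) =O[atTop]
        (fun X : ℝ => 1 / Real.log X)) ∧
    (∀ (r : ℤ) (B : ℂ), B ≠ 0 →
      (Tendsto (fun s : ℂ => L s / (s - s₀) ^ r) (𝓝[≠] (s₀ : ℂ)) (𝓝 B) ↔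
        Tendsto (fun X : ℝ => (Real.log X : ℂ) ^ r * exp (tot q A s₀ γ X)) atTop
          (𝓝 (exp (r * Lam γ) * B)))) ∧
    ∀ B : ℂ, Tendsto L (𝓝[≠] (s₀ : ℂ)) (𝓝 B) ↔
      Tendsto (fun X : ℝ => exp (tot q A s₀ γ X)) atTop (𝓝 B) := by
  have D := E.dir' s₀ hL hp
  refine ⟨fun X hX => ?_, ?_, fun r B hB => ?_, fun B => ?_⟩
  · refine (D.wsummable γ (Real.log_pos hX)).congr fun i => ?_
    rw [E.tm_eq]
  · obtain ⟨m, r₀, h1, h2, h3⟩ := D.law hγ
    refine ⟨m, r₀, h1, h2, ?_⟩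
    have h4 := h3.comp_tendsto Real.tendsto_log_atTop
    refine h4.congr' (Eventually.of_forall fun X => ?_) (Eventually.of_forall fun X => rfl)
    simp only [Function.comp]
    rw [E.tot_eq]
  · rw [D.iff hγ r hB, ← tendsto_log_iff]
    simp only [E.tot_eq]
  · rw [D.value hγ B, ← tendsto_log_iff]
    simp only [E.tot_eq]

end Pool.Agent.V11288.LZ
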