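import Pool.Agent.V11288.LZ.Fin

/-! The rate of convergence to a value; vectors of conjugate numbers. -/

set_option autoImplicit false

namespace Pool.Agent.V11288.LZ

open Complex Filter Topology Set
open Pool.Agent.W189.ML Pool.Agent.W189.LC Pool.Agent.W187.UR Pool.Agent.V11290.UL
open Pool.Agent.V11288.QU

section rate

variable {ι : Type} {lam : ι → ℝ} {c : ι → ℂ} {L : ℂ → ℂ} {s₀ σ : ℝ}

/-- **the value with an error term** -/
theorem Dir.value_rate [Countable ι] (D : Dir lam c L s₀ σ) {γ : ℝ} (hγ : Real.pi / 2 < γ)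
    (hL : AnalyticAt ℂ L (s₀ : ℂ)) :
    (fun T : ℝ => exp (wmean lam c s₀ γ T) - L s₀) =O[atTop] (fun T : ℝ => 1 / T) := by
  obtain ⟨m, r₀, h1, h2, h3⟩ := D.law hγ
  have hm : 0 ≤ m := by
    have h4 := hL.meromorphicOrderAt_nonneg
    rw [h1] at h4
    exact_mod_cast h4
  have hc : Tendsto L (𝓝[≠] (s₀ : ℂ)) (𝓝 (L s₀)) :=
    hL.continuousAt.tendsto.mono_left nhdsWithin_le_nhds
  set E : ℝ → ℂ := fun T => wmean lam c s₀ γ T + m * (Real.log T - Lam γ) - r₀ with hE
  have hE0 : Tendsto E atTop (𝓝 0) := by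
    refine h3.trans_tendsto ?_
    exact tendsto_const_nhds.div_atTop tendsto_id
  obtain ⟨C, hC⟩ := h3.bound
  rcases hm.eq_or_lt with h0 | h0
  · -- order zero
    have h4 : L s₀ = exp r₀ := by
      rw [← h0] at h2
      simp only [zpow_zero, div_one] at h2
      exact tendsto_nhds_unique hc h2
    refine Asymptotics.IsBigO.of_bound (‖exp r₀‖ * (2 * |C|)) ?_
    filter_upwards [hC, (hE0.norm.eventually (eventually_le_nhds (b := (1 : ℝ)) (by simp))),
      eventually_gt_atTop 0] with T hT hT1 hT0
    have h5 : wmean lam c s₀ γ T = r₀ + E T := by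
      rw [hE, ← h0]
      push_cast
      ring
    have h6 : exp (wmean lam c s₀ γ T) - L s₀ = exp r₀ * (exp (E T) - 1) := by
      rw [h5, h4, Complex.exp_add]
      ring
    rw [h6, norm_mul]
    have h7 := Complex.norm_exp_sub_one_le hT1
    have h8 : ‖E T‖ ≤ |C| * ‖1 / T‖ := by
      refine hT.trans ?_
      gcongr
      exact le_abs_self C
    calc ‖exp r₀‖ * ‖exp (E T) - 1‖ ≤ ‖exp r₀‖ * (2 * (|C| * ‖1 / T‖)) := by
          gcongr
          exact h7.trans (by gcongr)
      _ = _ := by ring
  · -- positive order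
    have h4 : L s₀ = 0 := by
      have h5 := (tendsto_zero_iff_meromorphicOrderAt_pos D.mero0).2 (by
        rw [h1]
        exact_mod_cast h0)
      exact tendsto_nhds_unique hc h5
    refine Asymptotics.IsBigO.of_bound (‖exp (r₀ + m * Lam γ)‖ * Real.exp 1) ?_
    filter_upwards [(hE0.norm.eventually (eventually_le_nhds (b := (1 : ℝ)) (by simp))),
      eventually_ge_atTop 1] with T hT1 hT0
    have hTp : 0 < T := by linarith
    have h5 : wmean lam c s₀ γ T = (r₀ + m * Lam γ) + E T + -(m * Real.log T) := by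
      rw [hE]
      ring
    have h6 : ‖exp (-((m : ℂ) * Real.log T))‖ = T ^ (-m) := by
      rw [Complex.exp_neg, Complex.exp_int_mul, ← Complex.ofReal_exp, Real.exp_log hTp, norm_inv,
        norm_zpow, Complex.norm_real, Real.norm_eq_abs, abs_of_pos hTp, zpow_neg]
    have h7 : T ^ (-m) ≤ 1 / T := by
      rw [one_div, ← zpow_neg_one]
      exact zpow_le_zpow_right₀ hT0 (by linarith)
    have h8 : ‖exp (E T)‖ ≤ Real.exp 1 := by
      rw [Complex.norm_exp]
      exact Real.exp_le_exp.2 ((Complex.re_le_norm _).trans hT1)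
    rw [h4, sub_zero, h5, Complex.exp_add, Complex.exp_add, norm_mul, norm_mul, h6,
      Real.norm_of_nonneg (by positivity : 0 ≤ 1 / T)]
    gcongr

end rate

variable {P : Type} {n : ℕ} {e θ : ℝ} {q : P → ℝ} {A : P → Matrix (Fin n) (Fin n) ℂ}

/-- **The value of an Euler product at a real point, with an error term.** -/
theorem Eul.rate [Countable P] (E : Eul e θ q A) {L : ℂ → ℂ} (s₀ : ℝ)
    (hL : ∀ x ∈ Icc s₀ (e + θ), MeromorphicAt L (x : ℂ)) (h0 : AnalyticAt ℂ L (s₀ : ℂ))
    (hp : ∀ s : ℂ, e + θ < s.re → L s = ∏' v, ((1 - (q v : ℂ) ^ (-s) • A v).det)⁻¹) {γ : ℝ}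
    (hγ : Real.pi / 2 < γ) :
    (fun X : ℝ => exp (tot q A s₀ γ X) - L s₀) =O[atTop] (fun X : ℝ => 1 / Real.log X) := by
  have D := E.dir' s₀ hL hp
  have h4 := (D.value_rate hγ h0).comp_tendsto Real.tendsto_log_atTop
  refine h4.congr' (Eventually.of_forall fun X => ?_) (Eventually.of_forall fun X => rfl)
  simp only [Function.comp]
  rw [E.tot_eq]

section conj

variable {F : Type} [Field F] [NumberField F]

/-- the vectors of conjugates of the elements of `F` are the vectors with rational traces -/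
theorem conj_iff (a : (F →+* ℂ) → ℂ) : (∃ x : F, ∀ τ, a τ = τ x) ↔
    ∀ b : F, ∃ y : ℚ, ∑ τ : F →+* ℂ, τ b * a τ = y := by
  have htr : ∀ x : F, ∑ τ : F →+* ℂ, τ x = ((Algebra.trace ℚ F x : ℚ) : ℂ) := by
    intro x
    have h1 := trace_eq_sum_embeddings (K := ℚ) (L := F) ℂ (x := x)
    rw [eq_ratCast] at h1
    rw [h1]
    exact Fintype.sum_equiv (RingHom.equivRatAlgHom F ℂ) _ _ fun τ => rfl
  constructor
  · rintro ⟨x, hx⟩ b
    refine ⟨Algebra.trace ℚ F (b * x), ?_⟩
    rw [← htr]
    refine Finset.sum_congr rfl fun τ _ => ?_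
    rw [hx, map_mul]
  · intro h
    choose y hy using h
    let φ : F →ₗ[ℚ] ℚ :=
      { toFun := y
        map_add' := fun b b' => by
          have h1 : ((y (b + b') : ℚ) : ℂ) = ((y b + y b' : ℚ) : ℂ) := by
            rw [← hy]
            push_cast
            rw [← hy, ← hy, ← Finset.sum_add_distrib]
            refine Finset.sum_congr rfl fun τ _ => ?_
            rw [map_add, add_mul]
          exact_mod_cast h1
        map_smul' := fun r b => by
          have h1 : ((y (r • b) : ℚ) : ℂ) = ((r * y b : ℚ) : ℂ) := by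
            rw [← hy]
            push_cast
            rw [← hy, Finset.mul_sum]
            refine Finset.sum_congr rfl fun τ _ => ?_
            rw [Algebra.smul_def, map_mul, mul_assoc]
            congr 1
            rw [eq_ratCast, map_ratCast]
          simp only [RingHom.id_apply, smul_eq_mul]
          exact_mod_cast h1 }
    have hnd := traceForm_nondegenerate ℚ F
    set x : F := ((Algebra.traceForm ℚ F).toDual hnd).symm φ with hx
    have hxb : ∀ b : F, Algebra.trace ℚ F (x * b) = y b := by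
      intro b
      have h1 := LinearMap.BilinForm.apply_toDual_symm_apply (hB := hnd) φ b
      exact h1
    have hzero : ∀ b : F, ∑ τ : F →+* ℂ, (a τ - τ x) * τ b = 0 := by
      intro b
      have h1 : ∑ τ : F →+* ℂ, (a τ - τ x) * τ b =
          ∑ τ : F →+* ℂ, τ b * a τ - ∑ τ : F →+* ℂ, τ (x * b) := by
        rw [← Finset.sum_sub_distrib]
        refine Finset.sum_congr rfl fun τ _ => ?_
        rw [map_mul]
        ring
      rw [h1, htr, hxb, hy, sub_self]
    have hli := (linearIndependent_monoidHom F ℂ).comp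
      (fun τ : F →+* ℂ => (τ : F →* ℂ)) (fun τ τ' h => by
        ext z
        exact DFunLike.congr_fun h z)
    rw [Fintype.linearIndependent_iff] at hli
    refine ⟨x, fun τ => ?_⟩
    have h2 := hli (fun τ => a τ - τ x) (by
      funext b
      simpa [Finset.sum_apply, Pi.smul_apply, smul_eq_mul] using hzero b) τ
    exact sub_eq_zero.1 h2

end conj

end Pool.Agent.V11288.LZ
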