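import Pool.Agent.V11288.LZ.RealE
import Pool.Agent.V11288.LZ.Val
import Pool.Agent.V11288.HS.EdgeX

/-! Euler products given by Frobenius eigenvalues over a number field. -/

set_option autoImplicit false

namespace Pool.Agent.V11288.LZ

open Filter Topology Set NumberField IsDedekindDomain

variable {K : Type} [Field K] [NumberField K] {N : ℕ} {S : Set (HeightOneSpectrum (𝓞 K))}

theorem mem_roots_diagonal {a : Fin N → ℂ} {z : ℂ} (hz : z ∈ (Matrix.diagonal a).charpoly.roots) :
    ∃ j, z = a j := by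
  rw [Matrix.charpoly_of_upperTriangular _ (Matrix.blockTriangular_diagonal a)] at hz
  have h : (∏ j, (Polynomial.X - Polynomial.C ((Matrix.diagonal a) j j)) : Polynomial ℂ) =
      (((Finset.univ : Finset (Fin N)).val.map fun j => a j).map
        fun b => (Polynomial.X : Polynomial ℂ) - Polynomial.C b).prod := by
    rw [Multiset.map_map]
    simp only [Matrix.diagonal_apply_eq]
    rfl
  rw [h, Polynomial.roots_multiset_prod_X_sub_C] at hz
  obtain ⟨j, -, hj⟩ := Multiset.mem_map.1 hz
  exact ⟨j, hj.symm⟩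

/-- the system of the Frobenius eigenvalues -/
theorem eul_alpha {α : S → Fin N → ℂ} {θ : ℝ}
    (h : ∀ v j, ‖α v j‖ ≤ (Ideal.absNorm v.1.asIdeal : ℝ) ^ θ) :
    Eul 1 θ (fun v : S => (Ideal.absNorm v.1.asIdeal : ℝ)) (fun v => Matrix.diagonal (α v)) := by
  refine eul_nf fun v z hz => ?_
  obtain ⟨j, rfl⟩ := mem_roots_diagonal hz
  exact h v j

theorem trace_diagonal_pow (a : Fin N → ℂ) (k : ℕ) : (Matrix.diagonal a ^ k).trace = ∑ j, a j ^ k := by
  rw [Matrix.diagonal_pow, Matrix.trace_diagonal]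
  rfl

theorem det_diagonal_sub (a : Fin N → ℂ) (x : ℂ) :
    (1 - x • Matrix.diagonal a).det = ∏ j, (1 - a j * x) := by
  have h : (1 : Matrix (Fin N) (Fin N) ℂ) - x • Matrix.diagonal a =
      Matrix.diagonal fun j => 1 - a j * x := by
    rw [← Matrix.diagonal_one, ← Matrix.diagonal_smul, Matrix.diagonal_sub]
    congr 1
    funext j
    simp [mul_comm]
  rw [h, Matrix.det_diagonal]

end Pool.Agent.V11288.LZ
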