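import Pool.Agent.V11288.LZ.Cx

/-!
# Leading terms of Dirichlet series at any real point

The law of `LZ.Cx` at an arbitrary real point to the left of the half plane of absolute convergence, by
scaling, and its equivalent forms as limits.
-/

set_option autoImplicit false

namespace Pool.Agent.V11288.LZ

open Complex Filter Topology Set
open Pool.Agent.W189.ML Pool.Agent.W189.LC Pool.Agent.W187.UR Pool.Agent.V11290.UL

/-- `L = exp (∑ c_i e^{-s lam_i})` for `Re s > σ`, meromorphic at the points of `[s₀, σ]` -/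
structure Dir {ι : Type} (lam : ι → ℝ) (c : ι → ℂ) (L : ℂ → ℂ) (s₀ σ : ℝ) : Prop where
  lt : s₀ < σ
  lam_pos : ∀ i, 0 ≤ lam i
  sum : ∀ x : ℝ, σ < x → Summable fun i => ‖c i‖ * Real.exp (-(x * lam i))
  mero : ∀ x ∈ Icc s₀ σ, MeromorphicAt L (x : ℂ)
  eq : ∀ s : ℂ, σ < s.re → L s = exp (∑' i, c i * exp (-(s * lam i)))

/-- the weighted sum -/
noncomputable def wmean {ι : Type} (lam : ι → ℝ) (c : ι → ℂ) (s₀ γ T : ℝ) : ℂ :=
  ∑' i, c i * exp (-(s₀ * lam i : ℝ)) * (exp ((γ * (lam i / T) : ℝ) * I) * (om (lam i / T) : ℂ))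

variable {ι : Type} {lam : ι → ℝ} {c : ι → ℂ} {L : ℂ → ℂ} {s₀ σ : ℝ}

theorem Dir.cd (D : Dir lam c L s₀ σ) : CD (fun i => 2 * (σ - s₀) * lam i)
    (fun i => c i * exp (-(s₀ * lam i : ℝ))) (fun w => L (s₀ + (2 * (σ - s₀) : ℝ) * w)) := by
  have hκ : 0 < 2 * (σ - s₀) := by linarith [D.lt]
  have hre : ∀ w : ℂ, (((s₀ : ℂ) + ((2 * (σ - s₀) : ℝ) : ℂ) * w)).re = s₀ + 2 * (σ - s₀) * w.re := by
    intro w
    rw [Complex.add_re, Complex.ofReal_re, Complex.re_ofReal_mul]
  refine ⟨fun i => mul_nonneg hκ.le (D.lam_pos i), fun x hx => ?_, fun x hx => ?_, fun w hw => ?_⟩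
  · have h1 := D.sum (s₀ + 2 * (σ - s₀) * x) (by nlinarith [D.lt])
    refine h1.congr fun i => ?_
    have : (-((s₀ * lam i : ℝ) : ℂ)).re = -(s₀ * lam i) := by
      rw [Complex.neg_re, Complex.ofReal_re]
    rw [norm_mul, Complex.norm_exp, this, mul_assoc ‖c i‖, ← Real.exp_add]
    congr 2
    ring
  · have h1 : MeromorphicAt L ((fun w : ℂ => (s₀ : ℂ) + ((2 * (σ - s₀) : ℝ) : ℂ) * w) (x : ℂ)) := by
      have h2 : ((s₀ : ℂ) + ((2 * (σ - s₀) : ℝ) : ℂ) * (x : ℂ)) = ((s₀ + 2 * (σ - s₀) * x : ℝ) : ℂ) := by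
        push_cast; ring
      show MeromorphicAt L ((s₀ : ℂ) + ((2 * (σ - s₀) : ℝ) : ℂ) * (x : ℂ))
      rw [h2]
      refine D.mero _ ⟨?_, ?_⟩
      · nlinarith [hx.1]
      · nlinarith [hx.2]
    have h2 : AnalyticAt ℂ (fun w : ℂ => (s₀ : ℂ) + ((2 * (σ - s₀) : ℝ) : ℂ) * w) (x : ℂ) := by fun_prop
    exact MeromorphicAt.comp_analyticAt h1 h2
  · have h1 : σ < ((s₀ : ℂ) + ((2 * (σ - s₀) : ℝ) : ℂ) * w).re := by
      rw [hre]
      nlinarith
    rw [D.eq _ h1]
    congr 1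
    refine tsum_congr fun i => ?_
    rw [mul_assoc, ← Complex.exp_add]
    congr 2
    push_cast
    ring

theorem Dir.wmean_eq (D : Dir lam c L s₀ σ) (γ T : ℝ) :
    gmean (fun i => 2 * (σ - s₀) * lam i) (fun i => c i * exp (-(s₀ * lam i : ℝ))) γ
      (2 * (σ - s₀) * T) = wmean lam c s₀ γ T := by
  have hκ : 0 < 2 * (σ - s₀) := by linarith [D.lt]
  unfold gmean wmean
  refine tsum_congr fun i => ?_
  rw [mul_div_mul_left _ _ hκ.ne']

theorem Dir.wsummable (D : Dir lam c L s₀ σ) (γ : ℝ) {T : ℝ} (hT : 0 < T) :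
    Summable fun i => ‖c i * exp (-(s₀ * lam i : ℝ)) *
      (exp ((γ * (lam i / T) : ℝ) * I) * (om (lam i / T) : ℂ))‖ := by
  have hκ : 0 < 2 * (σ - s₀) := by linarith [D.lt]
  refine (D.cd.gmean_summable (γ := γ) (T := 2 * (σ - s₀) * T) (by positivity)).congr fun i => ?_
  rw [mul_div_mul_left _ _ hκ.ne']

theorem Dir.mero0 (D : Dir lam c L s₀ σ) : MeromorphicAt L (s₀ : ℂ) :=
  D.mero s₀ ⟨le_rfl, D.lt.le⟩

/-- **The law at a real point.** -/
theorem Dir.law [Countable ι] (D : Dir lam c L s₀ σ) {γ : ℝ} (hγ : Real.pi / 2 < γ) :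
    ∃ (m : ℤ) (r₀ : ℂ), meromorphicOrderAt L (s₀ : ℂ) = m ∧
      Tendsto (fun s : ℂ => L s / (s - s₀) ^ m) (𝓝[≠] (s₀ : ℂ)) (𝓝 (exp r₀)) ∧
      (fun T : ℝ => wmean lam c s₀ γ T + m * (Real.log T - Lam γ) - r₀) =O[atTop]
        (fun T : ℝ => 1 / T) := by
  have hκ : 0 < 2 * (σ - s₀) := by linarith [D.lt]
  obtain ⟨m, r, -, h2, h3⟩ := D.cd.law hγ
  set κ : ℝ := 2 * (σ - s₀) with hκd
  have hκc : (κ : ℂ) ≠ 0 := by exact_mod_cast hκ.ne'
  have h4 : Tendsto (fun s : ℂ => L s / (s - s₀) ^ m) (𝓝[≠] (s₀ : ℂ))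
      (𝓝 (exp (r - m * Real.log κ))) := by
    have h5 : Tendsto (fun s : ℂ => (s - s₀) / κ) (𝓝[≠] (s₀ : ℂ)) (𝓝[≠] 0) := by
      refine tendsto_nhdsWithin_iff.2 ⟨?_, ?_⟩
      · have h6 : Continuous fun s : ℂ => (s - s₀) / κ := by fun_prop
        have h7 := (h6.tendsto (s₀ : ℂ)).mono_left (nhdsWithin_le_nhds (s := {(s₀ : ℂ)}ᶜ))
        simpa using h7
      · filter_upwards [self_mem_nhdsWithin] with s hs
        simp only [mem_compl_iff, mem_singleton_iff] at hs ⊢
        exact div_ne_zero (sub_ne_zero.2 hs) hκc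
    have h6 := (h2.comp h5).mul_const (exp (-(m * Real.log κ)))
    rw [← Complex.exp_add] at h6
    have h7 : r + -((m : ℂ) * Real.log κ) = r - m * Real.log κ := by ring
    rw [h7] at h6
    refine h6.congr fun s => ?_
    simp only [Function.comp]
    have h8 : (s₀ : ℂ) + (κ : ℂ) * ((s - s₀) / κ) = s := by
      field_simp
      ring
    have h9 : exp (-(m * Real.log κ)) = ((κ : ℂ) ^ m)⁻¹ := by
      rw [Complex.exp_neg, Complex.exp_int_mul, ← Complex.ofReal_exp, Real.exp_log hκ]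
    rw [h8, h9, div_zpow]
    have h10 : (κ : ℂ) ^ m ≠ 0 := zpow_ne_zero _ hκc
    by_cases h11 : (s - s₀) ^ m = 0
    · rw [h11]; simp
    · field_simp
  refine ⟨m, r - m * Real.log κ, ?_, h4, ?_⟩
  · exact ((lead_iff D.mero0 m (exp_ne_zero _)).2 h4).1
  · have h5 : Tendsto (fun T : ℝ => κ * T) atTop atTop := tendsto_id.const_mul_atTop hκ
    have h6 := h3.comp_tendsto h5
    have h7 : ((fun T : ℝ => 1 / T) ∘ fun T : ℝ => κ * T) =O[atTop] (fun T : ℝ => 1 / T) := by
      refine Asymptotics.IsBigO.of_bound (1 / κ) ?_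
      filter_upwards [eventually_gt_atTop 0] with T hT
      simp only [Function.comp]
      rw [Real.norm_of_nonneg (by positivity), Real.norm_of_nonneg (by positivity)]
      rw [div_mul_div_comm, one_mul]
    refine (h6.trans h7).congr' ?_ (Eventually.of_forall fun _ => rfl)
    filter_upwards [eventually_gt_atTop 0] with T hT
    simp only [Function.comp]
    rw [D.wmean_eq, Real.log_mul hκ.ne' hT.ne']
    push_cast
    ring

/-- the limit form of the law -/
theorem Dir.law_lim [Countable ι] (D : Dir lam c L s₀ σ) {γ : ℝ} (hγ : Real.pi / 2 < γ) :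
    ∃ (m : ℤ) (A : ℂ), A ≠ 0 ∧ meromorphicOrderAt L (s₀ : ℂ) = m ∧
      Tendsto (fun s : ℂ => L s / (s - s₀) ^ m) (𝓝[≠] (s₀ : ℂ)) (𝓝 A) ∧
      Tendsto (fun T : ℝ => (T : ℂ) ^ m * exp (wmean lam c s₀ γ T)) atTop
        (𝓝 (exp (m * Lam γ) * A)) := by
  obtain ⟨m, r₀, h1, h2, h3⟩ := D.law hγ
  refine ⟨m, exp r₀, exp_ne_zero _, h1, h2, ?_⟩
  have h4 : Tendsto (fun T : ℝ => wmean lam c s₀ γ T + m * (Real.log T - Lam γ) - r₀) atTop
      (𝓝 0) := by
    refine h3.trans_tendsto ?_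
    exact tendsto_const_nhds.div_atTop tendsto_id
  have h5 : Tendsto (fun T : ℝ => exp (wmean lam c s₀ γ T + m * (Real.log T - Lam γ) - r₀) *
      (exp (m * Lam γ) * exp r₀)) atTop (𝓝 (1 * (exp (m * Lam γ) * exp r₀))) := by
    refine Tendsto.mul_const _ ?_
    have := (Complex.continuous_exp.tendsto 0).comp h4
    simpa [Function.comp_def] using this
  rw [one_mul] at h5
  refine h5.congr' ?_
  filter_upwards [eventually_gt_atTop 0] with T hT
  have h7 : (T : ℂ) ^ m = Complex.exp (m * Real.log T) := by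
    rw [Complex.exp_int_mul, ← Complex.ofReal_exp, Real.exp_log hT]
  rw [h7, ← Complex.exp_add, ← Complex.exp_add, ← Complex.exp_add]
  congr 1
  ring

/-- powers of `T` have no finite nonzero limit -/
theorem zpow_lim {n : ℤ} {A : ℂ} (hA : A ≠ 0)
    (h : Tendsto (fun T : ℝ => (T : ℂ) ^ n) atTop (𝓝 A)) : n = 0 := by
  have h3 : Tendsto (fun T : ℝ => T ^ n) atTop (𝓝 ‖A‖) := by
    refine h.norm.congr' ?_
    filter_upwards [eventually_gt_atTop 0] with T hT
    rw [norm_zpow, Complex.norm_real, Real.norm_eq_abs, abs_of_pos hT]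
  rcases lt_trichotomy n 0 with h5 | h5 | h5
  · exfalso
    have h6 : Tendsto (fun T : ℝ => T ^ n) atTop (𝓝 0) := tendsto_zpow_atTop_zero h5
    have h7 := tendsto_nhds_unique h3 h6
    rw [norm_eq_zero] at h7
    exact hA h7
  · exact h5
  · exfalso
    have h6 : Tendsto (fun T : ℝ => T ^ n) atTop atTop := by
      obtain ⟨k, hk⟩ := Int.eq_ofNat_of_zero_le h5.le
      rw [hk]
      simp only [zpow_natCast]
      refine tendsto_pow_atTop ?_
      intro h0
      rw [h0] at hk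
      rw [hk] at h5
      exact absurd h5 (by simp)
    exact not_tendsto_nhds_of_tendsto_atTop h6 _ h3

/-- **Order and leading coefficient from the weighted sums.** -/
theorem Dir.iff [Countable ι] (D : Dir lam c L s₀ σ) {γ : ℝ} (hγ : Real.pi / 2 < γ) (r : ℤ) {B : ℂ}
    (hB : B ≠ 0) :
    Tendsto (fun s : ℂ => L s / (s - s₀) ^ r) (𝓝[≠] (s₀ : ℂ)) (𝓝 B) ↔
      Tendsto (fun T : ℝ => (T : ℂ) ^ r * exp (wmean lam c s₀ γ T)) atTop
        (𝓝 (exp (r * Lam γ) * B)) := by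
  obtain ⟨m, A, hA, h1, h2, h3⟩ := D.law_lim hγ
  constructor
  · intro h
    have h4 := ((lead_iff D.mero0 r hB).2 h).1
    rw [h1] at h4
    have h5 : m = r := by exact_mod_cast h4
    subst h5
    rwa [tendsto_nhds_unique h h2]
  · intro h
    have h4 : Tendsto (fun T : ℝ => (T : ℂ) ^ (r - m)) atTop
        (𝓝 ((exp (r * Lam γ) * B) / (exp (m * Lam γ) * A))) := by
      refine (h.div h3 (mul_ne_zero (exp_ne_zero _) hA)).congr' ?_
      filter_upwards [eventually_gt_atTop 0] with T hT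
      have hTc : (T : ℂ) ≠ 0 := by exact_mod_cast hT.ne'
      have h5 := Complex.exp_ne_zero (wmean lam c s₀ γ T)
      simp only [Pi.div_apply]
      rw [zpow_sub₀ hTc, mul_div_mul_right _ _ h5]
    have h5 := zpow_lim (div_ne_zero (mul_ne_zero (exp_ne_zero _) hB)
      (mul_ne_zero (exp_ne_zero _) hA)) h4
    have h6 : r = m := by linarith
    subst h6
    have h7 := tendsto_nhds_unique h h3
    rw [mul_left_cancel₀ (exp_ne_zero _) h7]
    exact h2

/-- **The value from the weighted sums.** -/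
theorem Dir.value [Countable ι] (D : Dir lam c L s₀ σ) {γ : ℝ} (hγ : Real.pi / 2 < γ) (B : ℂ) :
    Tendsto L (𝓝[≠] (s₀ : ℂ)) (𝓝 B) ↔
      Tendsto (fun T : ℝ => exp (wmean lam c s₀ γ T)) atTop (𝓝 B) := by
  obtain ⟨m, A, hA, h1, h2, h3⟩ := D.law_lim hγ
  have hE : exp (m * Lam γ) * A ≠ 0 := mul_ne_zero (exp_ne_zero _) hA
  have hback : ∀ᶠ T : ℝ in atTop, (T : ℂ) ^ (-m) * ((T : ℂ) ^ m * exp (wmean lam c s₀ γ T)) =
      exp (wmean lam c s₀ γ T) := by
    filter_upwards [eventually_gt_atTop 0] with T hT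
    have hTc : (T : ℂ) ≠ 0 := by exact_mod_cast hT.ne'
    rw [← mul_assoc, ← zpow_add₀ hTc, neg_add_cancel, zpow_zero, one_mul]
  have hzero : 0 < m → Tendsto (fun T : ℝ => (T : ℂ) ^ (-m)) atTop (𝓝 0) := by
    intro hm
    rw [tendsto_zero_iff_norm_tendsto_zero]
    refine (tendsto_zpow_atTop_zero (𝕜 := ℝ) (n := -m) (by linarith)).congr' ?_
    filter_upwards [eventually_gt_atTop 0] with T hT
    rw [norm_zpow, Complex.norm_real, Real.norm_eq_abs, abs_of_pos hT]
  have hpos : 0 < m → Tendsto (fun T : ℝ => exp (wmean lam c s₀ γ T)) atTop (𝓝 0) := by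
    intro hm
    have h4 := (hzero hm).mul h3
    rw [zero_mul] at h4
    exact h4.congr' hback
  constructor
  · intro h
    by_cases hB : B = 0
    · subst hB
      have h4 := (tendsto_zero_iff_meromorphicOrderAt_pos D.mero0).1 h
      rw [h1] at h4
      exact hpos (by exact_mod_cast h4)
    · have h4 := (D.iff hγ 0 hB).1 (by simpa using h)
      simpa using h4
  · intro h
    rcases lt_trichotomy m 0 with hm | hm | hm
    · exfalso
      have h4 : Tendsto (fun T : ℝ => (T : ℂ) ^ m * exp (wmean lam c s₀ γ T)) atTop (𝓝 0) := by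
        have h5 : Tendsto (fun T : ℝ => (T : ℂ) ^ m) atTop (𝓝 0) := by
          rw [tendsto_zero_iff_norm_tendsto_zero]
          refine (tendsto_zpow_atTop_zero (𝕜 := ℝ) (n := m) hm).congr' ?_
          filter_upwards [eventually_gt_atTop 0] with T hT
          rw [norm_zpow, Complex.norm_real, Real.norm_eq_abs, abs_of_pos hT]
        have h6 := h5.mul h
        rwa [zero_mul] at h6
      exact hE (tendsto_nhds_unique h3 h4)
    · subst hm
      simp only [zpow_zero, one_mul, div_one, Int.cast_zero, zero_mul, Complex.exp_zero] at h2 h3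
      rwa [tendsto_nhds_unique h h3]
    · rw [tendsto_nhds_unique h (hpos hm)]
      refine (tendsto_zero_iff_meromorphicOrderAt_pos D.mero0).2 ?_
      rw [h1]
      exact_mod_cast hm

end Pool.Agent.V11288.LZ
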