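import Pool.Agent.V11288.LZ.Theta

/-! Euler products over a number field given by finite systems of parameters, indexed by any finite type. -/

set_option autoImplicit false

namespace Pool.Agent.V11288.LZ

open Complex Filter Topology Set NumberField IsDedekindDomain

variable {K : Type} [Field K] [NumberField K] {S : Set (HeightOneSpectrum (𝓞 K))}
  {J : Type} [Fintype J]

/-- the matrices of the system -/
noncomputable def jmat (α : S → J → ℂ) (v : S) :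
    Matrix (Fin (Fintype.card J)) (Fin (Fintype.card J)) ℂ :=
  Matrix.diagonal fun i => α v ((Fintype.equivFin J).symm i)

/-- the term at `(v, k)` -/
noncomputable def jterm (α : S → J → ℂ) (s₀ γ X : ℝ) (v : S) (k : ℕ) : ℂ :=
  (∑ j, α v j ^ k) / ((k : ℂ) * (((Ideal.absNorm v.1.asIdeal : ℝ) ^ s₀ : ℝ) : ℂ) ^ k) *
    wt γ (k * Real.log (Ideal.absNorm v.1.asIdeal) / Real.log X)

/-- the sum of all terms -/
noncomputable def jW (α : S → J → ℂ) (s₀ γ X : ℝ) : ℂ :=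
  ∑' x : S × ℕ, jterm α s₀ γ X x.1 (x.2 + 1)

theorem jeul {α : S → J → ℂ} {θ : ℝ}
    (h : ∀ v j, ‖α v j‖ ≤ (Ideal.absNorm v.1.asIdeal : ℝ) ^ θ) :
    Eul 1 θ (fun v : S => (Ideal.absNorm v.1.asIdeal : ℝ)) (jmat α) :=
  eul_alpha (α := fun v i => α v ((Fintype.equivFin J).symm i)) fun v _ => h v _

theorem jtr (α : S → J → ℂ) (v : S) (k : ℕ) : (jmat α v ^ k).trace = ∑ j, α v j ^ k := by
  unfold jmat
  rw [trace_diagonal_pow]
  exact Fintype.sum_equiv (Fintype.equivFin J).symm _ _ fun _ => rfl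

theorem jterm_eq (α : S → J → ℂ) (s₀ γ X : ℝ) (x : S × ℕ) :
    tm (fun v : S => (Ideal.absNorm v.1.asIdeal : ℝ)) (jmat α) s₀ γ X x =
      jterm α s₀ γ X x.1 (x.2 + 1) := by
  unfold tm jterm
  rw [jtr]

theorem jW_eq (α : S → J → ℂ) (s₀ γ X : ℝ) :
    tot (fun v : S => (Ideal.absNorm v.1.asIdeal : ℝ)) (jmat α) s₀ γ X = jW α s₀ γ X :=
  tsum_congr fun x => jterm_eq α s₀ γ X x

theorem jdet (α : S → J → ℂ) (v : S) (x : ℂ) :
    (1 - x • jmat α v).det = ∏ j, (1 - α v j * x) := by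
  unfold jmat
  rw [det_diagonal_sub]
  exact Fintype.prod_equiv (Fintype.equivFin J).symm _ _ fun _ => rfl

theorem jprod (α : S → J → ℂ) (s : ℂ) :
    ∏' v : S, ((1 - (((Ideal.absNorm v.1.asIdeal : ℝ)) : ℂ) ^ (-s) • jmat α v).det)⁻¹ =
    ∏' v : S, ∏ j, (1 - α v j * ((Ideal.absNorm v.1.asIdeal : ℕ) : ℂ) ^ (-s))⁻¹ := by
  refine tprod_congr fun v => ?_
  rw [jdet, ← Finset.prod_inv_distrib]
  simp

theorem jsummable {α : S → J → ℂ} {θ : ℝ}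
    (h : ∀ v j, ‖α v j‖ ≤ (Ideal.absNorm v.1.asIdeal : ℝ) ^ θ) {L : ℂ → ℂ} (s₀ : ℝ)
    (hm : ∀ x ∈ Icc s₀ (1 + θ), MeromorphicAt L (x : ℂ))
    (hp : ∀ s : ℂ, 1 + θ < s.re → L s =
      ∏' v : S, ∏ j, (1 - α v j * ((Ideal.absNorm v.1.asIdeal : ℕ) : ℂ) ^ (-s))⁻¹) {γ : ℝ}
    (hγ : Real.pi / 2 < γ) {X : ℝ} (hX : 1 < X) :
    Summable fun x : S × ℕ => ‖jterm α s₀ γ X x.1 (x.2 + 1)‖ := by
  refine (((jeul h).final' s₀ hm (fun s hs => by rw [jprod, hp s hs]) hγ).1 X hX).congr fun x => ?_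
  rw [jterm_eq]

/-- **value with a rate** -/
theorem jrate {α : S → J → ℂ} {θ : ℝ}
    (h : ∀ v j, ‖α v j‖ ≤ (Ideal.absNorm v.1.asIdeal : ℝ) ^ θ) {L : ℂ → ℂ} (s₀ : ℝ)
    (hm : ∀ x ∈ Icc s₀ (1 + θ), MeromorphicAt L (x : ℂ)) (h0 : AnalyticAt ℂ L (s₀ : ℂ))
    (hp : ∀ s : ℂ, 1 + θ < s.re → L s =
      ∏' v : S, ∏ j, (1 - α v j * ((Ideal.absNorm v.1.asIdeal : ℕ) : ℂ) ^ (-s))⁻¹) {γ : ℝ}
    (hγ : Real.pi / 2 < γ) :
    (fun X : ℝ => exp (jW α s₀ γ X) - L s₀) =O[atTop] (fun X : ℝ => 1 / Real.log X) := by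
  have h1 := (jeul h).rate s₀ hm h0 (fun s hs => by rw [jprod, hp s hs]) hγ
  simp only [jW_eq] at h1
  exact h1

/-- **leading terms** -/
theorem jlead {α : S → J → ℂ} {θ : ℝ}
    (h : ∀ v j, ‖α v j‖ ≤ (Ideal.absNorm v.1.asIdeal : ℝ) ^ θ) {L : ℂ → ℂ} (s₀ : ℝ)
    (hm : ∀ x ∈ Icc s₀ (1 + θ), MeromorphicAt L (x : ℂ))
    (hp : ∀ s : ℂ, 1 + θ < s.re → L s =
      ∏' v : S, ∏ j, (1 - α v j * ((Ideal.absNorm v.1.asIdeal : ℕ) : ℂ) ^ (-s))⁻¹) {γ : ℝ}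
    (hγ : Real.pi / 2 < γ) (r : ℤ) (B : ℂ) :
    (Tendsto (fun s : ℂ => L s / (s - s₀) ^ r) (𝓝[≠] (s₀ : ℂ)) (𝓝 B) ↔
      Tendsto (fun X : ℝ => (Real.log X : ℂ) ^ r * exp (jW α s₀ γ X)) atTop
        (𝓝 (exp (r * Pool.Agent.W187.UR.Lam γ) * B))) ∧
    (Tendsto (fun s : ℂ => L s / (s - s₀) ^ r) (𝓝[≠] (s₀ : ℂ)) (𝓝 B) →
      (fun X : ℝ => (Real.log X : ℂ) ^ r * exp (jW α s₀ γ X) -
        exp (r * Pool.Agent.W187.UR.Lam γ) * B) =O[atTop] (fun X : ℝ => 1 / Real.log X)) := by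
  have h1 := (jeul h).lead_iff s₀ hm (fun s hs => by rw [jprod, hp s hs]) hγ r B
  have h2 : Tendsto (fun s : ℂ => L s / (s - s₀) ^ r) (𝓝[≠] (s₀ : ℂ)) (𝓝 B) → _ := fun h3 =>
    (jeul h).lead_rate s₀ hm (fun s hs => by rw [jprod, hp s hs]) hγ h3
  simp only [jW_eq] at h1 h2
  exact ⟨h1, h2⟩

/-- quotients of convergent functions with the rate `O(1/log X)` -/
theorem rate_mul {f g : ℝ → ℂ} {a b : ℂ}
    (hf : (fun X => f X - a) =O[atTop] (fun X : ℝ => 1 / Real.log X))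
    (hg : (fun X => g X - b) =O[atTop] (fun X : ℝ => 1 / Real.log X)) :
    (fun X => f X * g X - a * b) =O[atTop] (fun X : ℝ => 1 / Real.log X) := by
  have hg0 : Tendsto g atTop (𝓝 b) := by
    have h1 := (hg.trans_tendsto (tendsto_const_nhds.div_atTop Real.tendsto_log_atTop)).add_const b
    simpa using h1
  have h1 : (fun X => (f X - a) * g X) =O[atTop] (fun X : ℝ => 1 / Real.log X) := by
    have h2 := hf.mul (hg0.isBigO_one ℝ)
    simpa using h2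
  have h2 : (fun X => a * (g X - b)) =O[atTop] (fun X : ℝ => 1 / Real.log X) :=
    hg.const_mul_left a
  refine (h1.add h2).congr_left fun X => ?_
  ring

theorem rate_inv {f : ℝ → ℂ} {a : ℂ} (ha : a ≠ 0)
    (hf : (fun X => f X - a) =O[atTop] (fun X : ℝ => 1 / Real.log X)) :
    (fun X => (f X)⁻¹ - a⁻¹) =O[atTop] (fun X : ℝ => 1 / Real.log X) := by
  have hf0 : Tendsto f atTop (𝓝 a) := by
    have h1 := (hf.trans_tendsto (tendsto_const_nhds.div_atTop Real.tendsto_log_atTop)).add_const a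
    simpa using h1
  have h1 : (fun X => (f X - a) * (f X)⁻¹) =O[atTop] (fun X : ℝ => 1 / Real.log X) := by
    have h2 := hf.mul ((hf0.inv₀ ha).isBigO_one ℝ)
    simpa using h2
  have h2 : (fun X => -a⁻¹ * ((f X - a) * (f X)⁻¹)) =O[atTop] (fun X : ℝ => 1 / Real.log X) :=
    h1.const_mul_left _
  refine h2.congr' ?_ (Eventually.of_forall fun _ => rfl)
  filter_upwards [hf0.eventually_ne ha] with X hX
  field_simp
  ring

end Pool.Agent.V11288.LZ
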