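import Pool.Agent.V11288.LZ.Par

/-! Euler products given by finite systems of parameters, over any countable set with norms. -/

set_option autoImplicit false

namespace Pool.Agent.V11288.LZ

open Complex Filter Topology Set

variable {P : Type} {q : P → ℝ} {e θ : ℝ} {J : Type} [Fintype J]

/-- the matrices of the system -/
noncomputable def gmat (α : P → J → ℂ) (v : P) :
    Matrix (Fin (Fintype.card J)) (Fin (Fintype.card J)) ℂ :=
  Matrix.diagonal fun i => α v ((Fintype.equivFin J).symm i)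

/-- the term at `(v, k)` -/
noncomputable def gterm (q : P → ℝ) (α : P → J → ℂ) (s₀ γ X : ℝ) (v : P) (k : ℕ) : ℂ :=
  (∑ j, α v j ^ k) / ((k : ℂ) * ((q v ^ s₀ : ℝ) : ℂ) ^ k) * wt γ (k * Real.log (q v) / Real.log X)

/-- the sum of all terms -/
noncomputable def gW (q : P → ℝ) (α : P → J → ℂ) (s₀ γ X : ℝ) : ℂ :=
  ∑' x : P × ℕ, gterm q α s₀ γ X x.1 (x.2 + 1)

theorem groots {α : P → J → ℂ} {v : P} {z : ℂ} (hz : z ∈ (gmat α v).charpoly.roots) :
    ∃ j, z = α v j := by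
  obtain ⟨i, hi⟩ := mem_roots_diagonal hz
  exact ⟨_, hi⟩

theorem gtr (α : P → J → ℂ) (v : P) (k : ℕ) : (gmat α v ^ k).trace = ∑ j, α v j ^ k := by
  unfold gmat
  rw [trace_diagonal_pow]
  exact Fintype.sum_equiv (Fintype.equivFin J).symm _ _ fun _ => rfl

theorem gterm_eq (α : P → J → ℂ) (s₀ γ X : ℝ) (x : P × ℕ) :
    tm q (gmat α) s₀ γ X x = gterm q α s₀ γ X x.1 (x.2 + 1) := by
  unfold tm gterm
  rw [gtr]

theorem gW_eq (α : P → J → ℂ) (s₀ γ X : ℝ) : tot q (gmat α) s₀ γ X = gW q α s₀ γ X :=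
  tsum_congr fun x => gterm_eq α s₀ γ X x

theorem gdet (α : P → J → ℂ) (v : P) (x : ℂ) : (1 - x • gmat α v).det = ∏ j, (1 - α v j * x) := by
  unfold gmat
  rw [det_diagonal_sub]
  exact Fintype.prod_equiv (Fintype.equivFin J).symm _ _ fun _ => rfl

theorem gprod (α : P → J → ℂ) (s : ℂ) :
    ∏' v : P, ((1 - (q v : ℂ) ^ (-s) • gmat α v).det)⁻¹ =
    ∏' v : P, ∏ j, (1 - α v j * (q v : ℂ) ^ (-s))⁻¹ := by
  refine tprod_congr fun v => ?_
  rw [gdet, ← Finset.prod_inv_distrib]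

end Pool.Agent.V11288.LZ
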