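import Pool.Agent.V11288.LZ.Equi
import Pool.Agent.V11288.LZ.Frob
import Pool.Agent.Y773.HK.Eul

/-! Partial zeta functions of ideal classes. -/

set_option autoImplicit false

namespace Pool.Agent.V11288.LZ

open Complex Filter Topology Set NumberField IsDedekindDomain
open Pool.Agent.Y773 (LI zz hasSum_log norm_zz_lt)

section

variable {K : Type} [Field K] [NumberField K]

/-- the Euler product over all primes -/
theorem hasProd_ideals {ψ : Ideal (𝓞 K) →*₀ ℂ} (hψ : ∀ 𝔞, ‖ψ 𝔞‖ ≤ 1) {s : ℂ} (hs : 1 < s.re) :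
    HasProd (fun 𝔭 : {𝔭 : Ideal (𝓞 K) // Prime 𝔭} =>
      (1 - ψ 𝔭 * ((Ideal.absNorm (𝔭 : Ideal (𝓞 K)) : ℕ) : ℂ) ^ (-s))⁻¹) (LI ψ s) := by
  have h1 := (hasSum_log hψ hs).cexp
  rw [← Pool.Agent.Y772.DK.LI_eq_exp ψ hψ hs] at h1
  refine h1.congr_fun fun 𝔭 => ?_
  have hz := norm_zz_lt hψ hs 𝔭.2
  have hne : 1 - zz ψ s 𝔭.1 ≠ 0 := by
    intro h0
    have h5 : zz ψ s 𝔭.1 = 1 := (sub_eq_zero.mp h0).symm
    rw [h5, norm_one] at hz
    exact lt_irrefl _ hz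
  change _ = Complex.exp (-Complex.log (1 - zz ψ s 𝔭.1))
  rw [Complex.exp_neg, Complex.exp_log hne]
  rfl

variable {G : Type} [CommGroup G] {S : Set (HeightOneSpectrum (𝓞 K))}

/-- `𝔞` is a nonzero ideal prime to the primes in `S` -/
def PrimeTo (S : Set (HeightOneSpectrum (𝓞 K))) (𝔞 : Ideal (𝓞 K)) : Prop :=
  𝔞 ≠ 0 ∧ ∀ v ∈ S, ¬ v.asIdeal ∣ 𝔞

theorem primeTo_mul (𝔞 𝔟 : Ideal (𝓞 K)) : PrimeTo S (𝔞 * 𝔟) ↔ PrimeTo S 𝔞 ∧ PrimeTo S 𝔟 := by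
  unfold PrimeTo
  constructor
  · rintro ⟨h1, h2⟩
    refine ⟨⟨left_ne_zero_of_mul h1, fun v hv h => h2 v hv (h.mul_right _)⟩,
      ⟨right_ne_zero_of_mul h1, fun v hv h => h2 v hv (h.mul_left _)⟩⟩
  · rintro ⟨⟨h1, h2⟩, ⟨h3, h4⟩⟩
    refine ⟨mul_ne_zero h1 h3, fun v hv h => ?_⟩
    rcases v.prime.dvd_or_dvd h with h5 | h5
    · exact h2 v hv h5
    · exact h4 v hv h5

theorem primeTo_one : PrimeTo S (1 : Ideal (𝓞 K)) :=
  ⟨one_ne_zero, fun v _ h => v.prime.not_isUnit (isUnit_of_dvd_one h)⟩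

theorem primeTo_iff (v : HeightOneSpectrum (𝓞 K)) : PrimeTo S v.asIdeal ↔ v ∉ S := by
  constructor
  · exact fun h hv => h.2 v hv dvd_rfl
  · intro h
    refine ⟨v.ne_bot, fun w hw hd => ?_⟩
    have h1 := (w.prime.dvd_prime_iff_associated v.prime).1 hd
    rw [associated_iff_eq] at h1
    exact h ((HeightOneSpectrum.ext h1) ▸ hw)

open Classical in
/-- the character of ideals -/
noncomputable def psi {cls : Ideal (𝓞 K) → G}
    (hc : ∀ 𝔞 𝔟, PrimeTo S 𝔞 → PrimeTo S 𝔟 → cls (𝔞 * 𝔟) = cls 𝔞 * cls 𝔟) (χ : G →* ℂˣ) :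
    Ideal (𝓞 K) →*₀ ℂ where
  toFun 𝔞 := if PrimeTo S 𝔞 then ((χ (cls 𝔞) : ℂˣ) : ℂ) else 0
  map_zero' := by
    rw [if_neg]
    exact fun h => h.1 rfl
  map_one' := by
    rw [if_pos primeTo_one]
    have h1 := hc 1 1 primeTo_one primeTo_one
    rw [mul_one] at h1
    rw [left_eq_mul.1 h1, map_one, Units.val_one]
  map_mul' 𝔞 𝔟 := by
    by_cases h1 : PrimeTo S 𝔞
    · by_cases h2 : PrimeTo S 𝔟
      · rw [if_pos h1, if_pos h2, if_pos ((primeTo_mul _ _).2 ⟨h1, h2⟩), hc _ _ h1 h2, map_mul,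
          Units.val_mul]
      · rw [if_neg h2, if_neg (fun h => h2 ((primeTo_mul _ _).1 h).2), mul_zero]
    · rw [if_neg h1, if_neg (fun h => h1 ((primeTo_mul _ _).1 h).1), zero_mul]

variable {cls : Ideal (𝓞 K) → G}

theorem norm_char [Finite G] (χ : G →* ℂˣ) (g : G) : ‖((χ g : ℂˣ) : ℂ)‖ = 1 := by
  have h1 : ((χ g : ℂˣ) : ℂ) ^ (Nat.card G) = 1 := by
    rw [← Units.val_pow_eq_pow_val, ← map_pow, pow_card_eq_one', map_one, Units.val_one]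
  exact Complex.norm_eq_one_of_pow_eq_one h1 Nat.card_pos.ne'

theorem norm_psi [Finite G]
    (hc : ∀ 𝔞 𝔟, PrimeTo S 𝔞 → PrimeTo S 𝔟 → cls (𝔞 * 𝔟) = cls 𝔞 * cls 𝔟) (χ : G →* ℂˣ)
    (𝔞 : Ideal (𝓞 K)) : ‖psi hc χ 𝔞‖ ≤ 1 := by
  classical
  change ‖if PrimeTo S 𝔞 then ((χ (cls 𝔞) : ℂˣ) : ℂ) else 0‖ ≤ 1
  split_ifs
  · rw [norm_char]
  · simp

/-- the Euler product over the primes outside `S` -/
theorem hasProd_psi [Finite G]
    (hc : ∀ 𝔞 𝔟, PrimeTo S 𝔞 → PrimeTo S 𝔟 → cls (𝔞 * 𝔟) = cls 𝔞 * cls 𝔟) (χ : G →* ℂˣ)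
    {s : ℂ} (hs : 1 < s.re) :
    HasProd (fun v : {v : HeightOneSpectrum (𝓞 K) | v ∉ S} =>
      (1 - ((χ (cls v.1.asIdeal) : ℂˣ) : ℂ) * ((Ideal.absNorm v.1.asIdeal : ℕ) : ℂ) ^ (-s))⁻¹)
      (LI (psi hc χ) s) := by
  classical
  have h1 := hasProd_ideals (norm_psi hc χ) hs
  let g : {v : HeightOneSpectrum (𝓞 K) | v ∉ S} → {𝔭 : Ideal (𝓞 K) // Prime 𝔭} :=
    fun v => ⟨v.1.asIdeal, v.1.prime⟩
  have hg : Function.Injective g := by
    intro v w h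
    have h2 : v.1.asIdeal = w.1.asIdeal := congrArg Subtype.val h
    exact Subtype.ext (HeightOneSpectrum.ext h2)
  rw [← hg.hasProd_iff] at h1
  · refine h1.congr_fun fun v => ?_
    have h3 : psi hc χ v.1.asIdeal = ((χ (cls v.1.asIdeal) : ℂˣ) : ℂ) := by
      change (if PrimeTo S v.1.asIdeal then ((χ (cls v.1.asIdeal) : ℂˣ) : ℂ) else 0) = _
      rw [if_pos ((primeTo_iff v.1).2 v.2)]
    simp only [Function.comp]
    rw [← h3]
  · intro 𝔭 h𝔭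
    have hP : 𝔭.1.IsPrime := Ideal.isPrime_of_prime 𝔭.2
    set w : HeightOneSpectrum (𝓞 K) := ⟨𝔭.1, hP, 𝔭.2.ne_zero⟩ with hw
    have h3 : ¬ PrimeTo S 𝔭.1 := by
      intro h4
      have h5 : w ∉ S := (primeTo_iff w).1 h4
      exact h𝔭 ⟨⟨w, h5⟩, rfl⟩
    have h4 : psi hc χ 𝔭.1 = 0 := by
      change (if PrimeTo S 𝔭.1 then ((χ (cls 𝔭.1) : ℂˣ) : ℂ) else 0) = _
      rw [if_neg h3]
    rw [h4, zero_mul, sub_zero, inv_one]

/-- the sum over the ideals in the class `g` -/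
noncomputable def psum' (S : Set (HeightOneSpectrum (𝓞 K))) (cls : Ideal (𝓞 K) → G) (g : G)
    (s : ℂ) : ℂ :=
  ∑' 𝔞 : {𝔞 : Ideal (𝓞 K) // PrimeTo S 𝔞 ∧ cls 𝔞 = g}, ((Ideal.absNorm 𝔞.1 : ℕ) : ℂ) ^ (-s)

omit [CommGroup G] in
open Classical in
theorem psum_summable {s : ℂ} (hs : 1 < s.re) (g : G) :
    Summable fun 𝔞 : Ideal (𝓞 K) => (if PrimeTo S 𝔞 ∧ cls 𝔞 = g then (1 : ℂ) else 0) *
      ((Ideal.absNorm 𝔞 : ℕ) : ℂ) ^ (-s) := by
  refine (Pool.Agent.Y772.DK.term_summable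
    (a := fun 𝔞 => if PrimeTo S 𝔞 ∧ cls 𝔞 = g then (1 : ℂ) else 0) ?_ ?_ hs).of_norm
  · exact if_neg fun h => h.1.1 rfl
  · intro 𝔞
    split_ifs <;> simp

/-- **the L-series is the combination of the partial zeta functions** -/
theorem LI_eq [Finite G]
    (hc : ∀ 𝔞 𝔟, PrimeTo S 𝔞 → PrimeTo S 𝔟 → cls (𝔞 * 𝔟) = cls 𝔞 * cls 𝔟) (χ : G →* ℂˣ)
    {s : ℂ} (hs : 1 < s.re) :
    LI (psi hc χ) s = ∑ᶠ g : G, ((χ g : ℂˣ) : ℂ) * psum' S cls g s := by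
  classical
  have : Fintype G := Fintype.ofFinite _
  rw [finsum_eq_sum_of_fintype]
  have h1 : ∀ g : G, psum' S cls g s = ∑' 𝔞 : Ideal (𝓞 K),
      (if PrimeTo S 𝔞 ∧ cls 𝔞 = g then (1 : ℂ) else 0) * ((Ideal.absNorm 𝔞 : ℕ) : ℂ) ^ (-s) := by
    intro g
    refine (tsum_subtype {𝔞 : Ideal (𝓞 K) | PrimeTo S 𝔞 ∧ cls 𝔞 = g}
      (fun 𝔞 => ((Ideal.absNorm 𝔞 : ℕ) : ℂ) ^ (-s))).trans ?_
    refine tsum_congr fun 𝔞 => ?_
    rw [Set.indicator_apply]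
    simp only [Set.mem_ofPred_eq]
    split_ifs <;> simp
  simp only [h1]
  simp_rw [← tsum_mul_left]
  rw [← Summable.tsum_finsetSum (fun g _ => (psum_summable hs g).mul_left _)]
  unfold LI
  refine tsum_congr fun 𝔞 => ?_
  change (if PrimeTo S 𝔞 then ((χ (cls 𝔞) : ℂˣ) : ℂ) else 0) * _ = _
  by_cases h : PrimeTo S 𝔞
  · rw [if_pos h, Finset.sum_eq_single (cls 𝔞)]
    · rw [if_pos ⟨h, rfl⟩, one_mul]
    · intro g _ hg
      rw [if_neg (fun h2 => hg h2.2.symm), zero_mul, mul_zero]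
    · exact fun h2 => absurd (Finset.mem_univ _) h2
  · rw [if_neg h, zero_mul]
    refine (Finset.sum_eq_zero fun g _ => ?_).symm
    rw [if_neg (fun h2 => h h2.1), zero_mul, mul_zero]

/-- the term of `W_χ(X)` at `(v, k)` -/
noncomputable def cterm (cls : Ideal (𝓞 K) → G) (s₀ : ℝ) (χ : G →* ℂˣ) (γ X : ℝ)
    (v : HeightOneSpectrum (𝓞 K)) (k : ℕ) : ℂ :=
  ((χ (cls v.asIdeal) : ℂˣ) : ℂ) ^ k / ((k : ℂ) * (((Ideal.absNorm v.asIdeal : ℝ) ^ s₀ : ℝ) : ℂ) ^ k) *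
    wt γ (k * Real.log (Ideal.absNorm v.asIdeal) / Real.log X)

/-- `W_χ(X)` -/
noncomputable def cW (S : Set (HeightOneSpectrum (𝓞 K))) (cls : Ideal (𝓞 K) → G) (s₀ : ℝ)
    (χ : G →* ℂˣ) (γ X : ℝ) : ℂ :=
  ∑' x : {v : HeightOneSpectrum (𝓞 K) // v ∉ S} × ℕ, cterm cls s₀ χ γ X x.1.1 (x.2 + 1)

/-- the matrices of a character -/
noncomputable def cmat (S : Set (HeightOneSpectrum (𝓞 K))) (cls : Ideal (𝓞 K) → G) (χ : G →* ℂˣ)
    (v : {v : HeightOneSpectrum (𝓞 K) | v ∉ S}) : Matrix (Fin 1) (Fin 1) ℂ :=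
  Matrix.diagonal fun _ => ((χ (cls v.1.asIdeal) : ℂˣ) : ℂ)

theorem eul_char [Finite G] (χ : G →* ℂˣ) :
    Eul 1 0 (fun v : {v : HeightOneSpectrum (𝓞 K) | v ∉ S} => (Ideal.absNorm v.1.asIdeal : ℝ))
      (cmat S cls χ) := by
  refine eul_alpha (α := fun v _ => ((χ (cls v.1.asIdeal) : ℂˣ) : ℂ)) fun v j => ?_
  rw [norm_char, Real.rpow_zero]

theorem cW_eq (s₀ : ℝ) (χ : G →* ℂˣ) (γ X : ℝ) :
    tot (fun v : {v : HeightOneSpectrum (𝓞 K) | v ∉ S} => (Ideal.absNorm v.1.asIdeal : ℝ))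
      (cmat S cls χ) s₀ γ X = cW S cls s₀ χ γ X := by
  refine tsum_congr fun x => ?_
  unfold tm cterm cmat
  rw [trace_diagonal_pow]
  simp

theorem cprod [Finite G]
    (hc : ∀ 𝔞 𝔟, PrimeTo S 𝔞 → PrimeTo S 𝔟 → cls (𝔞 * 𝔟) = cls 𝔞 * cls 𝔟) (χ : G →* ℂˣ)
    {s : ℂ} (hs : 1 < s.re) : LI (psi hc χ) s =
      ∏' v : {v : HeightOneSpectrum (𝓞 K) | v ∉ S},
        ((1 - (((Ideal.absNorm v.1.asIdeal : ℝ)) : ℂ) ^ (-s) • cmat S cls χ v).det)⁻¹ := by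
  rw [← (hasProd_psi hc χ hs).tprod_eq]
  refine tprod_congr fun v => ?_
  unfold cmat
  rw [det_diagonal_sub]
  simp

section dft

variable [Finite G]

/-- `a ↦ (χ ↦ ∑_g χ(g) a_g)` -/
noncomputable def dft (a : G → ℂ) (χ : G →* ℂˣ) : ℂ := ∑ᶠ g : G, ((χ g : ℂˣ) : ℂ) * a g

/-- `b ↦ (g ↦ |G|⁻¹ ∑_χ χ(g⁻¹) b_χ)` -/
noncomputable def dftinv (b : (G →* ℂˣ) → ℂ) (g : G) : ℂ :=
  (∑ᶠ χ : G →* ℂˣ, ((χ g⁻¹ : ℂˣ) : ℂ) * b χ) / Nat.card G

theorem dftinv_dft (a : G → ℂ) : dftinv (dft a) = a := by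
  classical
  have : Fintype G := Fintype.ofFinite _
  have : Fintype (G →* ℂˣ) := Fintype.ofFinite _
  funext g
  have hc : (Nat.card G : ℂ) ≠ 0 := by exact_mod_cast Nat.card_pos.ne'
  unfold dftinv dft
  simp only [finsum_eq_sum_of_fintype]
  rw [div_eq_iff hc]
  simp_rw [Finset.mul_sum]
  rw [Finset.sum_comm]
  have h1 : ∀ h : G, ∑ χ : G →* ℂˣ, ((χ g⁻¹ : ℂˣ) : ℂ) * (((χ h : ℂˣ) : ℂ) * a h) =
      (if h = g then (Nat.card G : ℂ) else 0) * a h := by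
    intro h
    have h2 := sum_chars (g⁻¹ * h)
    rw [finsum_eq_sum_of_fintype] at h2
    have h3 : (g⁻¹ * h = 1) ↔ (h = g) := by
      rw [inv_mul_eq_one]
      exact eq_comm
    simp only [h3] at h2
    rw [← h2, Finset.sum_mul]
    refine Finset.sum_congr rfl fun χ _ => ?_
    rw [map_mul, Units.val_mul]
    ring
  simp_rw [h1]
  rw [Finset.sum_eq_single g]
  · rw [if_pos rfl, mul_comm]
  · intro h _ hg
    rw [if_neg hg, zero_mul]
  · exact fun h2 => absurd (Finset.mem_univ _) h2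

theorem dft_dftinv (b : (G →* ℂˣ) → ℂ) : dft (dftinv b) = b := by
  classical
  have : Fintype G := Fintype.ofFinite _
  have : Fintype (G →* ℂˣ) := Fintype.ofFinite _
  let Fl : (G → ℂ) →ₗ[ℂ] ((G →* ℂˣ) → ℂ) :=
    { toFun := dft
      map_add' := fun a a' => by
        funext χ
        simp only [dft, finsum_eq_sum_of_fintype, Pi.add_apply]
        rw [← Finset.sum_add_distrib]
        exact Finset.sum_congr rfl fun g _ => by ring
      map_smul' := fun c a => by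
        funext χ
        simp only [dft, finsum_eq_sum_of_fintype, Pi.smul_apply, smul_eq_mul, RingHom.id_apply]
        rw [Finset.mul_sum]
        exact Finset.sum_congr rfl fun g _ => by ring }
  have hinj : Function.Injective Fl := fun a a' h => by
    rw [← dftinv_dft a, ← dftinv_dft a']
    exact congrArg dftinv h
  have hsurj : Function.Surjective Fl := by
    refine (LinearMap.injective_iff_surjective_of_finrank_eq_finrank ?_).1 hinj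
    rw [Module.finrank_fintype_fun_eq_card, Module.finrank_fintype_fun_eq_card,
      ← Nat.card_eq_fintype_card, ← Nat.card_eq_fintype_card, card_chars]
  obtain ⟨a, ha⟩ := hsurj b
  have ha' : dft a = b := ha
  rw [← ha', dftinv_dft]

theorem dft_tendsto {α : Type} {l : Filter α} {f : α → G → ℂ} {z : G → ℂ}
    (h : ∀ g, Tendsto (fun x => f x g) l (𝓝 (z g))) (χ : G →* ℂˣ) :
    Tendsto (fun x => dft (f x) χ) l (𝓝 (dft z χ)) := by
  have : Fintype G := Fintype.ofFinite _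
  unfold dft
  simp only [finsum_eq_sum_of_fintype]
  exact tendsto_finsetSum _ fun g _ => (h g).const_mul _

theorem dftinv_tendsto {α : Type} {l : Filter α} {f : α → (G →* ℂˣ) → ℂ} {z : (G →* ℂˣ) → ℂ}
    (h : ∀ χ, Tendsto (fun x => f x χ) l (𝓝 (z χ))) (g : G) :
    Tendsto (fun x => dftinv (f x) g) l (𝓝 (dftinv z g)) := by
  have : Fintype (G →* ℂˣ) := Fintype.ofFinite _
  unfold dftinv
  simp only [finsum_eq_sum_of_fintype]
  exact (tendsto_finsetSum _ fun χ _ => (h χ).const_mul _).div_const _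

theorem dft_mul (c : ℂ) (a : G → ℂ) (χ : G →* ℂˣ) : dft (fun g => c * a g) χ = c * dft a χ := by
  have : Fintype G := Fintype.ofFinite _
  unfold dft
  simp only [finsum_eq_sum_of_fintype]
  rw [Finset.mul_sum]
  exact Finset.sum_congr rfl fun g _ => by ring

theorem dftinv_mul (c : ℂ) (b : (G →* ℂˣ) → ℂ) (g : G) :
    dftinv (fun χ => c * b χ) g = c * dftinv b g := by
  have : Fintype (G →* ℂˣ) := Fintype.ofFinite _
  unfold dftinv
  simp only [finsum_eq_sum_of_fintype]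
  rw [← mul_div_assoc, Finset.mul_sum]
  congr 1
  exact Finset.sum_congr rfl fun g _ => by ring

end dft

/-- **Leading terms of partial zeta functions.** -/
theorem partial_main [Finite G]
    (hc : ∀ 𝔞 𝔟, PrimeTo S 𝔞 → PrimeTo S 𝔟 → cls (𝔞 * 𝔟) = cls 𝔞 * cls 𝔟) {ζ : G → ℂ → ℂ}
    (s₀ : ℝ) (hm : ∀ g, ∀ x ∈ Icc s₀ 1, MeromorphicAt (ζ g) (x : ℂ))
    (hζ : ∀ g, ∀ s : ℂ, 1 < s.re → ζ g s = psum' S cls g s) {γ : ℝ} (hγ : Real.pi / 2 < γ)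
    (r : ℤ) (z : G → ℂ) :
    ((∀ g, Tendsto (fun s : ℂ => ζ g s / (s - s₀) ^ r) (𝓝[≠] (s₀ : ℂ)) (𝓝 (z g))) ↔
      ∀ g, Tendsto (fun X : ℝ => (Real.log X : ℂ) ^ r *
        dftinv (fun χ => exp (cW S cls s₀ χ γ X)) g) atTop
        (𝓝 (exp (r * Pool.Agent.W187.UR.Lam γ) * z g))) ∧
    ((∀ g, Tendsto (fun s : ℂ => ζ g s / (s - s₀) ^ r) (𝓝[≠] (s₀ : ℂ)) (𝓝 (z g))) →
      ∀ g, (fun X : ℝ => (Real.log X : ℂ) ^ r * dftinv (fun χ => exp (cW S cls s₀ χ γ X)) g -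
        exp (r * Pool.Agent.W187.UR.Lam γ) * z g) =O[atTop] (fun X : ℝ => 1 / Real.log X)) := by
  have : Fintype G := Fintype.ofFinite _
  have : Fintype (G →* ℂˣ) := Fintype.ofFinite _
  set L : (G →* ℂˣ) → ℂ → ℂ := fun χ s => dft (fun g => ζ g s) χ with hL
  have hLm : ∀ χ, ∀ x ∈ Icc s₀ (1 + (0 : ℝ)), MeromorphicAt (L χ) (x : ℂ) := by
    intro χ x hx
    rw [add_zero] at hx
    have h1 : L χ = ∑ g : G, fun s => ((χ g : ℂˣ) : ℂ) * ζ g s := by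
      funext s
      rw [hL]
      simp only [dft, finsum_eq_sum_of_fintype, Finset.sum_apply]
    rw [h1]
    refine MeromorphicAt.sum fun g _ => ?_
    exact (MeromorphicAt.const _ _).mul (hm g x hx)
  have hLp : ∀ χ, ∀ s : ℂ, 1 + (0 : ℝ) < s.re → L χ s =
      ∏' v : {v : HeightOneSpectrum (𝓞 K) | v ∉ S},
        ((1 - (((Ideal.absNorm v.1.asIdeal : ℝ)) : ℂ) ^ (-s) • cmat S cls χ v).det)⁻¹ := by
    intro χ s hs
    rw [add_zero] at hs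
    rw [← cprod hc χ hs, LI_eq hc χ hs]
    have h1 : (fun g => ζ g s) = fun g => psum' S cls g s := funext fun g => hζ g s hs
    rw [hL]
    simp only [h1]
    rfl
  have key : ∀ χ (B : ℂ), Tendsto (fun s : ℂ => L χ s / (s - s₀) ^ r) (𝓝[≠] (s₀ : ℂ)) (𝓝 B) ↔
      Tendsto (fun X : ℝ => (Real.log X : ℂ) ^ r * exp (cW S cls s₀ χ γ X)) atTop
        (𝓝 (exp (r * Pool.Agent.W187.UR.Lam γ) * B)) := by
    intro χ B
    have h1 := (eul_char (S := S) (cls := cls) χ).lead_iff s₀ (hLm χ) (hLp χ) hγ r B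
    simp only [cW_eq] at h1
    exact h1
  have key2 : ∀ χ (B : ℂ), Tendsto (fun s : ℂ => L χ s / (s - s₀) ^ r) (𝓝[≠] (s₀ : ℂ)) (𝓝 B) →
      (fun X : ℝ => (Real.log X : ℂ) ^ r * exp (cW S cls s₀ χ γ X) -
        exp (r * Pool.Agent.W187.UR.Lam γ) * B) =O[atTop] (fun X : ℝ => 1 / Real.log X) := by
    intro χ B hB
    have h1 := (eul_char (S := S) (cls := cls) χ).lead_rate s₀ (hLm χ) (hLp χ) hγ hB
    simp only [cW_eq] at h1
    exact h1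
  have toL : (∀ g, Tendsto (fun s : ℂ => ζ g s / (s - s₀) ^ r) (𝓝[≠] (s₀ : ℂ)) (𝓝 (z g))) →
      ∀ χ, Tendsto (fun s : ℂ => L χ s / (s - s₀) ^ r) (𝓝[≠] (s₀ : ℂ)) (𝓝 (dft z χ)) := by
    intro h χ
    refine (dft_tendsto (f := fun s g => ζ g s / (s - s₀) ^ r) h χ).congr fun s => ?_
    rw [hL]
    simp only [dft, finsum_eq_sum_of_fintype]
    rw [Finset.sum_div]
    exact Finset.sum_congr rfl fun g _ => by rw [mul_div_assoc]
  have hmulr : ∀ (X : ℝ) (g : G), (Real.log X : ℂ) ^ r *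
      dftinv (fun χ => exp (cW S cls s₀ χ γ X)) g =
      dftinv (fun χ => (Real.log X : ℂ) ^ r * exp (cW S cls s₀ χ γ X)) g := by
    intro X g
    rw [dftinv_mul]
  refine ⟨⟨fun h g => ?_, fun h g => ?_⟩, fun h g => ?_⟩
  · have h1 := dftinv_tendsto (fun χ => (key χ _).1 (toL h χ)) g
    rw [dftinv_mul, dftinv_dft] at h1
    refine h1.congr fun X => ?_
    rw [hmulr]
  · have h1 : ∀ χ, Tendsto (fun s : ℂ => L χ s / (s - s₀) ^ r) (𝓝[≠] (s₀ : ℂ)) (𝓝 (dft z χ)) := by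
      intro χ
      rw [key]
      have h2 := dft_tendsto h χ
      rw [dft_mul] at h2
      refine h2.congr fun X => ?_
      rw [dft_mul, dft_dftinv]
    have h2 := dftinv_tendsto h1 g
    rw [dftinv_dft] at h2
    refine h2.congr fun s => ?_
    have h3 : (fun χ => L χ s / (s - (s₀ : ℂ)) ^ r) = fun χ => ((s - (s₀ : ℂ)) ^ r)⁻¹ * L χ s := by
      funext χ
      rw [div_eq_inv_mul]
    rw [h3, dftinv_mul]
    have h4 : (fun χ => L χ s) = dft fun g => ζ g s := rfl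
    rw [h4, dftinv_dft, div_eq_inv_mul]
  · have h1 : ∀ X : ℝ, (Real.log X : ℂ) ^ r * dftinv (fun χ => exp (cW S cls s₀ χ γ X)) g -
        exp (r * Pool.Agent.W187.UR.Lam γ) * z g =
        ∑ χ : G →* ℂˣ, (((χ g⁻¹ : ℂˣ) : ℂ) / Nat.card G) * ((Real.log X : ℂ) ^ r *
          exp (cW S cls s₀ χ γ X) - exp (r * Pool.Agent.W187.UR.Lam γ) * dft z χ) := by
      intro X
      have h2 : z g = dftinv (dft z) g := by rw [dftinv_dft]
      rw [h2]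
      simp only [dftinv, finsum_eq_sum_of_fintype]
      simp only [Finset.sum_div, Finset.mul_sum]
      rw [← Finset.sum_sub_distrib]
      refine Finset.sum_congr rfl fun χ _ => ?_
      ring
    refine Asymptotics.IsBigO.congr_left ?_ fun X => (h1 X).symm
    refine Asymptotics.IsBigO.fun_sum fun χ _ => ?_
    exact (key2 χ _ (toL h χ)).const_mul_left _

end

end Pool.Agent.V11288.LZ
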