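import Pool.Agent.V11288.LZ.Fin
import Pool.Agent.V11290.UL.Low

/-! Real coefficients: the refined law and the sharp transition at the right angle, at any real point. -/

set_option autoImplicit false

namespace Pool.Agent.V11288.LZ

open Complex Filter Topology Set
open Pool.Agent.W189.ML Pool.Agent.W189.LC Pool.Agent.W187.UR Pool.Agent.V11290.UL

variable {ι : Type} {lam a : ι → ℝ} {L : ℂ → ℂ} {s₀ σ : ℝ}

theorem order_scale (f : ℂ → ℂ) (s₀ : ℝ) {κ : ℝ} (hκ : κ ≠ 0) (x : ℝ) :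
    meromorphicOrderAt (fun w : ℂ => f (s₀ + (κ : ℂ) * w)) (x : ℂ) =
      meromorphicOrderAt f ((s₀ + κ * x : ℝ) : ℂ) := by
  have h1 : AnalyticAt ℂ (fun w : ℂ => (s₀ : ℂ) + (κ : ℂ) * w) (x : ℂ) := by fun_prop
  have h2 : HasDerivAt (fun w : ℂ => (s₀ : ℂ) + (κ : ℂ) * w) (κ : ℂ) (x : ℂ) := by
    have := ((hasDerivAt_id (x : ℂ)).const_mul (κ : ℂ)).const_add (s₀ : ℂ)
    simpa using this
  have h3 : deriv (fun w : ℂ => (s₀ : ℂ) + (κ : ℂ) * w) (x : ℂ) ≠ 0 := by
    rw [h2.deriv]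
    exact_mod_cast hκ
  have h4 := meromorphicOrderAt_comp_of_deriv_ne_zero (f := f) h1 h3
  have h5 : f ∘ (fun w : ℂ => (s₀ : ℂ) + (κ : ℂ) * w) = fun w : ℂ => f (s₀ + (κ : ℂ) * w) := rfl
  rw [h5] at h4
  rw [h4]
  congr 1
  push_cast
  ring

/-- the scaled data for real coefficients -/
theorem Dir.mdata (D : Dir lam (fun i => (a i : ℂ)) L s₀ σ) :
    MData (fun i => 2 * (σ - s₀) * lam i) (fun i => a i * Real.exp (-(s₀ * lam i)))
      (fun w => L (s₀ + (2 * (σ - s₀) : ℝ) * w)) := by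
  have C := D.cd
  have hc : (fun i => ((a i : ℝ) : ℂ) * exp (-(s₀ * lam i : ℝ))) =
      fun i => ((a i * Real.exp (-(s₀ * lam i)) : ℝ) : ℂ) := by
    funext i
    push_cast
    rfl
  rw [hc] at C
  refine ⟨C.lam_pos, fun x hx => ?_, fun x hx => C.mero' hx.1, fun w hw => C.eq w (by linarith)⟩
  refine (C.sum x (by linarith)).congr fun i => ?_
  rw [Complex.norm_real, Real.norm_eq_abs]

theorem Dir.order_right' (D : Dir lam (fun i => (a i : ℂ)) L s₀ σ) (x : ℝ) (hx : 1 / 2 < x) :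
    meromorphicOrderAt (fun w => L (s₀ + (2 * (σ - s₀) : ℝ) * w)) (x : ℂ) = 0 :=
  D.cd.order_right (by simpa using hx)

/-- the number of the zeros minus the number of the poles in `(s₀, σ]` -/
noncomputable def excess (L : ℂ → ℂ) (s₀ σ : ℝ) : ℤ :=
  ∑ᶠ x ∈ Ioc s₀ σ, (meromorphicOrderAt L (x : ℂ)).untop₀

theorem Dir.exc_eq (D : Dir lam (fun i => (a i : ℂ)) L s₀ σ) :
    exc (fun w => L (s₀ + (2 * (σ - s₀) : ℝ) * w)) = excess L s₀ σ := by
  have hκ : 0 < 2 * (σ - s₀) := by linarith [D.lt]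
  unfold exc excess
  have h1 : (∑ᶠ x ∈ Ioc (0 : ℝ) (1 / 2),
      (meromorphicOrderAt (fun w => L (s₀ + (2 * (σ - s₀) : ℝ) * w)) (x : ℂ)).untop₀) =
      ∑ᶠ x ∈ Ioc (0 : ℝ) (1 / 2),
        (meromorphicOrderAt L ((s₀ + 2 * (σ - s₀) * x : ℝ) : ℂ)).untop₀ := by
    refine finsum_mem_congr rfl fun x _ => ?_
    rw [order_scale L s₀ hκ.ne' x]
  rw [h1]
  have h3 : Ioc s₀ σ = (fun x : ℝ => s₀ + 2 * (σ - s₀) * x) '' Ioc (0 : ℝ) (1 / 2) := by
    ext y
    constructor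
    · rintro ⟨h4, h5⟩
      refine ⟨(y - s₀) / (2 * (σ - s₀)), ⟨div_pos (by linarith) hκ, ?_⟩, ?_⟩
      · rw [div_le_iff₀ hκ]
        linarith
      · simp only
        rw [mul_div_cancel₀ _ hκ.ne']
        ring
    · rintro ⟨x, ⟨h4, h5⟩, rfl⟩
      constructor
      · simp only
        nlinarith
      · simp only
        nlinarith
  have h4 : Function.Injective fun x : ℝ => s₀ + 2 * (σ - s₀) * x := by
    intro x y h
    simp only at h
    have h5 : 2 * (σ - s₀) * x = 2 * (σ - s₀) * y := by linarith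
    exact mul_left_cancel₀ hκ.ne' h5
  rw [h3, finsum_mem_image h4.injOn]

theorem Dir.wmean_c (D : Dir lam (fun i => (a i : ℂ)) L s₀ σ) (γ T : ℝ) :
    cmean (fun i => 2 * (σ - s₀) * lam i) (fun i => a i * Real.exp (-(s₀ * lam i))) γ
      (2 * (σ - s₀) * T) = wmean lam (fun i => (a i : ℂ)) s₀ γ T := by
  have hκ : 0 < 2 * (σ - s₀) := by linarith [D.lt]
  unfold cmean wmean
  refine tsum_congr fun i => ?_
  rw [mul_div_mul_left _ _ hκ.ne', mul_assoc]
  push_cast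
  rfl

theorem Dir.wmean_re (D : Dir lam (fun i => (a i : ℂ)) L s₀ σ) (γ : ℝ) {T : ℝ} (hT : 0 < T) :
    rmean (fun i => 2 * (σ - s₀) * lam i) (fun i => -(a i * Real.exp (-(s₀ * lam i)))) γ
      (2 * (σ - s₀) * T) = -(wmean lam (fun i => (a i : ℂ)) s₀ γ T).re := by
  have hκ : 0 < 2 * (σ - s₀) := by linarith [D.lt]
  unfold rmean wmean
  rw [Complex.re_tsum (D.wsummable γ hT).of_norm, ← tsum_neg]
  refine tsum_congr fun i => ?_
  have h1 : ((a i : ℝ) : ℂ) * exp (-(s₀ * lam i : ℝ)) =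
      ((a i * Real.exp (-(s₀ * lam i)) : ℝ) : ℂ) := by
    push_cast
    rfl
  rw [mul_div_mul_left _ _ hκ.ne', h1, Complex.re_ofReal_mul, Complex.re_mul_ofReal,
    Complex.exp_ofReal_mul_I_re]
  ring

/-- **the refined law for real coefficients** -/
theorem Dir.real_law [Countable ι] (D : Dir lam (fun i => (a i : ℂ)) L s₀ σ) {γ : ℝ}
    (hγ : Real.pi / 2 < γ) :
    ∃ (m : ℤ) (l : ℝ), l ≠ 0 ∧ meromorphicOrderAt L (s₀ : ℂ) = m ∧
      Tendsto (fun s : ℂ => L s / (s - s₀) ^ m) (𝓝[≠] (s₀ : ℂ)) (𝓝 l) ∧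
      (fun T : ℝ => wmean lam (fun i => (a i : ℂ)) s₀ γ T + m * (Real.log T - Lam γ) -
        (Real.log |l| - Real.pi * excess L s₀ σ * I)) =O[atTop] (fun T : ℝ => 1 / T) := by
  have hκ : 0 < 2 * (σ - s₀) := by linarith [D.lt]
  obtain ⟨m, l, h1, h2, hl, h3, -⟩ := mdata_law D.mdata D.order_right' hγ
  rw [D.exc_eq] at h3
  set κ : ℝ := 2 * (σ - s₀) with hκd
  have hκc : (κ : ℂ) ≠ 0 := by exact_mod_cast hκ.ne'
  have hmer : MeromorphicAt (fun w => L (s₀ + (κ : ℂ) * w)) 0 := by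
    have := D.mdata.mero 0 ⟨le_rfl, by norm_num⟩
    rwa [Complex.ofReal_zero] at this
  have h4 := (lead_iff hmer m (B := (l : ℂ)) (by exact_mod_cast hl)).1 ⟨h1, h2⟩
  have h5 : Tendsto (fun s : ℂ => (s - s₀) / κ) (𝓝[≠] (s₀ : ℂ)) (𝓝[≠] 0) := by
    refine tendsto_nhdsWithin_iff.2 ⟨?_, ?_⟩
    · have h6 : Continuous fun s : ℂ => (s - s₀) / κ := by fun_prop
      have h7 := (h6.tendsto (s₀ : ℂ)).mono_left (nhdsWithin_le_nhds (s := {(s₀ : ℂ)}ᶜ))
      simpa using h7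
    · filter_upwards [self_mem_nhdsWithin] with s hs
      simp only [mem_compl_iff, mem_singleton_iff] at hs ⊢
      exact div_ne_zero (sub_ne_zero.2 hs) hκc
  have h6 : Tendsto (fun s : ℂ => L s / (s - s₀) ^ m) (𝓝[≠] (s₀ : ℂ))
      (𝓝 ((l * (κ ^ m)⁻¹ : ℝ) : ℂ)) := by
    have h7 := (h4.comp h5).mul_const (((κ : ℂ) ^ m)⁻¹)
    have h8 : (l : ℂ) * ((κ : ℂ) ^ m)⁻¹ = ((l * (κ ^ m)⁻¹ : ℝ) : ℂ) := by push_cast; rfl
    rw [h8] at h7
    refine h7.congr fun s => ?_
    simp only [Function.comp, sub_zero]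
    have h9 : (s₀ : ℂ) + (κ : ℂ) * ((s - s₀) / κ) = s := by
      field_simp
      ring
    rw [h9, div_zpow]
    have h10 : (κ : ℂ) ^ m ≠ 0 := zpow_ne_zero _ hκc
    by_cases h11 : (s - s₀) ^ m = 0
    · rw [h11]; simp
    · field_simp
  have hκm : 0 < κ ^ m := zpow_pos hκ m
  have hl' : l * (κ ^ m)⁻¹ ≠ 0 := mul_ne_zero hl (inv_ne_zero hκm.ne')
  refine ⟨m, l * (κ ^ m)⁻¹, hl', ?_, h6, ?_⟩
  · exact ((lead_iff D.mero0 m (B := ((l * (κ ^ m)⁻¹ : ℝ) : ℂ)) (by exact_mod_cast hl')).2 h6).1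
  · have h7 : Tendsto (fun T : ℝ => κ * T) atTop atTop := tendsto_id.const_mul_atTop hκ
    have h8 := (h3.comp_tendsto h7).neg_left
    have h9 : ((fun T : ℝ => 1 / T) ∘ fun T : ℝ => κ * T) =O[atTop] (fun T : ℝ => 1 / T) := by
      refine Asymptotics.IsBigO.of_bound (1 / κ) ?_
      filter_upwards [eventually_gt_atTop 0] with T hT
      simp only [Function.comp]
      rw [Real.norm_of_nonneg (by positivity), Real.norm_of_nonneg (by positivity)]
      rw [div_mul_div_comm, one_mul]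
    refine (h8.trans h9).congr' ?_ (Eventually.of_forall fun _ => rfl)
    filter_upwards [eventually_gt_atTop 0] with T hT
    simp only [Function.comp]
    have h10 : Real.log |l * (κ ^ m)⁻¹| = Real.log |l| - m * Real.log κ := by
      rw [abs_mul, abs_of_pos (inv_pos.2 hκm), Real.log_mul (abs_ne_zero.2 hl)
        (inv_ne_zero hκm.ne'), Real.log_inv, Real.log_zpow]
      ring
    rw [D.wmean_c, Real.log_mul hκ.ne' hT.ne', h10]
    push_cast
    ring

theorem law_unique {g : ℝ → ℝ} {r ρ : ℤ} (h : ∃ C T₀ : ℝ, ∀ T ≥ T₀, |g T - r * Real.log T| ≤ C)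
    (h' : ∃ C T₀ : ℝ, ∀ T ≥ T₀, |g T - ρ * Real.log T| ≤ C) : r = ρ := by
  obtain ⟨D, T₀, h⟩ := h
  obtain ⟨D', T₀', h'⟩ := h'
  by_contra hne
  have hne2 : (1 : ℝ) ≤ |(ρ : ℝ) - r| := by
    have h3 : (1 : ℤ) ≤ |ρ - r| := Int.one_le_abs (sub_ne_zero.2 (Ne.symm hne))
    exact_mod_cast h3
  obtain ⟨T, h4, h5, h6⟩ := ((Real.tendsto_log_atTop.eventually
    (eventually_ge_atTop (D + D' + 1))).and ((eventually_ge_atTop T₀).and
      (eventually_ge_atTop T₀'))).exists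
  have h7 := h T h5
  have h8 := h' T h6
  have h9 : |((ρ : ℝ) - r) * Real.log T| ≤ D + D' := by
    have h10 : ((ρ : ℝ) - r) * Real.log T = (g T - r * Real.log T) - (g T - ρ * Real.log T) := by
      ring
    rw [h10]
    exact (abs_sub _ _).trans (add_le_add h7 h8)
  have h11 : 0 ≤ D + D' := (abs_nonneg _).trans h9
  rw [abs_mul, abs_of_nonneg (by linarith : 0 ≤ Real.log T)] at h9
  nlinarith

variable {Φ : ℂ → ℂ}

/-- rotations by less than a right angle, abstract form (adapted from `V11290.UL.Uni`) -/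
theorem mdata_low_iff [Countable ι] (D : MData lam a Φ) {m r : ℤ}
    (hm : meromorphicOrderAt Φ 0 = m) {γ : ℝ} (hγ : 0 ≤ γ) (hγ2 : γ < Real.pi / 2) :
    (∃ B T₀ : ℝ, ∀ T ≥ T₀, |rmean lam (fun i => -a i) γ T - r * Real.log T| ≤ B) ↔
      r = m ∧ ∀ x ∈ Ioc (0 : ℝ) 1, meromorphicOrderAt Φ (x : ℂ) = 0 := by
  constructor
  · rintro ⟨B, T₀, hB⟩
    have hz : ∀ x ∈ Ioc (0 : ℝ) 1, meromorphicOrderAt Φ (x : ℂ) = 0 := by
      by_contra hne
      obtain ⟨x₀, x₁, h3, h4, h5, h6, n, hn0, hn, h7⟩ := D.rightmost hne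
      have h8 := low_large D h5 h6 h4 hn0 hn h7 hγ hγ2 (y := 0) h3 (|(r : ℝ)| + |B|)
      have e1 : ∀ᶠ T : ℝ in atTop, Real.log T ≤ T := by
        filter_upwards [eventually_gt_atTop (0 : ℝ)] with T hT
        exact (Real.log_le_sub_one_of_pos hT).trans (by linarith)
      obtain ⟨T, h9, h10, h11, h12⟩ := (h8.and_eventually (e1.and ((eventually_ge_atTop T₀).and
        (eventually_ge_atTop (1 : ℝ))))).exists
      have h13 := hB T h11
      have hsg1 : |(n.sign : ℝ)| ≤ 1 := by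
        rcases Int.sign_trichotomy n with h | h | h <;> rw [h] <;> simp
      have hl0 : 0 ≤ Real.log T := Real.log_nonneg h12
      have h14 : |rmean lam (fun i => -a i) γ T| ≤ |B| + |(r : ℝ)| * T := by
        have h15 : rmean lam (fun i => -a i) γ T =
            (rmean lam (fun i => -a i) γ T - r * Real.log T) + r * Real.log T := by ring
        rw [h15]
        refine (abs_add_le _ _).trans (add_le_add (h13.trans (le_abs_self B)) ?_)
        rw [abs_mul, abs_of_nonneg hl0]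
        gcongr
      have h15 : (n.sign : ℝ) * rmean lam (fun i => -a i) γ T ≤ |B| + |(r : ℝ)| * T := by
        refine (le_abs_self _).trans ?_
        rw [abs_mul]
        calc |(n.sign : ℝ)| * |rmean lam (fun i => -a i) γ T| ≤
            1 * |rmean lam (fun i => -a i) γ T| := by gcongr
          _ ≤ _ := by rw [one_mul]; exact h14
      have h16 := Real.exp_pos (Real.exp (0 * T))
      have h17 := abs_nonneg B
      have h18 := abs_nonneg (r : ℝ)
      nlinarith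
    exact ⟨law_unique ⟨B, T₀, hB⟩ (low_full D hm hz hγ), hz⟩
  · rintro ⟨rfl, hz⟩
    exact low_full D hm hz hγ

/-- the bounded law in the variable `T` -/
def BddLaw (g : ℝ → ℝ) (r : ℤ) : Prop := ∃ C T₀ : ℝ, ∀ T ≥ T₀, |g T + r * Real.log T| ≤ C

theorem bdd_scale {g : ℝ → ℝ} {κ : ℝ} (hκ : 0 < κ) (r : ℤ) (f : ℝ → ℝ)
    (h : ∀ T : ℝ, 0 < T → f (κ * T) = -g T) :
    (∃ C T₀ : ℝ, ∀ T ≥ T₀, |f T - r * Real.log T| ≤ C) ↔ BddLaw g r := by
  constructor
  · rintro ⟨C, T₀, hC⟩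
    refine ⟨C + |(r : ℝ) * Real.log κ|, max (T₀ / κ) 1, fun T hT => ?_⟩
    have hT1 : 1 ≤ T := (le_max_right _ _).trans hT
    have hT0 : 0 < T := by linarith
    have h1 : T₀ ≤ κ * T := by
      have := (le_max_left _ _).trans hT
      rwa [div_le_iff₀' hκ] at this
    have h2 := hC _ h1
    rw [h T hT0, Real.log_mul hκ.ne' hT0.ne'] at h2
    have h3 : g T + r * Real.log T = -(-g T - r * (Real.log κ + Real.log T)) + -(r * Real.log κ) := by
      ring
    rw [h3]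
    refine (abs_add_le _ _).trans ?_
    rw [abs_neg, abs_neg]
    linarith
  · rintro ⟨C, T₀, hC⟩
    refine ⟨C + |(r : ℝ) * Real.log κ|, κ * max T₀ 1, fun T hT => ?_⟩
    have h1 : max T₀ 1 ≤ T / κ := by
      rw [le_div_iff₀' hκ]
      exact hT
    have hT1 : 1 ≤ T / κ := (le_max_right _ _).trans h1
    have hT0 : 0 < T / κ := by linarith
    have hT : 0 < T := by
      have := (div_pos_iff_of_pos_right hκ).1 hT0
      exact this
    have h2 := hC _ ((le_max_left _ _).trans h1)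
    have h3 : κ * (T / κ) = T := by field_simp
    have h4 := h _ hT0
    rw [h3] at h4
    rw [Real.log_div hT.ne' hκ.ne'] at h2
    rw [h4]
    have h5 : -g (T / κ) - r * Real.log T =
        -(g (T / κ) + r * (Real.log T - Real.log κ)) + -(r * Real.log κ) := by ring
    rw [h5]
    refine (abs_add_le _ _).trans ?_
    rw [abs_neg, abs_neg]
    linarith

/-- **rotations by less than a right angle** -/
theorem Dir.low_iff [Countable ι] (D : Dir lam (fun i => (a i : ℂ)) L s₀ σ) (r : ℤ) {γ : ℝ}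
    (hγ : 0 ≤ γ) (hγ2 : γ < Real.pi / 2) :
    BddLaw (fun T => (wmean lam (fun i => (a i : ℂ)) s₀ γ T).re) r ↔
      meromorphicOrderAt L (s₀ : ℂ) = r ∧
        ∀ x ∈ Ioc s₀ σ, meromorphicOrderAt L (x : ℂ) = 0 := by
  have hκ : 0 < 2 * (σ - s₀) := by linarith [D.lt]
  obtain ⟨m, hm⟩ := WithTop.ne_top_iff_exists.1 (D.mdata.order_ne_top (x := 0) ⟨le_rfl, by norm_num⟩)
  have hm0 : meromorphicOrderAt L (s₀ : ℂ) = m := by
    rw [hm, order_scale L s₀ hκ.ne' 0]
    congr 1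
    push_cast
    ring
  rw [Complex.ofReal_zero] at hm
  rw [← bdd_scale hκ r _ fun T hT => D.wmean_re γ hT, mdata_low_iff D.mdata hm.symm hγ hγ2, hm0]
  have h1 : r = m ↔ ((m : WithTop ℤ) = (r : WithTop ℤ)) := by
    constructor
    · rintro rfl; rfl
    · intro h; exact_mod_cast h.symm
  rw [h1]
  refine and_congr_right fun _ => ⟨fun h x hx => ?_, fun h x hx => ?_⟩
  · have h2 := h ((x - s₀) / (2 * (σ - s₀))) ⟨div_pos (by linarith [hx.1]) hκ, by
      rw [div_le_one hκ]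
      linarith [hx.2, D.lt]⟩
    rw [order_scale L s₀ hκ.ne'] at h2
    have h3 : s₀ + 2 * (σ - s₀) * ((x - s₀) / (2 * (σ - s₀))) = x := by
      rw [mul_div_cancel₀ _ hκ.ne']
      ring
    rwa [h3] at h2
  · rcases le_or_gt x (1 / 2) with h2 | h2
    · rw [order_scale L s₀ hκ.ne']
      refine h _ ⟨?_, ?_⟩
      · nlinarith [hx.1]
      · nlinarith [hx.1]
    · exact D.order_right' x h2

/-- **rotations by more than a right angle** -/
theorem Dir.high_iff [Countable ι] (D : Dir lam (fun i => (a i : ℂ)) L s₀ σ) (r : ℤ) {γ : ℝ}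
    (hγ : Real.pi / 2 < γ) :
    BddLaw (fun T => (wmean lam (fun i => (a i : ℂ)) s₀ γ T).re) r ↔
      meromorphicOrderAt L (s₀ : ℂ) = r := by
  obtain ⟨m, l, hl, hm, -, hO⟩ := D.real_law hγ
  have hb : BddLaw (fun T => (wmean lam (fun i => (a i : ℂ)) s₀ γ T).re) m := by
    obtain ⟨B, hB⟩ := hO.bound
    obtain ⟨T₁, hT₁⟩ := eventually_atTop.1 hB
    refine ⟨|B| + ‖(m : ℂ) * Lam γ + (Real.log |l| - Real.pi * excess L s₀ σ * I)‖, max T₁ 1,
      fun T hT => ?_⟩
    have hT1 : 1 ≤ T := (le_max_right _ _).trans hT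
    have hT0 : 0 < T := by linarith
    have h1 := hT₁ T ((le_max_left _ _).trans hT)
    have h2 : (wmean lam (fun i => (a i : ℂ)) s₀ γ T).re + m * Real.log T =
        ((wmean lam (fun i => (a i : ℂ)) s₀ γ T + m * (Real.log T - Lam γ) -
        (Real.log |l| - Real.pi * excess L s₀ σ * I)) +
        ((m : ℂ) * Lam γ + (Real.log |l| - Real.pi * excess L s₀ σ * I))).re := by
      have h3 : (wmean lam (fun i => (a i : ℂ)) s₀ γ T + m * (Real.log T - Lam γ) -
        (Real.log |l| - Real.pi * excess L s₀ σ * I)) +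
        ((m : ℂ) * Lam γ + (Real.log |l| - Real.pi * excess L s₀ σ * I)) =
        wmean lam (fun i => (a i : ℂ)) s₀ γ T + ((m * Real.log T : ℝ) : ℂ) := by
        push_cast
        ring
      rw [h3, Complex.add_re, Complex.ofReal_re]
    rw [h2]
    refine (Complex.abs_re_le_norm _).trans ((norm_add_le _ _).trans ?_)
    gcongr
    refine h1.trans ?_
    rw [Real.norm_eq_abs, abs_of_pos (by positivity : 0 < 1 / T)]
    calc B * (1 / T) ≤ |B| * (1 / T) := by
          gcongr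
          exact le_abs_self B
      _ ≤ |B| * 1 := by
          gcongr
          rw [div_le_one hT0]
          exact hT1
      _ = |B| := mul_one _
  have hflip : ∀ k : ℤ, BddLaw (fun T => (wmean lam (fun i => (a i : ℂ)) s₀ γ T).re) k →
      ∃ C T₀ : ℝ, ∀ T ≥ T₀, |-(wmean lam (fun i => (a i : ℂ)) s₀ γ T).re - k * Real.log T| ≤ C := by
    rintro k ⟨C, T₀, h⟩
    refine ⟨C, T₀, fun T hT => ?_⟩
    have h1 := h T hT
    rw [← abs_neg]
    convert h1 using 2
    ring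
  rw [hm]
  constructor
  · intro h
    have := law_unique (hflip r h) (hflip m hb)
    rw [this]
  · intro h
    have h1 : m = r := by exact_mod_cast h
    rwa [h1] at hb

/-- **the growth** -/
theorem Dir.low_growth [Countable ι] (D : Dir lam (fun i => (a i : ℂ)) L s₀ σ) {x₁ : ℝ}
    (hx₁ : s₀ < x₁) {m : ℤ} (hm0 : m ≠ 0) (hm : meromorphicOrderAt L (x₁ : ℂ) = m)
    (hz : ∀ x : ℝ, x₁ < x → meromorphicOrderAt L (x : ℂ) = 0) {γ : ℝ} (hγ : 0 ≤ γ)
    (hγ2 : γ < Real.pi / 2) {y : ℝ} (hy : y < x₁ - s₀) :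
    ∃ᶠ T : ℝ in atTop, Real.exp (Real.exp (y * T)) ≤
      -(m.sign : ℝ) * (wmean lam (fun i => (a i : ℂ)) s₀ γ T).re := by
  have hκ : 0 < 2 * (σ - s₀) := by linarith [D.lt]
  have hsc : ∀ x : ℝ, s₀ + 2 * (σ - s₀) * ((x - s₀) / (2 * (σ - s₀))) = x := by
    intro x
    rw [mul_div_cancel₀ _ hκ.ne']
    ring
  set z : ℝ := (x₁ - s₀) / (2 * (σ - s₀)) with hzd
  have hz0 : 0 < z := div_pos (by linarith) hκ
  have hmz : meromorphicOrderAt (fun w => L (s₀ + (2 * (σ - s₀) : ℝ) * w)) (z : ℂ) = m := by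
    rw [order_scale L s₀ hκ.ne', hsc, hm]
  have hz1 : z ≤ 1 := by
    by_contra h
    push Not at h
    rw [D.order_right' z (by linarith)] at hmz
    exact hm0 (by exact_mod_cast hmz.symm)
  obtain ⟨x₀', x₂, h3, h4, h5, h6, m', hm0', hm', h7⟩ := D.mdata.rightmost (fun h => by
    have := h z ⟨hz0, hz1⟩
    rw [hmz] at this
    exact hm0 (by exact_mod_cast this))
  have hxx : x₀' = z := by
    rcases lt_trichotomy x₀' z with h | h | h
    · exfalso
      have h8 := h7 z ⟨by linarith, by linarith⟩ (by linarith)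
      rw [hmz] at h8
      exact hm0 (by exact_mod_cast h8)
    · exact h
    · exfalso
      have h8 : meromorphicOrderAt L ((s₀ + 2 * (σ - s₀) * x₀' : ℝ) : ℂ) = 0 := by
        refine hz _ ?_
        rw [hzd, div_lt_iff₀ hκ] at h
        linarith
      rw [order_scale L s₀ hκ.ne', h8] at hm'
      exact hm0' (by exact_mod_cast hm'.symm)
  subst hxx
  have hmm : m' = m := by
    rw [hmz] at hm'
    exact (by exact_mod_cast hm'.symm)
  subst hmm
  have hy' : y / (2 * (σ - s₀)) < z := by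
    rw [hzd]
    gcongr
  have h8 := low_large D.mdata h5 h6 h4 hm0' hm' h7 hγ hγ2 hy' 0
  have e1 : Tendsto (fun T : ℝ => T / (2 * (σ - s₀))) atTop atTop := tendsto_id.atTop_div_const hκ
  refine e1.frequently ((h8.and_eventually (eventually_gt_atTop 0)).mono ?_)
  rintro T ⟨h9, hT⟩
  have hT' : 0 < T / (2 * (σ - s₀)) := div_pos hT hκ
  have h10 := D.wmean_re γ hT'
  have h11 : 2 * (σ - s₀) * (T / (2 * (σ - s₀))) = T := mul_div_cancel₀ _ hκ.ne'
  rw [h11] at h10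
  rw [h10] at h9
  have h12 : y * (T / (2 * (σ - s₀))) = y / (2 * (σ - s₀)) * T := by ring
  rw [h12]
  simp only [zero_mul, add_zero] at h9
  refine h9.trans (le_of_eq ?_)
  ring

end Pool.Agent.V11288.LZ
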