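import Pool.Agent.V11288.LZ.Real

/-! Euler products with real traces: the final form. -/

set_option autoImplicit false

namespace Pool.Agent.V11288.LZ

open Complex Filter Topology Set
open Pool.Agent.W189.ML Pool.Agent.W189.LC Pool.Agent.W187.UR Pool.Agent.V11290.UL
open Pool.Agent.V11288.QU

variable {P : Type} {n : ℕ} {e θ : ℝ} {q : P → ℝ} {A : P → Matrix (Fin n) (Fin n) ℂ}

/-- the real term -/
noncomputable def rtm (q : P → ℝ) (A : P → Matrix (Fin n) (Fin n) ℂ) (s₀ γ X : ℝ) (i : P × ℕ) : ℝ :=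
  (A i.1 ^ (i.2 + 1)).trace.re / (((i.2 + 1 : ℕ) : ℝ) * (q i.1 ^ s₀) ^ (i.2 + 1)) *
    (Real.cos (γ * (((i.2 + 1 : ℕ) : ℝ) * Real.log (q i.1) / Real.log X)) /
      Real.Gamma (1 + ((i.2 + 1 : ℕ) : ℝ) * Real.log (q i.1) / Real.log X))

/-- the real sum -/
noncomputable def vot (q : P → ℝ) (A : P → Matrix (Fin n) (Fin n) ℂ) (s₀ γ X : ℝ) : ℝ :=
  ∑' i, rtm q A s₀ γ X i

/-- the real coefficients -/
noncomputable def aE (A : P → Matrix (Fin n) (Fin n) ℂ) (i : P × ℕ) : ℝ :=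
  (A i.1 ^ (i.2 + 1)).trace.re / ((i.2 : ℝ) + 1)

theorem cE_real (h : ∀ v (k : ℕ), (A v ^ k).trace.im = 0) : cE A = fun i => (aE A i : ℂ) := by
  funext i
  unfold cE aE
  rw [← trace_pow]
  have h1 : (A i.1 ^ (i.2 + 1)).trace = (((A i.1 ^ (i.2 + 1)).trace.re : ℝ) : ℂ) := by
    apply Complex.ext
    · simp
    · rw [h, Complex.ofReal_im]
  rw [h1]
  push_cast
  rfl

theorem rtm_eq (h : ∀ v (k : ℕ), (A v ^ k).trace.im = 0) (s₀ γ X : ℝ) (i : P × ℕ) :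
    rtm q A s₀ γ X i = (tm q A s₀ γ X i).re := by
  have h1 : (A i.1 ^ (i.2 + 1)).trace = (((A i.1 ^ (i.2 + 1)).trace.re : ℝ) : ℂ) := by
    apply Complex.ext
    · simp
    · rw [h, Complex.ofReal_im]
  unfold rtm tm wt
  rw [h1]
  have h2 : ((((A i.1 ^ (i.2 + 1)).trace.re : ℝ) : ℂ)) /
      (((i.2 + 1 : ℕ) : ℂ) * ((q i.1 ^ s₀ : ℝ) : ℂ) ^ (i.2 + 1)) =
      (((A i.1 ^ (i.2 + 1)).trace.re / (((i.2 + 1 : ℕ) : ℝ) * (q i.1 ^ s₀) ^ (i.2 + 1)) : ℝ) : ℂ) := by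
    push_cast
    rfl
  rw [h2, Complex.re_ofReal_mul, Complex.div_ofReal_re, Complex.exp_ofReal_mul_I_re]
  simp only [Complex.ofReal_re]

theorem Eul.vot_eq (E : Eul e θ q A) (h : ∀ v (k : ℕ), (A v ^ k).trace.im = 0) {L : ℂ → ℂ} {s₀ σ : ℝ}
    (D : Dir (lamE q) (cE A) L s₀ σ) (γ : ℝ) {X : ℝ} (hX : 1 < X) :
    vot q A s₀ γ X = (wmean (lamE q) (cE A) s₀ γ (Real.log X)).re := by
  rw [← E.tot_eq]
  unfold vot tot
  have h1 : Summable fun i => ‖tm q A s₀ γ X i‖ := by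
    refine (D.wsummable γ (Real.log_pos hX)).congr fun i => ?_
    rw [E.tm_eq]
  rw [Complex.re_tsum h1.of_norm]
  exact tsum_congr fun i => rtm_eq h s₀ γ X i

/-- `g(X) + r log log X` is bounded for large `X` -/
def BddX (g : ℝ → ℝ) (r : ℤ) : Prop :=
  ∃ C X₀ : ℝ, ∀ X ≥ X₀, |g X + r * Real.log (Real.log X)| ≤ C

theorem bddX_iff {g f : ℝ → ℝ} (r : ℤ) (h : ∀ X : ℝ, 1 < X → g X = f (Real.log X)) :
    BddX g r ↔ BddLaw f r := by
  constructor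
  · rintro ⟨C, X₀, hC⟩
    refine ⟨C, max 1 X₀, fun T hT => ?_⟩
    have h1 : 1 ≤ T := (le_max_left _ _).trans hT
    have h2 : X₀ ≤ Real.exp T := ((le_max_right _ _).trans hT).trans
      ((by linarith [Real.add_one_le_exp T]))
    have h3 := hC _ h2
    rwa [h _ (by rw [← Real.exp_zero]; exact Real.exp_lt_exp.2 (by linarith)), Real.log_exp] at h3
  · rintro ⟨C, T₀, hC⟩
    refine ⟨C, max 2 (Real.exp T₀), fun X hX => ?_⟩
    have h1 : 2 ≤ X := (le_max_left _ _).trans hX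
    have h2 : T₀ ≤ Real.log X := by
      rw [Real.le_log_iff_exp_le (by linarith)]
      exact (le_max_right _ _).trans hX
    rw [h X (by linarith)]
    exact hC _ h2

/-- the number of the zeros minus the number of the poles in `(s₀, ∞)` -/
noncomputable def excessR (L : ℂ → ℂ) (s₀ : ℝ) : ℤ :=
  ∑ᶠ x ∈ Ioi s₀, (meromorphicOrderAt L (x : ℂ)).untop₀

/-- **The theorem for Euler products with real traces.** -/
theorem Eul.real [Countable P] (E : Eul e θ q A) (h : ∀ v (k : ℕ), (A v ^ k).trace.im = 0)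
    {L : ℂ → ℂ} (s₀ : ℝ)
    (hL : ∀ x ∈ Icc s₀ (e + θ), MeromorphicAt L (x : ℂ))
    (hp : ∀ s : ℂ, e + θ < s.re → L s = ∏' v, ((1 - (q v : ℂ) ^ (-s) • A v).det)⁻¹) :
    (∀ γ : ℝ, Real.pi / 2 < γ → ∃ (m : ℤ) (l : ℝ), l ≠ 0 ∧ meromorphicOrderAt L (s₀ : ℂ) = m ∧
      Tendsto (fun s : ℂ => L s / (s - s₀) ^ m) (𝓝[≠] (s₀ : ℂ)) (𝓝 l) ∧
      (fun X : ℝ => tot q A s₀ γ X + m * (Real.log (Real.log X) - Lam γ) -
        (Real.log |l| - Real.pi * excessR L s₀ * I)) =O[atTop] (fun X : ℝ => 1 / Real.log X)) ∧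
    (∀ (γ : ℝ) (r : ℤ), Real.pi / 2 < γ →
      (BddX (vot q A s₀ γ) r ↔ meromorphicOrderAt L (s₀ : ℂ) = r)) ∧
    (∀ (γ : ℝ) (r : ℤ), 0 ≤ γ → γ < Real.pi / 2 →
      (BddX (vot q A s₀ γ) r ↔ meromorphicOrderAt L (s₀ : ℂ) = r ∧
        ∀ x : ℝ, s₀ < x → meromorphicOrderAt L (x : ℂ) = 0)) ∧
    ∀ (γ : ℝ), 0 ≤ γ → γ < Real.pi / 2 → ∀ (x₁ : ℝ) (m : ℤ), s₀ < x₁ → m ≠ 0 →
      meromorphicOrderAt L (x₁ : ℂ) = m → (∀ x : ℝ, x₁ < x → meromorphicOrderAt L (x : ℂ) = 0) →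
      ∀ y : ℝ, y < x₁ - s₀ →
      ∃ᶠ X : ℝ in atTop, Real.exp (X ^ y) ≤ -(m.sign : ℝ) * vot q A s₀ γ X := by
  have D := E.dir' s₀ hL hp
  have D' := D
  rw [cE_real h] at D'
  have hright : ∀ x : ℝ, max (e + θ) (s₀ + 1) < x → meromorphicOrderAt L (x : ℂ) = 0 := by
    intro x hx
    have hκ : 0 < 2 * (max (e + θ) (s₀ + 1) - s₀) := by linarith [D.lt]
    have h1 := D'.order_right' ((x - s₀) / (2 * (max (e + θ) (s₀ + 1) - s₀))) (by
      rw [lt_div_iff₀ hκ]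
      linarith)
    rw [order_scale L s₀ hκ.ne', mul_div_cancel₀ _ hκ.ne'] at h1
    have h2 : s₀ + (x - s₀) = x := by ring
    rwa [h2] at h1
  have hexc : excess L s₀ (max (e + θ) (s₀ + 1)) = excessR L s₀ := by
    unfold excess excessR
    refine finsum_mem_inter_support_eq' _ _ _ fun x hx => ?_
    rw [Function.mem_support] at hx
    constructor
    · exact fun h1 => h1.1
    · intro h1
      refine ⟨h1, ?_⟩
      by_contra h3
      push Not at h3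
      rw [hright x h3] at hx
      exact hx rfl
  have hvot : ∀ (γ : ℝ) (X : ℝ), 1 < X → vot q A s₀ γ X =
      (wmean (lamE q) (fun i => (aE A i : ℂ)) s₀ γ (Real.log X)).re := by
    intro γ X hX
    rw [E.vot_eq h D γ hX, cE_real h]
  refine ⟨fun γ hγ => ?_, fun γ r hγ => ?_, fun γ r hγ hγ2 => ?_, fun γ hγ hγ2 x₁ m hx₁ hm0 hm hz y
    hy => ?_⟩
  · obtain ⟨m, l, h1, h2, h3, h4⟩ := D'.real_law hγ
    refine ⟨m, l, h1, h2, h3, ?_⟩
    have h5 := h4.comp_tendsto Real.tendsto_log_atTop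
    refine h5.congr' (Eventually.of_forall fun X => ?_) (Eventually.of_forall fun X => rfl)
    simp only [Function.comp]
    rw [E.tot_eq, cE_real h, hexc]
  · rw [bddX_iff r (f := fun T => (wmean (lamE q) (fun i => (aE A i : ℂ)) s₀ γ T).re)
      fun X hX => hvot γ X hX, D'.high_iff r hγ]
  · rw [bddX_iff r (f := fun T => (wmean (lamE q) (fun i => (aE A i : ℂ)) s₀ γ T).re)
      fun X hX => hvot γ X hX, D'.low_iff r hγ hγ2]
    refine and_congr_right fun _ => ⟨fun h1 x hx => ?_, fun h1 x hx => h1 x hx.1⟩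
    rcases le_or_gt x (max (e + θ) (s₀ + 1)) with h2 | h2
    · exact h1 x ⟨hx, h2⟩
    · exact hright x h2
  · have h1 := D'.low_growth hx₁ hm0 hm hz hγ hγ2 hy
    refine Real.tendsto_exp_atTop.frequently ((h1.and_eventually
      (eventually_gt_atTop (0 : ℝ))).mono ?_)
    rintro T ⟨h2, hT⟩
    rw [hvot γ _ (by rw [← Real.exp_zero]; exact Real.exp_lt_exp.2 hT), Real.log_exp,
      ← Real.exp_mul, mul_comm T y]
    exact h2

end Pool.Agent.V11288.LZ
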