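import Pool.Agent.V11288.LZ.Part

/-! Equivariant leading terms: families of L-series of the characters of a finite abelian group. -/

set_option autoImplicit false

namespace Pool.Agent.V11288.LZ

open Complex Filter Topology Set NumberField IsDedekindDomain

variable {K : Type} [Field K] [NumberField K] {G : Type} [CommGroup G] [Finite G]
  {S : Set (HeightOneSpectrum (𝓞 K))}

/-- the term of `W_χ(X)` at `(v, k)` -/
noncomputable def fterm (fr : HeightOneSpectrum (𝓞 K) → G) (s₀ : ℝ) (χ : G →* ℂˣ) (γ X : ℝ)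
    (v : HeightOneSpectrum (𝓞 K)) (k : ℕ) : ℂ :=
  ((χ (fr v) : ℂˣ) : ℂ) ^ k / ((k : ℂ) * (((Ideal.absNorm v.asIdeal : ℝ) ^ s₀ : ℝ) : ℂ) ^ k) *
    wt γ (k * Real.log (Ideal.absNorm v.asIdeal) / Real.log X)

/-- `W_χ(X)` -/
noncomputable def fW (S : Set (HeightOneSpectrum (𝓞 K))) (fr : HeightOneSpectrum (𝓞 K) → G)
    (s₀ : ℝ) (χ : G →* ℂˣ) (γ X : ℝ) : ℂ :=
  ∑' x : {v : HeightOneSpectrum (𝓞 K) // v ∉ S} × ℕ, fterm fr s₀ χ γ X x.1.1 (x.2 + 1)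

/-- the matrices of a character -/
noncomputable def fmat (S : Set (HeightOneSpectrum (𝓞 K))) (fr : HeightOneSpectrum (𝓞 K) → G)
    (χ : G →* ℂˣ) (v : {v : HeightOneSpectrum (𝓞 K) | v ∉ S}) : Matrix (Fin 1) (Fin 1) ℂ :=
  Matrix.diagonal fun _ => ((χ (fr v.1) : ℂˣ) : ℂ)

variable {fr : HeightOneSpectrum (𝓞 K) → G}

theorem eul_fr (χ : G →* ℂˣ) :
    Eul 1 0 (fun v : {v : HeightOneSpectrum (𝓞 K) | v ∉ S} => (Ideal.absNorm v.1.asIdeal : ℝ))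
      (fmat S fr χ) := by
  refine eul_alpha (α := fun v _ => ((χ (fr v.1) : ℂˣ) : ℂ)) fun v j => ?_
  rw [norm_char, Real.rpow_zero]

omit [Finite G] in
theorem fW_eq (s₀ : ℝ) (χ : G →* ℂˣ) (γ X : ℝ) :
    tot (fun v : {v : HeightOneSpectrum (𝓞 K) | v ∉ S} => (Ideal.absNorm v.1.asIdeal : ℝ))
      (fmat S fr χ) s₀ γ X = fW S fr s₀ χ γ X := by
  refine tsum_congr fun x => ?_
  unfold tm fterm fmat
  rw [trace_diagonal_pow]
  simp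

omit [Finite G] in
theorem fprod (χ : G →* ℂˣ) (s : ℂ) :
    ∏' v : {v : HeightOneSpectrum (𝓞 K) | v ∉ S},
      ((1 - (((Ideal.absNorm v.1.asIdeal : ℝ)) : ℂ) ^ (-s) • fmat S fr χ v).det)⁻¹ =
    ∏' v : {v : HeightOneSpectrum (𝓞 K) | v ∉ S},
      (1 - ((χ (fr v.1) : ℂˣ) : ℂ) * ((Ideal.absNorm v.1.asIdeal : ℕ) : ℂ) ^ (-s))⁻¹ := by
  refine tprod_congr fun v => ?_
  unfold fmat
  rw [det_diagonal_sub]
  simp

/-- **Equivariant leading terms.** `L χ = F χ ·` (Euler product), `F χ` analytic and nonzero at `s₀`. -/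
theorem equi_main {L F : (G →* ℂˣ) → ℂ → ℂ} (s₀ : ℝ)
    (hm : ∀ χ, ∀ x ∈ Icc s₀ 1, MeromorphicAt (L χ) (x : ℂ))
    (hF : ∀ χ, ∀ x : ℝ, AnalyticAt ℂ (F χ) (x : ℂ)) (hF0 : ∀ χ, F χ s₀ ≠ 0)
    (hF1 : ∀ χ (s : ℂ), 1 < s.re → F χ s ≠ 0)
    (hp : ∀ χ (s : ℂ), 1 < s.re → L χ s = F χ s * ∏' v : {v : HeightOneSpectrum (𝓞 K) | v ∉ S},
      (1 - ((χ (fr v.1) : ℂˣ) : ℂ) * ((Ideal.absNorm v.1.asIdeal : ℕ) : ℂ) ^ (-s))⁻¹)
    {γ : ℝ} (hγ : Real.pi / 2 < γ) (r : ℤ) (B : (G →* ℂˣ) → ℂ) :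
    ((∀ χ, Tendsto (fun s : ℂ => L χ s / (s - s₀) ^ r) (𝓝[≠] (s₀ : ℂ)) (𝓝 (B χ))) ↔
      ∀ χ, Tendsto (fun X : ℝ => (Real.log X : ℂ) ^ r * (F χ s₀ * exp (fW S fr s₀ χ γ X))) atTop
        (𝓝 (exp (r * Pool.Agent.W187.UR.Lam γ) * B χ))) ∧
    ((∀ χ, Tendsto (fun s : ℂ => L χ s / (s - s₀) ^ r) (𝓝[≠] (s₀ : ℂ)) (𝓝 (B χ))) →
      ∀ χ, (fun X : ℝ => (Real.log X : ℂ) ^ r * (F χ s₀ * exp (fW S fr s₀ χ γ X)) -
        exp (r * Pool.Agent.W187.UR.Lam γ) * B χ) =O[atTop] (fun X : ℝ => 1 / Real.log X)) := by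
  have hLm : ∀ χ, ∀ x ∈ Icc s₀ (1 + (0 : ℝ)), MeromorphicAt (fun s => L χ s / F χ s) (x : ℂ) := by
    intro χ x hx
    rw [add_zero] at hx
    exact (hm χ x hx).div (hF χ x).meromorphicAt
  have hLp : ∀ χ, ∀ s : ℂ, 1 + (0 : ℝ) < s.re → L χ s / F χ s =
      ∏' v : {v : HeightOneSpectrum (𝓞 K) | v ∉ S},
        ((1 - (((Ideal.absNorm v.1.asIdeal : ℝ)) : ℂ) ^ (-s) • fmat S fr χ v).det)⁻¹ := by
    intro χ s hs
    rw [add_zero] at hs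
    rw [fprod, hp χ s hs, mul_div_cancel_left₀ _ (hF1 χ s hs)]
  have hcont : ∀ χ, Tendsto (F χ) (𝓝[≠] (s₀ : ℂ)) (𝓝 (F χ s₀)) := fun χ =>
    (hF χ s₀).continuousAt.tendsto.mono_left nhdsWithin_le_nhds
  have hne : ∀ χ, ∀ᶠ s : ℂ in 𝓝[≠] (s₀ : ℂ), F χ s ≠ 0 := fun χ =>
    (hcont χ).eventually_ne (hF0 χ)
  have conv : ∀ χ (C : ℂ), Tendsto (fun s : ℂ => L χ s / (s - s₀) ^ r) (𝓝[≠] (s₀ : ℂ)) (𝓝 C) ↔
      Tendsto (fun s : ℂ => (L χ s / F χ s) / (s - s₀) ^ r) (𝓝[≠] (s₀ : ℂ)) (𝓝 (C / F χ s₀)) := by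
    intro χ C
    constructor
    · intro h
      refine (h.div (hcont χ) (hF0 χ)).congr fun s => ?_
      change L χ s / (s - (s₀ : ℂ)) ^ r / F χ s = _
      rw [div_right_comm]
    · intro h
      have h1 := h.mul (hcont χ)
      rw [div_mul_cancel₀ _ (hF0 χ)] at h1
      refine h1.congr' ?_
      filter_upwards [hne χ] with s hs
      rw [div_right_comm, div_mul_cancel₀ _ hs]
  have hmulc : ∀ χ (X : ℝ), (Real.log X : ℂ) ^ r * (F χ s₀ * exp (fW S fr s₀ χ γ X)) =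
      F χ s₀ * ((Real.log X : ℂ) ^ r * exp (fW S fr s₀ χ γ X)) := fun χ X => by ring
  have hBc : ∀ χ, exp (r * Pool.Agent.W187.UR.Lam γ) * B χ =
      F χ s₀ * (exp (r * Pool.Agent.W187.UR.Lam γ) * (B χ / F χ s₀)) := by
    intro χ
    have := hF0 χ
    field_simp
  refine ⟨forall_congr' fun χ => ?_, fun h χ => ?_⟩
  · rw [conv]
    have h1 := (eul_fr (S := S) (fr := fr) χ).lead_iff s₀ (hLm χ) (hLp χ) hγ r (B χ / F χ s₀)
    simp only [fW_eq] at h1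
    rw [h1]
    constructor
    · intro h
      rw [hBc]
      exact (h.const_mul (F χ s₀)).congr fun X => (hmulc χ X).symm
    · intro h
      have h2 := h.const_mul (F χ s₀)⁻¹
      rw [hBc, inv_mul_cancel_left₀ (hF0 χ)] at h2
      refine h2.congr fun X => ?_
      rw [hmulc, inv_mul_cancel_left₀ (hF0 χ)]
  · have h1 := (eul_fr (S := S) (fr := fr) χ).lead_rate s₀ (hLm χ) (hLp χ) hγ ((conv χ _).1 (h χ))
    simp only [fW_eq] at h1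
    refine (h1.const_mul_left (F χ s₀)).congr_left fun X => ?_
    rw [hmulc, hBc]
    ring

/-- **Equivariant leading terms as limits, in the group ring.** -/
theorem equi_theta {L F : (G →* ℂˣ) → ℂ → ℂ} (s₀ : ℝ)
    (hm : ∀ χ, ∀ x ∈ Icc s₀ 1, MeromorphicAt (L χ) (x : ℂ))
    (hF : ∀ χ, ∀ x : ℝ, AnalyticAt ℂ (F χ) (x : ℂ)) (hF0 : ∀ χ, F χ s₀ ≠ 0)
    (hF1 : ∀ χ (s : ℂ), 1 < s.re → F χ s ≠ 0)
    (hp : ∀ χ (s : ℂ), 1 < s.re → L χ s = F χ s * ∏' v : {v : HeightOneSpectrum (𝓞 K) | v ∉ S},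
      (1 - ((χ (fr v.1) : ℂˣ) : ℂ) * ((Ideal.absNorm v.1.asIdeal : ℕ) : ℂ) ^ (-s))⁻¹)
    {γ : ℝ} (hγ : Real.pi / 2 < γ) (r : ℤ) (θ : G → ℂ) :
    ((∀ χ, Tendsto (fun s : ℂ => L χ s / (s - s₀) ^ r) (𝓝[≠] (s₀ : ℂ))
        (𝓝 (dft (fun g => θ g⁻¹) χ))) ↔
      ∀ g, Tendsto (fun X : ℝ => (Real.log X : ℂ) ^ r *
        dftinv (fun χ => F χ s₀ * exp (fW S fr s₀ χ γ X)) g⁻¹) atTop
        (𝓝 (exp (r * Pool.Agent.W187.UR.Lam γ) * θ g))) ∧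
    ((∀ χ, Tendsto (fun s : ℂ => L χ s / (s - s₀) ^ r) (𝓝[≠] (s₀ : ℂ))
        (𝓝 (dft (fun g => θ g⁻¹) χ))) →
      ∀ g, (fun X : ℝ => (Real.log X : ℂ) ^ r *
        dftinv (fun χ => F χ s₀ * exp (fW S fr s₀ χ γ X)) g⁻¹ -
        exp (r * Pool.Agent.W187.UR.Lam γ) * θ g) =O[atTop] (fun X : ℝ => 1 / Real.log X)) := by
  have : Fintype G := Fintype.ofFinite _
  have : Fintype (G →* ℂˣ) := Fintype.ofFinite _
  obtain ⟨h1, h2⟩ := equi_main s₀ hm hF hF0 hF1 hp hγ r (dft fun g => θ g⁻¹)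
  have hmulr : ∀ (X : ℝ) (g : G), (Real.log X : ℂ) ^ r *
      dftinv (fun χ => F χ s₀ * exp (fW S fr s₀ χ γ X)) g =
      dftinv (fun χ => (Real.log X : ℂ) ^ r * (F χ s₀ * exp (fW S fr s₀ χ γ X))) g := by
    intro X g
    rw [dftinv_mul]
  refine ⟨h1.trans ⟨fun h g => ?_, fun h χ => ?_⟩, fun h g => ?_⟩
  · have h3 := dftinv_tendsto h g⁻¹
    rw [dftinv_mul, dftinv_dft, inv_inv] at h3
    exact h3.congr fun X => (hmulr X _).symm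
  · have h3 := dft_tendsto (fun g : G => h g⁻¹) χ
    rw [dft_mul] at h3
    refine h3.congr fun X => ?_
    rw [dft_mul]
    simp only [inv_inv]
    rw [dft_dftinv]
  · have h3 : ∀ X : ℝ, (Real.log X : ℂ) ^ r *
        dftinv (fun χ => F χ s₀ * exp (fW S fr s₀ χ γ X)) g⁻¹ -
        exp (r * Pool.Agent.W187.UR.Lam γ) * θ g =
        ∑ χ : G →* ℂˣ, (((χ g⁻¹⁻¹ : ℂˣ) : ℂ) / Nat.card G) * ((Real.log X : ℂ) ^ r *
          (F χ s₀ * exp (fW S fr s₀ χ γ X)) -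
            exp (r * Pool.Agent.W187.UR.Lam γ) * dft (fun g => θ g⁻¹) χ) := by
      intro X
      have h4 : θ g = dftinv (dft fun g => θ g⁻¹) g⁻¹ := by
        rw [dftinv_dft, inv_inv]
      rw [h4]
      simp only [dftinv, finsum_eq_sum_of_fintype]
      simp only [Finset.sum_div, Finset.mul_sum]
      rw [← Finset.sum_sub_distrib]
      refine Finset.sum_congr rfl fun χ _ => ?_
      ring
    refine Asymptotics.IsBigO.congr_left ?_ fun X => (h3 X).symm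
    refine Asymptotics.IsBigO.fun_sum fun χ _ => ?_
    exact (h2 h χ).const_mul_left _

end Pool.Agent.V11288.LZ
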