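import Pool.Agent.V11288.LZ.Eul

/-! The trace of the powers of a complex matrix. -/

set_option autoImplicit false

namespace Pool.Agent.V11288.LZ

open Polynomial
open Pool.Agent.V11288.QU

variable {n : ℕ}

theorem det_sub_scalar (M : Matrix (Fin n) (Fin n) ℂ) (a : ℂ) :
    (M - algebraMap ℂ (Matrix (Fin n) (Fin n) ℂ) a).det = ∏ j, (App.enum M j - a) := by
  have h2 := (IsAlgClosed.splits M.charpoly).eq_prod_roots_of_monic (Matrix.charpoly_monic M)
  have h1 : M.charpoly.eval a = ∏ j, (a - App.enum M j) := by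
    rw [← App.enum_prod M (fun y => a - y)]
    conv_lhs => rw [h2]
    rw [Polynomial.eval_multiset_prod, Multiset.map_map]
    congr 1
    refine Multiset.map_congr rfl fun y _ => ?_
    simp
  have h3 : M - algebraMap ℂ (Matrix (Fin n) (Fin n) ℂ) a = -(Matrix.scalar (Fin n) a - M) := by
    rw [neg_sub]
    rfl
  rw [h3, Matrix.det_neg, ← Matrix.eval_charpoly, h1, Fintype.card_fin]
  have h4 : ∀ j : Fin n, App.enum M j - a = -1 * (a - App.enum M j) := fun j => by ring
  rw [Finset.prod_congr rfl fun j _ => h4 j, Finset.prod_mul_distrib, Finset.prod_const,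
    Finset.card_univ, Fintype.card_fin]

theorem det_aeval (M : Matrix (Fin n) (Fin n) ℂ) (p : ℂ[X]) :
    (aeval M p).det = ∏ j, p.eval (App.enum M j) := by
  let φ : ℂ[X] →* ℂ := Matrix.detMonoidHom.comp
    (aeval M : ℂ[X] →ₐ[ℂ] Matrix (Fin n) (Fin n) ℂ).toRingHom.toMonoidHom
  have hφ : ∀ r : ℂ[X], φ r = (aeval M r).det := fun r => rfl
  let ψ : ℂ[X] →* ℂ :=
    { toFun := fun r => ∏ j, r.eval (App.enum M j)
      map_one' := by simp
      map_mul' := fun r s => by simp [Finset.prod_mul_distrib] }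
  have hψ : ∀ r : ℂ[X], ψ r = ∏ j, r.eval (App.enum M j) := fun r => rfl
  rw [← hφ, ← hψ]
  have h2 := (IsAlgClosed.splits p).eq_prod_roots
  rw [h2, map_mul, map_mul, map_multiset_prod, map_multiset_prod, Multiset.map_map,
    Multiset.map_map]
  congr 1
  · rw [hφ, hψ, aeval_C]
    simp only [eval_C, Finset.prod_const, Finset.card_univ, Fintype.card_fin]
    rw [Matrix.algebraMap_eq_diagonal, Matrix.det_diagonal]
    simp
  · congr 1
    refine Multiset.map_congr rfl fun a _ => ?_
    simp only [Function.comp_apply]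
    rw [hφ, hψ, map_sub, aeval_X, aeval_C, det_sub_scalar]
    simp

/-- the eigenvalues of the powers -/
theorem charpoly_pow (M : Matrix (Fin n) (Fin n) ℂ) (k : ℕ) :
    (M ^ k).charpoly = ∏ j, (X - C (App.enum M j ^ k)) := by
  refine Polynomial.funext fun y => ?_
  rw [Matrix.eval_charpoly, Polynomial.eval_prod]
  have h1 : Matrix.scalar (Fin n) y - M ^ k = aeval M (C y - X ^ k) := by
    rw [map_sub, aeval_C, map_pow, aeval_X]
    rfl
  rw [h1, det_aeval]
  refine Finset.prod_congr rfl fun j _ => ?_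
  simp

/-- **the trace of the powers** -/
theorem trace_pow (M : Matrix (Fin n) (Fin n) ℂ) (k : ℕ) : (M ^ k).trace = psum M k := by
  have h : (∏ j, (X - C (App.enum M j ^ k)) : ℂ[X]) =
      (((Finset.univ : Finset (Fin n)).val.map fun j => App.enum M j ^ k).map
        fun a => (X : ℂ[X]) - C a).prod := by
    rw [Multiset.map_map]
    rfl
  rw [Matrix.trace_eq_sum_roots_charpoly, charpoly_pow, h,
    Polynomial.roots_multiset_prod_X_sub_C, psum_enum]
  rfl

end Pool.Agent.V11288.LZ
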